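import Pool.Agent.Lib.MP_305fdd_al.Fr.C2.MUP

/-!
# MP_305fdd_al, F_r, Case 2: the abstract LINE theorem

`G` acts on a tree, `Z h` (`h : H`) are abelian subgroups of `Γ`, `ρ : G → Γ`; for every `h` there is
a window `f h 0, ..., f h (N h)` of a line on which lifts of generators of `Z h` act by translations
`φ h`; elements which carry an edge of a window to an edge of a window are over `Z h` and translate by
the right amount.  Conclusion: `Γ` is a multiple HNN extension (for homomorphisms to groups `Q` such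
that all homomorphisms `G → Q` factor through `Γ`).
-/

set_option autoImplicit false
set_option linter.unusedSectionVars false
set_option linter.unusedVariables false

namespace Pool.Agent.FrC2

open Pool.Agent.FrT

section reorder

theorem sum_neg' {G : Type} (φ : G → ℤ) (l : List G) :
    (l.map fun b => - φ b).sum = - (l.map φ).sum := by
  induction l with
  | nil => simp
  | cons x l ih => simp [ih, add_comm]

variable {G V : Type} [Group G] [MulAction G V]

/-- A product of commuting translations of a window acts as a translation of the window. -/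
theorem reorder {f : ℤ → V} {N : ℤ} {B : Set G} {φ : G → ℤ}
    (hcomm : ∀ a ∈ B, ∀ b ∈ B, a * b = b * a)
    (hstep : ∀ b ∈ B, ∀ n, 0 ≤ n → n ≤ N → 0 ≤ n + φ b → n + φ b ≤ N → b • f n = f (n + φ b))
    (hN : ∀ b ∈ B, 2 * |φ b| ≤ N) : ∀ (k : ℕ) (l : List G), l.length = k → (∀ b ∈ l, b ∈ B) →
      ∀ n, 0 ≤ n → n ≤ N → 0 ≤ n + (l.map φ).sum → n + (l.map φ).sum ≤ N →
        l.prod • f n = f (n + (l.map φ).sum) := by
  classical
  intro k
  induction k with
  | zero =>
    intro l hl _ n _ _ _ _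
    rw [List.length_eq_zero_iff] at hl
    subst hl
    simp
  | succ k ih =>
    intro l hl hB n h1 h2 h3 h4
    by_cases hex : ∃ b ∈ l, 0 ≤ n + φ b ∧ n + φ b ≤ N
    · obtain ⟨b, hb, h5, h6⟩ := hex
      have hp : l.Perm (l.erase b ++ [b]) :=
        (List.perm_cons_erase hb).trans (List.perm_append_comm (l₁ := [b]) (l₂ := l.erase b))
      have hpw : l.Pairwise Commute := by
        rw [List.pairwise_iff_forall_sublist]
        intro x y hxy
        have hx := hxy.subset (List.mem_cons_self)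
        have hy := hxy.subset (List.mem_cons_of_mem _ (List.mem_cons_self))
        exact hcomm x (hB x hx) y (hB y hy)
      have e1 : l.prod = (l.erase b).prod * b := by
        rw [hp.prod_eq' hpw, List.prod_append, List.prod_singleton]
      have e2 : (l.map φ).sum = φ b + ((l.erase b).map φ).sum := by
        rw [((List.perm_cons_erase hb).map φ).sum_eq, List.map_cons, List.sum_cons]
      have hlen : (l.erase b).length = k := by
        rw [List.length_erase_of_mem hb, hl]
        rfl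
      rw [e1, mul_smul, hstep b (hB b hb) n h1 h2 h5 h6, e2, ← add_assoc]
      rw [e2, ← add_assoc] at h3 h4
      exact ih (l.erase b) hlen (fun x hx => hB x (List.mem_of_mem_erase hx)) (n + φ b) h5 h6 h3 h4
    · exfalso
      push Not at hex
      -- all steps leave the window on the same side
      have hb : ∀ b ∈ l, n + φ b < 0 ∨ N < n + φ b := by
        intro b hb
        rcases lt_or_ge (n + φ b) 0 with h | h
        · exact Or.inl h
        · exact Or.inr (hex b hb h)
      have habs : ∀ b ∈ l, 2 * φ b ≤ N ∧ -(2 * φ b) ≤ N := by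
        intro b hb
        have h5 := hN b (hB b hb)
        have h6 := le_abs_self (φ b)
        have h7 := neg_abs_le (φ b)
        constructor <;> linarith
      obtain ⟨b0, l', rfl⟩ := List.exists_cons_of_length_eq_add_one hl
      have hb0 := hb b0 (List.mem_cons_self)
      have ha0 := habs b0 (List.mem_cons_self)
      rcases le_or_gt (2 * n) N with hn | hn
      · have hneg : ∀ b ∈ b0 :: l', φ b < 0 ∧ n + φ b < 0 := by
          intro b hbl
          have h5 := habs b hbl
          rcases hb b hbl with h | h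
          · exact ⟨by linarith, h⟩
          · exfalso; linarith
        have hs : (l'.map φ).sum ≤ 0 := by
          have h8 : 0 ≤ (l'.map fun b => - φ b).sum := by
            apply List.sum_nonneg
            intro x hx
            rw [List.mem_map] at hx
            obtain ⟨b, hb, rfl⟩ := hx
            have := (hneg b (List.mem_cons_of_mem _ hb)).1
            linarith
          rw [sum_neg' φ l'] at h8
          linarith
        rw [List.map_cons, List.sum_cons] at h3
        have := (hneg b0 (List.mem_cons_self)).2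
        linarith
      · have hpos : ∀ b ∈ b0 :: l', 0 < φ b ∧ N < n + φ b := by
          intro b hbl
          have h5 := habs b hbl
          rcases hb b hbl with h | h
          · exfalso; linarith
          · exact ⟨by linarith, h⟩
        have hs : 0 ≤ (l'.map φ).sum := by
          apply List.sum_nonneg
          intro x hx
          rw [List.mem_map] at hx
          obtain ⟨b, hb, rfl⟩ := hx
          exact (hpos b (List.mem_cons_of_mem _ hb)).1.le
        rw [List.map_cons, List.sum_cons] at h4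
        have := (hpos b0 (List.mem_cons_self)).2
        linarith

end reorder

section comp

variable {G V H : Type} [Group G] [MulAction G V] {X : SimpleGraph V} {u w : H → V}

/-- every component is a translate of the component of `x0` -/
theorem exists_comp' (hX : X.IsTree)
    (hact : ∀ (g : G) (x y : V), X.Adj x y → X.Adj (g • x) (g • y)) {t : H → G}
    (hw : ∀ i, RchA G X u w (t i • u i) (w i)) (x0 x : V) :
    ∃ g : G, RchA G X u w (g • x0) x := by
  obtain ⟨p⟩ := hX.connected.preconnected x0 x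
  have key : ∀ (a b : V), X.Walk a b → (∃ g : G, RchA G X u w (g • x0) a) →
      ∃ g : G, RchA G X u w (g • x0) b := by
    intro a b p
    induction p with
    | nil => exact id
    | @cons a b c hab p ih =>
      rintro ⟨g, hg⟩
      apply ih
      by_cases h : s(a, b) ∈ Orbs G u w
      · obtain ⟨i, k, hk⟩ := h
        rw [Sym2.eq_iff] at hk
        rcases hk with ⟨h1, h2⟩ | ⟨h1, h2⟩
        · -- from `k u` to `k w`
          refine ⟨k * t i * k⁻¹ * g, ?_⟩
          have h3 := RchA.smul hact (k * t i * k⁻¹) hg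
          rw [h1, ← mul_smul, ← mul_smul, inv_mul_cancel_right] at h3
          rw [h2]
          refine h3.trans ?_
          rw [mul_smul]
          exact RchA.smul hact k (hw i)
        · refine ⟨k * (t i)⁻¹ * k⁻¹ * g, ?_⟩
          have h3 := RchA.smul hact (k * (t i)⁻¹ * k⁻¹) hg
          rw [h1, ← mul_smul, ← mul_smul, inv_mul_cancel_right] at h3
          rw [h2]
          refine h3.trans ?_
          have h4 := RchA.smul hact (k * (t i)⁻¹) (hw i)
          rw [← mul_smul, inv_mul_cancel_right] at h4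
          exact h4.symm
      · exact ⟨g, hg.trans (RchA.adj hab h)⟩
  exact key _ _ p ⟨1, by rw [one_smul]; exact RchA.refl x0⟩

/-- generation -/
theorem gen_SA (hX : X.IsTree)
    (hact : ∀ (g : G) (x y : V), X.Adj x y → X.Adj (g • x) (g • y)) {t : H → G} {x0 : V}
    (hu : ∀ i, RchA G X u w (u i) x0) (hw : ∀ i, RchA G X u w (t i • u i) (w i))
    (G' : Subgroup G) (h1 : ∀ g : G, RchA G X u w (g • x0) x0 → g ∈ G') (h2 : ∀ i, t i ∈ G')
    (g : G) : g ∈ G' := by
  have hA : ∀ a b : G, RchA G X u w (a • x0) (b • x0) → a ∈ G' → b ∈ G' := by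
    intro a b hab ha
    have h3 := RchA.smul hact a⁻¹ hab
    rw [inv_smul_smul, ← mul_smul] at h3
    have h4 := G'.mul_mem ha (h1 _ h3.symm)
    rwa [mul_inv_cancel_left] at h4
  have hku : ∀ i (k : G), RchA G X u w (k • u i) (k • x0) := fun i k => RchA.smul hact k (hu i)
  have hkw : ∀ i (k : G), RchA G X u w (k • w i) ((k * t i) • x0) := by
    intro i k
    have h3 := RchA.smul hact k (hw i)
    rw [← mul_smul] at h3
    exact h3.symm.trans (hku i (k * t i))
  have key : ∀ (a b : V), X.Walk a b → (∃ g ∈ G', RchA G X u w (g • x0) a) →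
      ∃ g ∈ G', RchA G X u w (g • x0) b := by
    intro a b p
    induction p with
    | nil => exact id
    | @cons a b c hab p ih =>
      rintro ⟨g, hg', hg⟩
      apply ih
      by_cases h : s(a, b) ∈ Orbs G u w
      · obtain ⟨i, k, hk⟩ := h
        rw [Sym2.eq_iff] at hk
        rcases hk with ⟨e1, e2⟩ | ⟨e1, e2⟩
        · rw [e1] at hg
          have hk : k ∈ G' := hA _ _ (hg.trans (hku i k)) hg'
          rw [e2]
          exact ⟨k * t i, G'.mul_mem hk (h2 i), (hkw i k).symm⟩
        · rw [e1] at hg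
          have hk : k * t i ∈ G' := hA _ _ (hg.trans (hkw i k)) hg'
          have hk' : k ∈ G' := by
            have := G'.mul_mem hk (G'.inv_mem (h2 i))
            rwa [mul_inv_cancel_right] at this
          rw [e2]
          exact ⟨k, hk', (hku i k).symm⟩
      · exact ⟨g, hg', hg.trans (RchA.adj hab h)⟩
  obtain ⟨p⟩ := hX.connected.preconnected x0 (g • x0)
  obtain ⟨g', hg', h⟩ := key _ _ p ⟨1, G'.one_mem, by rw [one_smul]; exact RchA.refl x0⟩
  exact hA _ _ h hg'

end comp

/-- The hypotheses of the abstract LINE theorem. -/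
structure Wins {G V Γ H : Type} [Group G] [MulAction G V] [Group Γ] (X : SimpleGraph V)
    (ρ : G →* Γ) (Z : H → Subgroup Γ) (φ : H → Γ → ℤ) (B : H → Set G) (f : H → ℤ → V)
    (N : H → ℤ) : Prop where
  comm : ∀ h, ∀ a ∈ B h, ∀ b ∈ B h, a * b = b * a
  gen : ∀ h, (Subgroup.closure (B h)).map ρ = Z h
  add : ∀ h, ∀ a ∈ Z h, ∀ b ∈ Z h, φ h (a * b) = φ h a + φ h b
  ne : ∀ h, ∃ z ∈ Z h, φ h z ≠ 0
  big : ∀ h, ∀ b ∈ B h, 2 * |φ h (ρ b)| ≤ N h
  adj : ∀ h n, 0 ≤ n → n < N h → X.Adj (f h n) (f h (n + 1))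
  mv : ∀ h, ∀ b ∈ B h, ∀ n, 0 ≤ n → n ≤ N h → 0 ≤ n + φ h (ρ b) → n + φ h (ρ b) ≤ N h →
    b • f h n = f h (n + φ h (ρ b))
  eq : ∀ h h' n n' (g : G), 0 ≤ n → n < N h → 0 ≤ n' → n' < N h' → g • f h n = f h' n' →
    g • f h (n + 1) = f h' (n' + 1) → h = h' ∧ ρ g ∈ Z h ∧ φ h (ρ g) = n' - n
  neg : ∀ h h' n n' (g : G), 0 ≤ n → n < N h → 0 ≤ n' → n' < N h' → g • f h n = f h' (n' + 1) →
    g • f h (n + 1) = f h' n' → False

namespace Wins

variable {G V Γ H : Type} [Group G] [MulAction G V] [Group Γ] {X : SimpleGraph V}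
  {ρ : G →* Γ} {Z : H → Subgroup Γ} {φ : H → Γ → ℤ} {B : H → Set G} {f : H → ℤ → V}
  {N : H → ℤ} (hW : Wins X ρ Z φ B f N)

include hW

theorem one (h : H) : φ h 1 = 0 := by
  have h1 := hW.add h 1 (Z h).one_mem 1 (Z h).one_mem
  rw [mul_one] at h1
  linarith

theorem inv (h : H) {a : Γ} (ha : a ∈ Z h) : φ h a⁻¹ = - φ h a := by
  have h1 := hW.add h a ha a⁻¹ ((Z h).inv_mem ha)
  rw [mul_inv_cancel, hW.one h] at h1
  linarith

theorem mem {h : H} {x : G} (hx : x ∈ Subgroup.closure (B h)) : ρ x ∈ Z h := by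
  rw [← hW.gen h]
  exact Subgroup.mem_map_of_mem ρ hx

/-- the action on the window -/
theorem act (h : H) {x : G} (hx : x ∈ Subgroup.closure (B h)) {n : ℤ} (h1 : 0 ≤ n)
    (h2 : n ≤ N h) (h3 : 0 ≤ n + φ h (ρ x)) (h4 : n + φ h (ρ x) ≤ N h) :
    x • f h n = f h (n + φ h (ρ x)) := by
  set B' : Set G := B h ∪ (B h)⁻¹ with hB'
  have hBZ : ∀ b ∈ B', ρ b ∈ Z h := by
    intro b hb
    rcases hb with hb | hb
    · exact hW.mem (Subgroup.subset_closure hb)
    · rw [Set.mem_inv] at hb
      have := (Z h).inv_mem (hW.mem (Subgroup.subset_closure hb))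
      rwa [← map_inv, inv_inv] at this
  have hcomm : ∀ a ∈ B', ∀ b ∈ B', a * b = b * a := by
    have key : ∀ a ∈ B', ∀ b ∈ B h, Commute a b := by
      intro a ha b hb
      rcases ha with ha | ha
      · exact hW.comm h a ha b hb
      · rw [Set.mem_inv] at ha
        have h5 : Commute a⁻¹ b := hW.comm h _ ha b hb
        exact Commute.inv_left_iff.1 h5
    intro a ha b hb
    rcases hb with hb | hb
    · exact key a ha b hb
    · rw [Set.mem_inv] at hb
      exact Commute.inv_right_iff.1 (key a ha _ hb)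
  have hstep : ∀ b ∈ B', ∀ n, 0 ≤ n → n ≤ N h → 0 ≤ n + φ h (ρ b) → n + φ h (ρ b) ≤ N h →
      b • f h n = f h (n + φ h (ρ b)) := by
    intro b hb n h1 h2 h3 h4
    rcases hb with hb | hb
    · exact hW.mv h b hb n h1 h2 h3 h4
    · have hb' := hb
      rw [Set.mem_inv] at hb
      have h5 : φ h (ρ b⁻¹) = - φ h (ρ b) := by
        rw [map_inv]
        exact hW.inv h (hBZ b (Or.inr hb'))
      have h6 := hW.mv h b⁻¹ hb (n + φ h (ρ b)) h3 h4 (by rw [h5]; linarith) (by rw [h5]; linarith)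
      rw [h5, add_neg_cancel_right] at h6
      rw [← h6, smul_inv_smul]
  have hbig : ∀ b ∈ B', 2 * |φ h (ρ b)| ≤ N h := by
    intro b hb
    rcases hb with hb | hb
    · exact hW.big h b hb
    · have hb' := hb
      rw [Set.mem_inv] at hb
      have h5 := hW.big h b⁻¹ hb
      rwa [map_inv, hW.inv h (hBZ b (Or.inr hb')), abs_neg] at h5
  obtain ⟨l, hl, rfl⟩ : ∃ l : List G, (∀ b ∈ l, b ∈ B') ∧ l.prod = x := by
    rw [← Subgroup.mem_toSubmonoid, Subgroup.closure_toSubmonoid] at hx
    exact Submonoid.exists_list_of_mem_closure hx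
  have hsum : φ h (ρ l.prod) = (l.map fun b => φ h (ρ b)).sum := by
    have key : ∀ l : List G, (∀ b ∈ l, b ∈ B') → ρ l.prod ∈ Z h ∧
        φ h (ρ l.prod) = (l.map fun b => φ h (ρ b)).sum := by
      intro l
      induction l with
      | nil =>
        intro _
        simp only [List.prod_nil, map_one, List.map_nil, List.sum_nil]
        exact ⟨(Z h).one_mem, hW.one h⟩
      | cons b l ih =>
        intro hl
        obtain ⟨h5, h6⟩ := ih fun x hx => hl x (List.mem_cons_of_mem _ hx)
        have h7 := hBZ b (hl b List.mem_cons_self)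
        rw [List.prod_cons, map_mul, hW.add h _ h7 _ h5, h6, List.map_cons, List.sum_cons]
        exact ⟨(Z h).mul_mem h7 h5, rfl⟩
    exact (key l hl).2
  rw [hsum] at h3 h4 ⊢
  exact reorder (f := f h) (N := N h) (B := B') (φ := fun b => φ h (ρ b)) hcomm hstep hbig _ l rfl
    hl n h1 h2 h3 h4

/-- the generator of the translation group -/
theorem exists_gen (h : H) : ∃ t ∈ Subgroup.closure (B h), 0 < φ h (ρ t) ∧
    φ h (ρ t) ≤ N h ∧ ∀ z ∈ Z h, φ h (ρ t) ∣ φ h z := by
  classical
  -- the image is a subgroup of the integers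
  let I : AddSubgroup ℤ :=
    { carrier := {m | ∃ z ∈ Z h, φ h z = m}
      add_mem' := by
        rintro a b ⟨z, hz, rfl⟩ ⟨z', hz', rfl⟩
        exact ⟨z * z', (Z h).mul_mem hz hz', hW.add h z hz z' hz'⟩
      zero_mem' := ⟨1, (Z h).one_mem, hW.one h⟩
      neg_mem' := by
        rintro a ⟨z, hz, rfl⟩
        exact ⟨z⁻¹, (Z h).inv_mem hz, hW.inv h hz⟩ }
  obtain ⟨d, hd⟩ := Int.subgroup_cyclic I
  -- a generator with nonzero translation
  have hex : ∃ b ∈ B h, φ h (ρ b) ≠ 0 := by
    by_contra hcon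
    push Not at hcon
    obtain ⟨z, hz, hz0⟩ := hW.ne h
    rw [← hW.gen h] at hz
    obtain ⟨x, hx, rfl⟩ := hz
    apply hz0
    have : ρ x ∈ Z h ∧ φ h (ρ x) = 0 := by
      clear hz0
      induction hx using Subgroup.closure_induction with
      | mem x hx => exact ⟨hW.mem (Subgroup.subset_closure hx), hcon x hx⟩
      | one => rw [map_one]; exact ⟨(Z h).one_mem, hW.one h⟩
      | mul x y _ _ hx hy =>
        rw [map_mul]
        exact ⟨(Z h).mul_mem hx.1 hy.1, by rw [hW.add h _ hx.1 _ hy.1, hx.2, hy.2, add_zero]⟩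
      | inv x _ hx =>
        rw [map_inv]
        exact ⟨(Z h).inv_mem hx.1, by rw [hW.inv h hx.1, hx.2, neg_zero]⟩
    exact this.2
  obtain ⟨b, hb, hb0⟩ := hex
  have hdiv : ∀ z ∈ Z h, d ∣ φ h z := by
    intro z hz
    have h1 : φ h z ∈ I := ⟨z, hz, rfl⟩
    rw [hd, AddSubgroup.mem_closure_singleton] at h1
    obtain ⟨n, hn⟩ := h1
    exact ⟨n, by rw [← hn, smul_eq_mul, mul_comm]⟩
  have hd0 : d ≠ 0 := by
    rintro rfl
    exact hb0 (zero_dvd_iff.1 (hdiv _ (hW.mem (Subgroup.subset_closure hb))))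
  have habs : |d| ∈ I := by
    have h1 : d ∈ I := by rw [hd]; exact AddSubgroup.mem_closure_singleton_self d
    rcases abs_choice d with h | h
    · rw [h]; exact h1
    · rw [h]; exact I.neg_mem h1
  obtain ⟨z, hz, hzd⟩ := habs
  have hz' := hz
  rw [← hW.gen h] at hz'
  obtain ⟨t, ht, rfl⟩ := hz'
  refine ⟨t, ht, ?_, ?_, ?_⟩
  · rw [hzd]; exact abs_pos.2 hd0
  · rw [hzd]
    have h1 := hdiv _ (hW.mem (Subgroup.subset_closure hb))
    have h2 : |d| ≤ |φ h (ρ b)| := by
      have := Int.natAbs_le_of_dvd_ne_zero h1 hb0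
      rw [Int.abs_eq_natAbs, Int.abs_eq_natAbs]
      exact_mod_cast this
    have h3 := hW.big h b hb
    have h4 := abs_nonneg (φ h (ρ b))
    linarith
  · intro z hz
    rw [hzd]
    exact (abs_dvd _ _).2 (hdiv z hz)

end Wins

/-- THE ABSTRACT LINE THEOREM -/
theorem absLine {G V Γ H : Type} [Group G] [MulAction G V] [Group Γ] {X : SimpleGraph V}
    {ρ : G →* Γ} {Z : H → Subgroup Γ} {φ : H → Γ → ℤ} {B : H → Set G} {f : H → ℤ → V}
    {N : H → ℤ} (hW : Wins X ρ Z φ B f N) (hX : X.IsTree)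
    (hact : ∀ (g : G) (x y : V), X.Adj x y → X.Adj (g • x) (g • y)) (hG : Group.FG G)
    (hρ : Function.Surjective ρ) (hZ : ∀ h, ∀ a ∈ Z h, ∀ b ∈ Z h, a * b = b * a) :
    ∃ (A : Subgroup Γ) (g t : H → Γ), A.FG ∧
      (∀ h, t h ∈ Z h ∧ ∀ z ∈ Z h, ∃ (n : ℤ), z * t h ^ n ∈ Z h ∧ φ h (z * t h ^ n) = 0) ∧
      (∀ h, ∀ z ∈ Z h, φ h z = 0 → g h * z * (g h)⁻¹ ∈ A) ∧
      (∀ G' : Subgroup Γ, A ≤ G' → (∀ h, g h * t h * (g h)⁻¹ ∈ G') → G' = ⊤) ∧
      (∀ E : Subgroup G, (∃ p : V, ∀ a ∈ E, a • p = p) →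
        ∃ k : Γ, ∀ a ∈ E, k * ρ a * k⁻¹ ∈ A) ∧
      (∀ (Q : Type) [Group Q], (∀ (S : G →* Q) (x : G), ρ x = 1 → S x = 1) →
        ∀ (σ : A →* Q) (τ : H → Q),
          (∀ h, ∀ z ∈ Z h, φ h z = 0 → ∀ a : A, (a : Γ) = g h * z * (g h)⁻¹ →
            σ a * τ h = τ h * σ a) →
          ∃ S : Γ →* Q, (∀ a : A, S a = σ a) ∧ ∀ h, S (g h * t h * (g h)⁻¹) = τ h) := by
  classical
  obtain ⟨x0⟩ := hX.connected.nonempty
  choose t ht ht0 htN htd using hW.exists_gen
  have hN1 : ∀ h, 0 < N h := fun h => lt_of_lt_of_le (ht0 h) (htN h)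
  set u : H → V := fun h => f h 0 with hu
  set w : H → V := fun h => f h 1 with hw
  have f1 : ∀ h, f h (0 + 1) = w h := fun h => by rw [zero_add]
  -- window edges in the orbits
  have horb : ∀ h n, 0 ≤ n → n < N h → s(f h n, f h (n + 1)) ∈ Orbs G u w → φ h (ρ (t h)) ∣ n := by
    intro h n h1 h2 h3
    obtain ⟨h', g, hg⟩ := h3
    rw [Sym2.eq_iff] at hg
    rcases hg with ⟨e1, e2⟩ | ⟨e1, e2⟩
    · obtain ⟨h4, h5, h6⟩ := hW.eq h' h 0 n g le_rfl (hN1 h') h1 h2 e1.symm (by
        rw [f1, e2])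
      subst h4
      rw [sub_zero] at h6
      rw [← h6]
      exact htd _ _ h5
    · exact (hW.neg h' h 0 n g le_rfl (hN1 h') h1 h2 e2.symm (by rw [f1, e1])).elim
  -- the path in the window
  have hpath : ∀ h (n : ℕ), 1 + (n : ℤ) ≤ φ h (ρ (t h)) → RchA G X u w (f h (1 + n)) (w h) := by
    intro h n
    induction n with
    | zero =>
      intro _
      simp only [Nat.cast_zero, add_zero]
      exact RchA.refl _
    | succ n ih =>
      intro hn
      push_cast at hn ⊢
      have h1 := htN h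
      have h2 : 0 ≤ 1 + (n : ℤ) := by positivity
      refine RchA.trans (RchA.symm (RchA.adj (hW.adj h (1 + n) h2 (by linarith)) ?_))
        (ih (by linarith))
      intro h3
      have h4 := horb h (1 + n) h2 (by linarith) h3
      have h5 := Int.le_of_dvd (by positivity) h4
      linarith
  have hw' : ∀ h, RchA G X u w (t h • u h) (w h) := by
    intro h
    have h1 := hW.act h (ht h) (n := 0) le_rfl (hN1 h).le (by rw [zero_add]; exact (ht0 h).le)
      (by rw [zero_add]; exact htN h)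
    rw [zero_add] at h1
    have h2 := ht0 h
    obtain ⟨m, hm⟩ := Int.eq_ofNat_of_zero_le (show 0 ≤ φ h (ρ (t h)) - 1 by linarith)
    have h3 := hpath h m (by rw [← hm]; linarith)
    rw [← hm, add_sub_cancel] at h3
    show RchA G X u w (t h • f h 0) (w h)
    rw [h1]
    exact h3
  -- new representatives
  have hcomp := fun x => exists_comp' hX hact hw' x0 x
  choose a ha using fun h => hcomp (u h)
  set u' : H → V := fun h => (a h)⁻¹ • u h with hu'
  set w' : H → V := fun h => (a h)⁻¹ • w h with hw''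
  set t' : H → G := fun h => (a h)⁻¹ * t h * a h with ht'
  have hOrb : Orbs G u' w' = Orbs G u w := by
    ext e
    constructor
    · rintro ⟨h, g, hg⟩
      exact ⟨h, g * (a h)⁻¹, by rw [hg, hu', hw'', mul_smul, mul_smul]⟩
    · rintro ⟨h, g, hg⟩
      exact ⟨h, g * a h, by rw [hg, hu', hw'']; simp only [mul_smul, smul_inv_smul]⟩
  have hRch : ∀ x y, RchA G X u' w' x y ↔ RchA G X u w x y := by
    intro x y
    unfold RchA
    rw [hOrb]
  have hu0 : ∀ h, RchA G X u' w' (u' h) x0 := by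
    intro h
    rw [hRch]
    have h1 := RchA.smul hact (a h)⁻¹ (ha h)
    rw [inv_smul_smul] at h1
    exact h1.symm
  have hw0 : ∀ h, RchA G X u' w' (t' h • u' h) (w' h) := by
    intro h
    rw [hRch]
    have h1 := RchA.smul hact (a h)⁻¹ (hw' h)
    rw [← mul_smul] at h1
    show RchA G X u w (((a h)⁻¹ * t h * a h) • (a h)⁻¹ • u h) ((a h)⁻¹ • w h)
    rw [← mul_smul, mul_inv_cancel_right]
    exact h1
  set A := SA hact u' w' x0 with hA
  have hmem : ∀ g : G, g ∈ A ↔ RchA G X u' w' (g • x0) x0 := fun g => Iff.rfl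
  have hinv' : ∀ (i j : H) (g : G), ¬ (g • u' i = w' j ∧ g • w' i = u' j) := by
    rintro i j g ⟨h1, h2⟩
    have e1 : (a j * g * (a i)⁻¹) • u i = w j := by
      rw [mul_smul, mul_smul, h1, hw'', smul_inv_smul]
    have e2 : (a j * g * (a i)⁻¹) • w i = u j := by
      rw [mul_smul, mul_smul, h2, hu', smul_inv_smul]
    exact hW.neg i j 0 0 _ le_rfl (hN1 i) le_rfl (hN1 j) (by rw [f1]; exact e1)
      (by rw [f1]; exact e2)
  have hdist' : ∀ (i j : H) (g : G), g • u' i = u' j → g • w' i = w' j → i = j := by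
    intro i j g h1 h2
    have e1 : (a j * g * (a i)⁻¹) • u i = u j := by
      rw [mul_smul, mul_smul, h1, hu', smul_inv_smul]
    have e2 : (a j * g * (a i)⁻¹) • w i = w j := by
      rw [mul_smul, mul_smul, h2, hw'', smul_inv_smul]
    exact (hW.eq i j 0 0 _ le_rfl (hN1 i) le_rfl (hN1 j) e1 (by rw [f1, f1]; exact e2)).1
  have huw' : ∀ i, X.Adj (u' i) (w' i) := by
    intro i
    have h1 := hW.adj i 0 le_rfl (hN1 i)
    rw [f1] at h1
    exact hact _ _ _ h1
  -- elements of the edge groups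
  have hstab : ∀ (i : H) (c : G), c • u' i = u' i → c • w' i = w' i →
      ρ (a i * c * (a i)⁻¹) ∈ Z i ∧ φ i (ρ (a i * c * (a i)⁻¹)) = 0 := by
    intro i c h1 h2
    have e1 : (a i * c * (a i)⁻¹) • u i = u i := by
      rw [mul_smul, mul_smul, h1, hu', smul_inv_smul]
    have e2 : (a i * c * (a i)⁻¹) • w i = w i := by
      rw [mul_smul, mul_smul, h2, hw'', smul_inv_smul]
    have h3 := hW.eq i i 0 0 _ le_rfl (hN1 i) le_rfl (hN1 i) e1 (by rw [f1]; exact e2)
    exact ⟨h3.2.1, by rw [h3.2.2, sub_zero]⟩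
  -- the universal property for `A`
  have hUP : ∀ (Q : Type) [Group Q] (s : A →* Q) (τ : H → Q),
      (∀ (i : H) (c d : A), ρ (a i * (c : G) * (a i)⁻¹) ∈ Z i →
        φ i (ρ (a i * (c : G) * (a i)⁻¹)) = 0 → ρ (c : G) = ρ (d : G) → s c * τ i = τ i * s d) →
      ∃ S : G →* Q, (∀ a : A, S a = s a) ∧ ∀ i, S (t' i) = τ i := by
    intro Q _ s τ hτ
    refine mup hX hact hinv' hdist' huw' hu0 hw0 A hmem s τ ?_
    intro i c d h1 h2 h3
    obtain ⟨h4, h5⟩ := hstab i c h1 h2
    refine hτ i c d h4 h5 ?_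
    -- `ρ d = ρ (t'⁻¹ c t') = ρ c`
    have h6 : (d : G) = (t' i)⁻¹ * (c : G) * t' i := by
      rw [mul_assoc, h3, inv_mul_cancel_left]
    have h7 := hZ i _ h4 _ (hW.mem (ht i))
    rw [← map_mul, ← map_mul] at h7
    have h8 : ρ ((a i)⁻¹ * (a i * (c : G) * (a i)⁻¹ * t i) * a i) =
        ρ ((a i)⁻¹ * (t i * (a i * (c : G) * (a i)⁻¹)) * a i) := by
      rw [map_mul, map_mul, h7, ← map_mul, ← map_mul]
    have h9 : (a i)⁻¹ * (a i * (c : G) * (a i)⁻¹ * t i) * a i = (c : G) * t' i := by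
      simp only [ht']
      group
    have h10 : (a i)⁻¹ * (t i * (a i * (c : G) * (a i)⁻¹)) * a i = t' i * (c : G) := by
      simp only [ht']
      group
    rw [h9, h10, map_mul ρ (c : G) (t' i), map_mul ρ (t' i) (c : G)] at h8
    rw [h6, map_mul, map_mul, map_inv, mul_assoc, h8, inv_mul_cancel_left]
  refine ⟨A.map ρ, fun h => (ρ (a h))⁻¹, fun h => ρ (t h), ?_, ?_, ?_, ?_, ?_, ?_⟩
  · -- finite generation: retraction
    obtain ⟨S, hS, -⟩ := hUP (A.map ρ) (ρ.subgroupMap A) (fun _ => 1) (by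
      intro i c d _ _ h3
      rw [mul_one, one_mul]
      exact Subtype.ext h3)
    have hsurj : Function.Surjective S := by
      intro y
      obtain ⟨x, hx⟩ := ρ.subgroupMap_surjective A y
      exact ⟨x, by rw [hS, hx]⟩
    have := hG
    exact (Group.fg_iff_subgroup_fg _).1 (Group.fg_of_surjective hsurj)
  · intro h
    refine ⟨hW.mem (ht h), fun z hz => ?_⟩
    obtain ⟨n, hn⟩ := htd h z hz
    have hmt := hW.mem (ht h)
    have key : ∀ m : ℤ, φ h (ρ (t h) ^ m) = m * φ h (ρ (t h)) := by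
      have hnat : ∀ m : ℕ, φ h (ρ (t h) ^ m) = m * φ h (ρ (t h)) := by
        intro m
        induction m with
        | zero => simp [hW.one h]
        | succ m ih =>
          rw [pow_succ, hW.add h _ ((Z h).pow_mem hmt m) _ hmt, ih]
          push_cast
          ring
      intro m
      obtain ⟨k, rfl | rfl⟩ := m.eq_nat_or_neg
      · rw [zpow_natCast, hnat]
      · rw [zpow_neg, zpow_natCast, hW.inv h ((Z h).pow_mem hmt k), hnat]
        ring
    refine ⟨-n, (Z h).mul_mem hz ((Z h).zpow_mem hmt _), ?_⟩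
    rw [hW.add h _ hz _ ((Z h).zpow_mem hmt _), key, hn]
    ring
  · intro h z hz hz0
    have hz' := hz
    rw [← hW.gen h] at hz'
    obtain ⟨x, hx, rfl⟩ := hz'
    refine ⟨(a h)⁻¹ * x * a h, ?_, by rw [map_mul, map_mul, map_inv, inv_inv]⟩
    show RchA G X u' w' (((a h)⁻¹ * x * a h) • x0) x0
    rw [hRch]
    have h1 := hW.act h hx (n := 0) le_rfl (hN1 h).le (by rw [hz0, add_zero])
      (by rw [hz0, add_zero]; exact (hN1 h).le)
    rw [hz0, add_zero] at h1
    have h2 := RchA.smul hact x (ha h)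
    have h3 : RchA G X u w (x • u h) (u h) := by
      show RchA G X u w (x • f h 0) (f h 0)
      rw [h1]
      exact RchA.refl _
    have h4 := RchA.smul hact (a h)⁻¹ (h2.trans (h3.trans (ha h).symm))
    rw [inv_smul_smul, ← mul_smul, ← mul_smul] at h4
    exact h4
  · intro G' hAG' hG'
    rw [eq_top_iff]
    intro y _
    obtain ⟨x, rfl⟩ := hρ y
    have := gen_SA hX hact hu0 hw0 (G'.comap ρ) (fun g hg => hAG' ⟨g, hg, rfl⟩) (fun i => by
      have h1 := hG' i
      rw [inv_inv] at h1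
      show ρ (t' i) ∈ G'
      simp only [ht', map_mul, map_inv]
      exact h1) x
    exact this
  · rintro E ⟨p, hp⟩
    obtain ⟨g, hg⟩ := hcomp p
    refine ⟨(ρ g)⁻¹, fun x hx => ⟨g⁻¹ * x * g, ?_, by rw [map_mul, map_mul, map_inv, inv_inv]⟩⟩
    show RchA G X u' w' ((g⁻¹ * x * g) • x0) x0
    rw [hRch]
    have h1 := RchA.smul hact x hg
    rw [hp x hx] at h1
    have h2 := RchA.smul hact g⁻¹ (h1.trans hg.symm)
    rw [inv_smul_smul, ← mul_smul, ← mul_smul] at h2
    exact h2
  · intro Q _ hfac σ τ hτ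
    obtain ⟨S, hS, hSt⟩ := hUP Q (σ.comp (ρ.subgroupMap A)) τ (by
      intro i c d h1 h2 h3
      have h4 := hτ i _ h1 h2 (ρ.subgroupMap A c) (by
        show ρ (c : G) = (ρ (a i))⁻¹ * ρ (a i * (c : G) * (a i)⁻¹) * ((ρ (a i))⁻¹)⁻¹
        simp only [map_mul, map_inv]
        group)
      have h5 : ρ.subgroupMap A d = ρ.subgroupMap A c := Subtype.ext h3.symm
      rw [MonoidHom.comp_apply, MonoidHom.comp_apply, h5, h4])
    -- factor through `ρ`
    have hker : ρ.ker ≤ S.ker := fun x hx => hfac S x hx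
    refine ⟨ρ.liftOfSurjective hρ ⟨S, hker⟩, ?_, ?_⟩
    · rintro ⟨y, x, hx, rfl⟩
      have h1 : ρ.liftOfSurjective hρ ⟨S, hker⟩ (ρ x) = S x :=
        MonoidHom.liftOfRightInverse_comp_apply _ _ _ ⟨S, hker⟩ x
      show ρ.liftOfSurjective hρ ⟨S, hker⟩ (ρ x) = _
      rw [h1]
      exact hS ⟨x, hx⟩
    · intro h
      have h1 : ρ.liftOfSurjective hρ ⟨S, hker⟩ (ρ (t' h)) = S (t' h) :=
        MonoidHom.liftOfRightInverse_comp_apply _ _ _ ⟨S, hker⟩ (t' h)
      have h2 : ρ (t' h) = (ρ (a h))⁻¹ * ρ (t h) * ((ρ (a h))⁻¹)⁻¹ := by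
        simp only [ht', map_mul, map_inv, inv_inv]
      rw [← h2, h1, hSt]

end Pool.Agent.FrC2
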