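import Pool.Agent.Lib.MP_305fdd_al.Fr.C2.Out

/-!
# MP_305fdd_al, F_r, Case 2: passage from the abstract LINE theorem to `LineOut`
-/

set_option autoImplicit false

namespace Pool.Agent.FrC2

open Pool.Agent.FrS Pool.Agent.FrR Matrix

/-- the output of the abstract LINE theorem in a group `Γ'` isomorphic to `P`, as `LineOut` in `Γ` -/
theorem toLineOut {Γ Γ' : Type} [Group Γ] [Group Γ'] {P : Subgroup Γ} {H ι : Type}
    {Z N : H → Subgroup Γ} {E : ι → Subgroup Γ} (j : Γ' →* Γ) (hj : Function.Injective j)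
    (hjP : ∀ x, x ∈ P ↔ ∃ y, j y = x) (Z' : H → Subgroup Γ') (hZ' : ∀ h y, y ∈ Z' h ↔ j y ∈ Z h)
    (hZP : ∀ h, Z h ≤ P) (φ : H → Γ' → ℤ)
    (hN : ∀ h, ∀ y ∈ Z' h, j y ∈ N h ↔ φ h y = 0) (hNZ : ∀ h, N h ≤ Z h)
    (A : Subgroup Γ') (g t : H → Γ') (kk : ι → Γ') (hA : A.FG)
    (ht : ∀ h, t h ∈ Z' h ∧ ∀ z ∈ Z' h, ∃ (n : ℤ), z * t h ^ n ∈ Z' h ∧ φ h (z * t h ^ n) = 0)
    (hgA : ∀ h, ∀ z ∈ Z' h, φ h z = 0 → g h * z * (g h)⁻¹ ∈ A)
    (hsup : ∀ G' : Subgroup Γ', A ≤ G' → (∀ h, g h * t h * (g h)⁻¹ ∈ G') → G' = ⊤)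
    (hE : ∀ i, ∀ y, j y ∈ E i → kk i * y * (kk i)⁻¹ ∈ A) (hEP : ∀ i, E i ≤ P)
    (hext : ∀ (R : Type) [CommRing R] [Algebra (ZMod 2) R]
      (σ : A →* SpecialLinearGroup (Fin 2) R) (τ : H → SpecialLinearGroup (Fin 2) R),
      (∀ h, ∀ z ∈ Z' h, φ h z = 0 → ∀ a : A, (a : Γ') = g h * z * (g h)⁻¹ →
        σ a * τ h = τ h * σ a) →
      ∃ S : Γ' →* SpecialLinearGroup (Fin 2) R, (∀ a : A, S a = σ a) ∧
        ∀ h, S (g h * t h * (g h)⁻¹) = τ h) :
    Nonempty (LineOut P Z N E) := by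
  classical
  have hjm : ∀ y, j y ∈ P := fun y => (hjP _).2 ⟨y, rfl⟩
  refine ⟨{ A := A.map j, g := fun h => j (g h), t := fun h => j (t h), k := fun i => j (kk i),
            le := ?_, fg := ?_, gP := fun h => hjm _, tZ := fun h => (hZ' h _).1 (ht h).1,
            kP := fun i => hjm _, dec := ?_, NA := ?_, EA := ?_, sup := ?_, ext := ?_ }⟩
  · rintro _ ⟨y, -, rfl⟩
    exact hjm y
  · obtain ⟨S, hS⟩ := hA
    refine ⟨S.image j, ?_⟩
    rw [Finset.coe_image, ← MonoidHom.map_closure, hS]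
  · intro h z hz
    obtain ⟨y, rfl⟩ := (hjP z).1 (hZP h hz)
    obtain ⟨n, h1, h2⟩ := (ht h).2 y ((hZ' h y).2 hz)
    refine ⟨n, ?_⟩
    rw [← map_zpow, ← map_mul]
    exact (hN h _ h1).2 h2
  · intro h z hz
    obtain ⟨y, rfl⟩ := (hjP z).1 (hZP h (hNZ h hz))
    have h1 : y ∈ Z' h := (hZ' h y).2 (hNZ h hz)
    refine ⟨g h * y * (g h)⁻¹, hgA h y h1 ((hN h y h1).1 hz), ?_⟩
    rw [map_mul, map_mul, map_inv]
  · intro i z hz
    obtain ⟨y, rfl⟩ := (hjP z).1 (hEP i hz)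
    refine ⟨kk i * y * (kk i)⁻¹, hE i y hz, ?_⟩
    rw [map_mul, map_mul, map_inv]
  · intro P' h1 h2
    have h3 := hsup (P'.comap j) (fun a ha => h1 ⟨a, ha, rfl⟩) (fun h => by
      show j (g h * t h * (g h)⁻¹) ∈ P'
      rw [map_mul, map_mul, map_inv]
      exact h2 h)
    intro x hx
    obtain ⟨y, rfl⟩ := (hjP x).1 hx
    have h4 : y ∈ P'.comap j := by rw [h3]; trivial
    exact h4
  · intro R _ _ r τ hr hτ
    let σ : A →* SpecialLinearGroup (Fin 2) R :=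
      MonoidHom.mk' (fun a => r (j a)) (by
        intro a b
        show r (j (a * b : A)) = r (j a) * r (j b)
        rw [← hr _ ⟨a, a.2, rfl⟩ _ ⟨b, b.2, rfl⟩, Subgroup.coe_mul, map_mul])
    obtain ⟨S, hS1, hS2⟩ := hext R σ τ (by
      intro h z hz hz0 a ha
      show r (j a) * τ h = τ h * r (j a)
      have h1 : j z ∈ N h := (hN h z hz).2 hz0
      have h2 := hτ h (j z) h1
      have h3 : j (a : Γ') = j (g h) * j z * (j (g h))⁻¹ := by
        rw [ha, map_mul, map_mul, map_inv]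
      rw [h3]
      exact h2)
    have hq : ∀ y, (if h : ∃ y', j y' = j y then S h.choose else 1) = S y := by
      intro y
      have h : ∃ y', j y' = j y := ⟨y, rfl⟩
      rw [dif_pos h, hj h.choose_spec]
    refine ⟨fun x => if h : ∃ y', j y' = x then S h.choose else 1, ?_, ?_, ?_⟩
    · intro a ha b hb
      obtain ⟨a, rfl⟩ := (hjP a).1 ha
      obtain ⟨b, rfl⟩ := (hjP b).1 hb
      show (if h : ∃ y', j y' = j a * j b then S h.choose else 1) = _
      rw [← map_mul, hq, map_mul]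
      show S a * S b = (if h : ∃ y', j y' = j a then S h.choose else 1) *
        (if h : ∃ y', j y' = j b then S h.choose else 1)
      rw [hq, hq]
    · rintro _ ⟨a, ha, rfl⟩
      show (if h : ∃ y', j y' = j a then S h.choose else 1) = _
      rw [hq]
      exact hS1 ⟨a, ha⟩
    · intro h
      show (if h' : ∃ y', j y' = j (g h) * j (t h) * (j (g h))⁻¹ then S h'.choose else 1) = _
      rw [← map_inv, ← map_mul, ← map_mul, hq]
      exact hS2 h

end Pool.Agent.FrC2
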