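import Pool.Agent.Lib.MP_305fdd_al.Fr.C2.Ends

/-!
# MP_305fdd_al, F_r, Case 2: the star refinement built from the output of the LINE theorem
-/

set_option autoImplicit false
set_option linter.unusedSectionVars false
set_option linter.unusedVariables false

namespace Pool.Agent.FrCB

open Pool.Agent.FrC2 Pool.Agent.FrS Pool.Agent.FrR
open Matrix (SpecialLinearGroup)

section Build

variable {Γ Ω : Type} [Group Γ] [Field Ω] {S : GG Γ} {r : Γ →* SpecialLinearGroup (Fin 2) Ω}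
  {x : RV Ω} {Nn : HH S r x → Subgroup Γ}

/-- outputs of the LINE theorem at all nonabelian vertices -/
abbrev LOs (S : GG Γ) (r : Γ →* SpecialLinearGroup (Fin 2) Ω) (x : RV Ω)
    (Nn : HH S r x → Subgroup Γ) : Type :=
  ∀ v, S.NA v → LineOut (S.G v) (fun h : {h : HH S r x // pv h = v} => eZ S (rp h.1).1)
    (fun h => Nn h.1) (fun i : {p : S.E × Bool // eV S p = v ∧ ¬ HyE S r x p.1} => eC S i.1)

open Classical in
/-- the groups of the old vertices in the star refinement -/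
noncomputable def AA (LO : LOs S r x Nn) (v : S.V) : Subgroup Γ :=
  if hv : S.NA v then (LO v hv).A else S.G v

theorem AA_pos (LO : LOs S r x Nn) {v : S.V} (hv : S.NA v) : AA LO v = (LO v hv).A := dif_pos hv

theorem AA_neg (LO : LOs S r x Nn) {v : S.V} (hv : ¬ S.NA v) : AA LO v = S.G v := dif_neg hv

theorem exists_att (h : Ctx S r x) (LO : LOs S r x Nn) (p : S.E × Bool) :
    ∃ (o : Option (HH S r x)) (k : Γ), k ∈ S.G (eV S p) ∧ (∀ h, o = some h → pv h = eV S p) ∧
      (∀ c ∈ eC S p, k⁻¹ * c * k ∈ o.elim (AA LO (eV S p)) (fun h => eZ S (rp h).1)) ∧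
      (S.NA (eV S p) → HyE S r x p.1 → o ≠ none) := by
  by_cases hv : S.NA (eV S p)
  · by_cases hy : HyE S r x p.1
    · obtain ⟨h1, g, hg, h2⟩ := rp_cl (S := S) (r := r) (x := x) ⟨p, hv, hy⟩
      refine ⟨some (cl ⟨p, hv, hy⟩), g⁻¹, ?_, ?_, ?_, fun _ _ => Option.some_ne_none _⟩
      · have h3 : eV S (rp (cl (S := S) (r := r) (x := x) ⟨p, hv, hy⟩)).1 = eV S p := h1
        rw [h3] at hg
        exact inv_mem hg
      · rintro h' h3
        rw [← Option.some.inj h3]
        exact pv_cl _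
      · intro c hc
        rw [inv_inv]
        exact (h2 c).1 (eC_le_eZ h p hc)
    · refine ⟨none, ((LO (eV S p) hv).k ⟨p, rfl, hy⟩)⁻¹, inv_mem ((LO (eV S p) hv).kP _),
        ?_, ?_, fun _ h3 => absurd h3 hy⟩
      · intro h' h3
        exact absurd h3 (by simp)
      intro c hc
      rw [inv_inv]
      show _ ∈ AA LO (eV S p)
      rw [AA_pos LO hv]
      exact (LO (eV S p) hv).EA ⟨p, rfl, hy⟩ c hc
  · refine ⟨none, 1, one_mem _, ?_, ?_, fun h3 _ => absurd h3 hv⟩
    · intro h' h3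
      exact absurd h3 (by simp)
    intro c hc
    rw [inv_one, one_mul, mul_one]
    show _ ∈ AA LO (eV S p)
    rw [AA_neg LO hv]
    exact eC_le p hc

/-- the star refinement -/
noncomputable def mkStar (h : Ctx S r x) (LO : LOs S r x Nn)
    (hN : ∀ h, Nn h ≤ eZ S (rp h).1) (o : S.E × Bool → Option (HH S r x)) (k : S.E × Bool → Γ)
    (hk : ∀ p, k p ∈ S.G (eV S p)) (ho : ∀ p h, o p = some h → pv h = eV S p)
    (hc : ∀ p, ∀ c ∈ eC S p, (k p)⁻¹ * c * k p ∈
      (o p).elim (AA LO (eV S p)) (fun h => eZ S (rp h).1)) : Star S where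
  H := HH S r x
  fH := Fintype.ofFinite _
  dH := Classical.decEq _
  π := pv
  A := AA LO
  Z := fun h => eZ S (rp h).1
  N := Nn
  g := fun h => (LO (pv h) (pv_NA h)).g ⟨h, rfl⟩
  t := fun h => (LO (pv h) (pv_NA h)).t ⟨h, rfl⟩
  Ale := by
    intro v
    by_cases hv : S.NA v
    · rw [AA_pos LO hv]
      exact (LO v hv).le
    · rw [AA_neg LO hv]
  gG := fun h => (LO (pv h) (pv_NA h)).gP ⟨h, rfl⟩
  ZG := fun h => eZ_le _
  NZ := hN
  tZ := fun h => (LO (pv h) (pv_NA h)).tZ ⟨h, rfl⟩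
  comm := fun h' z hz => eZ_ab h _ _ ((LO (pv h') (pv_NA h')).tZ ⟨h', rfl⟩) _ (hN h' hz)
  dec := fun h z hz => (LO (pv h) (pv_NA h)).dec ⟨h, rfl⟩ z hz
  NA := by
    intro h z hz
    rw [AA_pos LO (pv_NA h)]
    exact (LO (pv h) (pv_NA h)).NA ⟨h, rfl⟩ z hz
  sup := by
    intro v P' hA ht
    by_cases hv : S.NA v
    · rw [AA_pos LO hv] at hA
      refine (LO v hv).sup P' hA ?_
      rintro ⟨h, rfl⟩
      exact ht h rfl
    · rw [AA_neg LO hv] at hA
      exact hA
  ext := by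
    intro v R _ _ r₀ τ hm hτ
    by_cases hv : S.NA v
    · rw [AA_pos LO hv] at hm ⊢
      obtain ⟨q, h1, h2, h3⟩ := (LO v hv).ext R r₀ (fun h => τ h.1) hm (by
        rintro ⟨h, rfl⟩ z hz
        exact hτ h rfl z hz)
      refine ⟨q, h1, h2, ?_⟩
      rintro h rfl
      exact h3 ⟨h, rfl⟩
    · rw [AA_neg LO hv] at hm ⊢
      refine ⟨r₀, hm, fun _ _ => rfl, ?_⟩
      rintro h rfl
      exact absurd (pv_NA h) hv
  oa := fun e => o (e, false)
  ob := fun e => o (e, true)
  ka := fun e => k (e, false)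
  kb := fun e => k (e, true)
  kaG := fun e => hk (e, false)
  kbG := fun e => hk (e, true)
  oaπ := fun e h => ho (e, false) h
  obπ := fun e h => ho (e, true) h
  ca := by
    intro e c hce
    refine hc (e, false) c ?_
    rw [mem_eC]
    show (1 : Γ) * c * 1⁻¹ ∈ S.C e
    rw [one_mul, inv_one, mul_one]
    exact hce
  cb := by
    intro e c hce
    refine hc (e, true) _ ?_
    rw [mem_eC]
    show S.s e * ((S.s e)⁻¹ * c * S.s e) * (S.s e)⁻¹ ∈ S.C e
    have h2 : S.s e * ((S.s e)⁻¹ * c * S.s e) * (S.s e)⁻¹ = c := by group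
    rw [h2]
    exact hce

end Build

end Pool.Agent.FrCB
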