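import Pool.Agent.Lib.MP_305fdd_al.Fr.X.GG
import Pool.Agent.Lib.MP_305fdd_al.Fr.S.Ctr

/-!
# MP_305fdd_al, F_r, Case 2: contraction of the hyperbolic edges and the contradiction

`Hy` is a property of elements of `Γ` (hyperbolic), invariant under conjugation and powers, such that
in every commutative subgroup the elements which do not have it form a subgroup.
-/

set_option autoImplicit false
set_option linter.unusedSectionVars false
set_option linter.unusedVariables false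

namespace Pool.Agent.FrCB

open Pool.Agent.FrS Pool.Agent.FrN

section

variable {Γ : Type} [Group Γ]

theorem fg_of_equiv {A B : Subgroup Γ} (hA : A.FG) (g : Γ)
    (h : ∀ x, x ∈ B ↔ g⁻¹ * x * g ∈ A) : B.FG := by
  have h1 : Group.FG A := (Group.fg_iff_subgroup_fg A).2 hA
  rw [← Group.fg_iff_subgroup_fg]
  let f : A →* B := MonoidHom.mk' (fun x => ⟨g * x * g⁻¹, by
    rw [h]
    have h2 : g⁻¹ * (g * (x : Γ) * g⁻¹) * g = x := by group
    rw [h2]
    exact x.2⟩) (by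
    intro x y
    apply Subtype.ext
    show g * ((x * y : A) : Γ) * g⁻¹ = (g * x * g⁻¹) * (g * y * g⁻¹)
    rw [Subgroup.coe_mul]
    group)
  refine Group.fg_of_surjective (f := f) ?_
  rintro ⟨y, hy⟩
  refine ⟨⟨g⁻¹ * y * g, (h y).1 hy⟩, ?_⟩
  apply Subtype.ext
  show g * (g⁻¹ * y * g) * g⁻¹ = y
  group

theorem ne_bot_of_equiv {A B : Subgroup Γ} (hA : A ≠ ⊥) (g : Γ)
    (h : ∀ x, x ∈ B ↔ g⁻¹ * x * g ∈ A) : B ≠ ⊥ := by
  intro hB
  apply hA
  rw [eq_bot_iff]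
  intro x hx
  have h1 : g * x * g⁻¹ ∈ B := by
    rw [h]
    have h2 : g⁻¹ * (g * (x : Γ) * g⁻¹) * g = x := by group
    rw [h2]
    exact hx
  rw [hB, Subgroup.mem_bot] at h1
  rw [Subgroup.mem_bot]
  have h3 : x = g⁻¹ * (g * x * g⁻¹) * g := by group
  rw [h3, h1]
  group

end

section Main

variable {b : ℕ} {Γ K F : Type} [Group Γ] [Field K] [Field F] [Algebra (ZMod 2) K]
    [Algebra (ZMod 2) F] [Algebra K F] {T : Γ → K}
    {ρ : Γ →* Matrix.SpecialLinearGroup (Fin 2) F}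

/-- commutative vertex -/
def AbV (S : GG Γ) (v : S.V) : Prop := ∀ x ∈ S.G v, ∀ y ∈ S.G v, x * y = y * x

/-- the properties of the hyperbolic elements -/
structure HyP (Hy : Γ → Prop) : Prop where
  one : ¬ Hy 1
  conj : ∀ g k, Hy g → Hy (k * g * k⁻¹)
  pow : ∀ g n, 0 < n → Hy g → Hy (g ^ (n : ℕ))
  sub : ∀ M : Subgroup Γ, (∀ x ∈ M, ∀ y ∈ M, x * y = y * x) →
    ∃ N : Subgroup Γ, ∀ m, m ∈ N ↔ m ∈ M ∧ ¬ Hy m

theorem HyP.conj_iff {Hy : Γ → Prop} (h : HyP Hy) (g k : Γ) : Hy (k * g * k⁻¹) ↔ Hy g := by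
  refine ⟨fun h1 => ?_, h.conj g k⟩
  have h2 := h.conj _ k⁻¹ h1
  have h3 : k⁻¹ * (k * g * k⁻¹) * k⁻¹⁻¹ = g := by group
  rwa [h3] at h2

/-- no edge is hyperbolic -/
theorem ctrb_base (h : HB 2 b Γ K F T ρ) (hinj : Function.Injective ρ)
    (hnc : ∃ y z : Γ, y * z ≠ z * y) {Hy : Γ → Prop} (hHy : HyP Hy) (S : GG Γ) (hS : S.UP)
    (hfgV : ∀ v, (S.G v).FG) (hfgE : ∀ e, (S.C e).FG) (hne : ∀ e, S.C e ≠ ⊥)
    (hno : ∀ e, ∀ c ∈ S.C e, ¬ Hy c) (v : S.V) (hv : AbV S v) (c : Γ) (hc : c ∈ S.G v)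
    (hcy : Hy c) : False := by
  obtain ⟨N, hN⟩ := hHy.sub (S.G v) hv
  have hedge : ∃ e, S.a e = v ∨ S.b e = v := by
    by_contra hno
    push Not at hno
    have key : ∀ {w g}, S.Pth v w g → w = v ∧ g ∈ S.G v := by
      intro w g hp
      induction hp with
      | one => exact ⟨rfl, one_mem _⟩
      | grp _ hy ih =>
        obtain ⟨h1, h2⟩ := ih
        subst h1
        exact ⟨rfl, mul_mem h2 hy⟩
      | fwd e _ ih => exact absurd ih.1 (hno e).1
      | bwd e _ ih => exact absurd ih.1 (hno e).2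
    obtain ⟨y, z, hyz⟩ := hnc
    exact hyz (hv y (key (hS.gen v v y)).2 z (key (hS.gen v v z)).2)
  have ha : ∀ e, S.a e = v → ∀ c ∈ S.C e, c ∈ N := by
    rintro e rfl c hc
    exact (hN c).2 ⟨S.Ca e hc, hno e c hc⟩
  have hb : ∀ e, S.b e = v → ∀ c ∈ S.C e, (S.s e)⁻¹ * c * S.s e ∈ N := by
    rintro e rfl c hc
    refine (hN _).2 ⟨S.Cb e c hc, fun h1 => hno e c hc ?_⟩
    rw [← hHy.conj_iff c (S.s e)⁻¹, inv_inv]
    exact h1
  have hρ : ∀ c : Γ, c ≠ 1 → ρ c ≠ 1 := fun c hc h1 => hc (hinj (by rw [h1, map_one]))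
  obtain ⟨m, hm, hm1⟩ : ∃ m ∈ N, ρ m ≠ 1 := by
    obtain ⟨e, he⟩ := hedge
    obtain ⟨⟨c, hc⟩, hc1⟩ := Subgroup.ne_bot_iff_exists_ne_one.1 (hne e)
    have hc2 : c ≠ 1 := fun h1 => hc1 (Subtype.ext h1)
    rcases he with he | he
    · exact ⟨c, ha e he c hc, hρ c hc2⟩
    · refine ⟨(S.s e)⁻¹ * c * S.s e, hb e he c hc, hρ _ fun h1 => hc2 ?_⟩
      have h2 : c = S.s e * ((S.s e)⁻¹ * c * S.s e) * (S.s e)⁻¹ := by group
      rw [h2, h1]
      group
  obtain ⟨_, h2⟩ := FrX.lemX_sub h S hS hfgV hfgE v hv N (fun m hm => ((hN m).1 hm).1) ha hb m hm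
    hm1
  obtain ⟨n, hn, h3⟩ := h2 c hc
  exact ((hN _).1 h3).2 (hHy.pow c n hn hcy)

/-- THEOREM: if all hyperbolic edges join commutative vertices, then no commutative vertex group
contains a hyperbolic element. -/
theorem ctrb (h : HB 2 b Γ K F T ρ) (hinj : Function.Injective ρ)
    (hnc : ∃ y z : Γ, y * z ≠ z * y)
    (hct : ∀ a b c : Γ, a ≠ 1 → a * b = b * a → a * c = c * a → b * c = c * b)
    (hcsa : ∀ a g : Γ, a ≠ 1 → a * (g * a * g⁻¹) = g * a * g⁻¹ * a → a * g = g * a)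
    {Hy : Γ → Prop} (hHy : HyP Hy) :
    ∀ (n : ℕ) (S : GG Γ), Nat.card S.E = n → S.UP → (∀ v, (S.G v).FG) → (∀ e, (S.C e).FG) →
      (∀ e, S.C e ≠ ⊥) → (∀ e, (∃ c ∈ S.C e, Hy c) → AbV S (S.a e) ∧ AbV S (S.b e)) →
      (∃ v, AbV S v ∧ ∃ c ∈ S.G v, Hy c) → False := by
  intro n
  induction n using Nat.strong_induction_on with
  | _ n ih =>
  intro S hn hS hfgV hfgE hne hH1 hH2
  by_cases hhy : ∃ e, ∃ c ∈ S.C e, Hy c
  swap
  · push Not at hhy
    obtain ⟨v, hv, c, hc, hcy⟩ := hH2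
    exact ctrb_base h hinj hnc hHy S hS hfgV hfgE hne hhy v hv c hc hcy
  obtain ⟨e0, c0, hc0, hcy0⟩ := hhy
  obtain ⟨haA, haB⟩ := hH1 e0 ⟨c0, hc0, hcy0⟩
  have hc1 : c0 ≠ 1 := by
    rintro rfl
    exact hHy.one hcy0
  have hcent : ∀ x ∈ Subgroup.centralizer {c0}, ∀ y ∈ Subgroup.centralizer {c0},
      x * y = y * x := by
    intro x hx y hy
    rw [Subgroup.mem_centralizer_singleton_iff] at hx hy
    exact hct c0 x y hc1 hx.symm hy.symm
  have hGa : S.G (S.a e0) ≤ Subgroup.centralizer {c0} := by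
    intro x hx
    rw [Subgroup.mem_centralizer_singleton_iff]
    exact (haA _ (S.Ca e0 hc0) _ hx).symm
  have hlt : Nat.card {e : S.E // e ≠ e0} < n := by
    rw [← hn]
    exact Finite.card_subtype_lt (x := e0) (by simp)
  by_cases h0 : S.a e0 = S.b e0
  · -- a loop
    have h0' : S.b e0 = S.a e0 := h0.symm
    have hs : S.s e0 ∈ Subgroup.centralizer {c0} := by
      rw [Subgroup.mem_centralizer_singleton_iff]
      have h1 := S.Cb e0 c0 hc0
      rw [h0'] at h1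
      have h2 := haA _ (S.Ca e0 hc0) _ h1
      have h3 := hcsa c0 (S.s e0)⁻¹ hc1 (by rw [inv_inv]; exact h2)
      have h4 : c0 * S.s e0 = S.s e0 * ((S.s e0)⁻¹ * c0) * S.s e0 := by group
      rw [h4, ← h3]
      group
    have hAb : ∀ w, AbV S w → AbV (S.ctrL e0) (S.lV e0 w) := by
      intro w hw
      by_cases hwa : w = S.a e0
      · subst hwa
        intro x hx y hy
        rw [GG.ctrL_G_a] at hx hy
        have hle : S.G (S.a e0) ⊔ Subgroup.zpowers (S.s e0) ≤ Subgroup.centralizer {c0} :=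
          sup_le hGa (by rw [Subgroup.zpowers_le]; exact hs)
        exact hcent _ (hle hx) _ (hle hy)
      · intro x hx y hy
        rw [GG.ctrL_G_ne _ _ hwa] at hx hy
        exact hw x hx y hy
    refine ih _ hlt (S.ctrL e0) rfl (S.ctrL_up e0 h0' hS) ?_ ?_ ?_ ?_ ?_
    · intro w'
      obtain ⟨w, rfl⟩ : ∃ w, S.lV e0 w = w' := ⟨_, S.lV_lW e0 w'⟩
      by_cases hwa : w = S.a e0
      · subst hwa
        rw [GG.ctrL_G_a]
        refine Subgroup.FG.sup (hfgV _) ?_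
        exact (Subgroup.fg_iff _).2 ⟨{S.s e0}, by rw [Subgroup.zpowers_eq_closure],
          Set.finite_singleton _⟩
      · rw [GG.ctrL_G_ne _ _ hwa]
        exact hfgV _
    · intro e
      rw [GG.ctrL_C]
      exact hfgE _
    · intro e
      rw [GG.ctrL_C]
      exact hne _
    · rintro e ⟨c, hc, hcy⟩
      rw [GG.ctrL_C] at hc
      obtain ⟨h1, h2⟩ := hH1 _ ⟨c, hc, hcy⟩
      rw [GG.ctrL_a, GG.ctrL_b]
      exact ⟨hAb _ h1, hAb _ h2⟩
    · exact ⟨S.lV e0 (S.a e0), hAb _ haA, c0, S.le_ctrL_G e0 _ (S.Ca e0 hc0), hcy0⟩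
  · -- different ends
    have hGb : (S.G (S.b e0)).comap (MulAut.conj (S.s e0)⁻¹).toMonoidHom ≤
        Subgroup.centralizer {c0} := by
      intro x hx
      have hx' : (S.s e0)⁻¹ * x * (S.s e0)⁻¹⁻¹ ∈ S.G (S.b e0) := hx
      rw [inv_inv] at hx'
      rw [Subgroup.mem_centralizer_singleton_iff]
      have h1 := haB _ (S.Cb e0 c0 hc0) _ hx'
      have h2 : c0 * x = S.s e0 * (((S.s e0)⁻¹ * c0 * S.s e0) * ((S.s e0)⁻¹ * x * S.s e0)) *
        (S.s e0)⁻¹ := by group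
      rw [h2, h1]
      group
    have hsup : S.G (S.a e0) ⊔ (S.G (S.b e0)).comap (MulAut.conj (S.s e0)⁻¹).toMonoidHom ≤
        Subgroup.centralizer {c0} := sup_le hGa hGb
    have hAb : ∀ w, AbV S w → AbV (S.ctr e0 h0) (S.cφ e0 h0 w) := by
      intro w hw x hx y hy
      by_cases hwb : w = S.b e0
      · subst hwb
        rw [GG.ctr_G_b] at hx hy
        exact hcent _ (hsup hx) _ (hsup hy)
      · by_cases hwa : w = S.a e0
        · subst hwa
          rw [GG.ctr_G_a] at hx hy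
          exact hcent _ (hsup hx) _ (hsup hy)
        · rw [GG.ctr_G_ne _ _ _ hwa hwb] at hx hy
          exact hw x hx y hy
    refine ih _ hlt (S.ctr e0 h0) rfl (S.ctr_up e0 h0 hS) ?_ ?_ ?_ ?_ ?_
    · intro w'
      obtain ⟨w, rfl⟩ : ∃ w, S.cφ e0 h0 w = w' := ⟨_, S.cφ_cσ e0 h0 w'⟩
      have hsupfg : (S.G (S.a e0) ⊔
          (S.G (S.b e0)).comap (MulAut.conj (S.s e0)⁻¹).toMonoidHom).FG := by
        refine Subgroup.FG.sup (hfgV _) (fg_of_equiv (hfgV (S.b e0)) (S.s e0) ?_)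
        intro x
        show (S.s e0)⁻¹ * x * (S.s e0)⁻¹⁻¹ ∈ S.G (S.b e0) ↔ _
        rw [inv_inv]
      by_cases hwb : w = S.b e0
      · subst hwb
        rw [GG.ctr_G_b]
        exact hsupfg
      · by_cases hwa : w = S.a e0
        · subst hwa
          rw [GG.ctr_G_a]
          exact hsupfg
        · rw [GG.ctr_G_ne _ _ _ hwa hwb]
          exact hfgV _
    · intro e
      exact fg_of_equiv (hfgE _) _ fun x => S.mem_ctr_C e0 h0 e x
    · intro e
      exact ne_bot_of_equiv (hne _) _ fun x => S.mem_ctr_C e0 h0 e x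
    · rintro e ⟨c, hc, hcy⟩
      rw [GG.mem_ctr_C] at hc
      obtain ⟨h1, h2⟩ := hH1 _ ⟨_, hc, by
        rw [← hHy.conj_iff c (S.cτ e0 (S.a (S.cF e0 h0 e)))⁻¹, inv_inv] at hcy
        exact hcy⟩
      rw [GG.ctr_a, GG.ctr_b]
      exact ⟨hAb _ h1, hAb _ h2⟩
    · refine ⟨S.cφ e0 h0 (S.a e0), hAb _ haA, c0, ?_, hcy0⟩
      rw [GG.ctr_G_a]
      exact (le_sup_left : S.G (S.a e0) ≤ _) (S.Ca e0 hc0)

end Main

end Pool.Agent.FrCB
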