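import Pool.Agent.Lib.MP_305fdd_al.Fr.C2.Build
import Pool.Agent.Lib.MP_305fdd_al.Fr.C2.Ctrb
import Pool.Agent.Lib.MP_305fdd_al.Fr.Roq.Main

/-!
# MP_305fdd_al, F_r, Case 2 (Case B): a real valuation which is not trivial on the edge groups

Theorem `caseB`: from the LINE theorem and Lemma X to the contradiction.
-/

set_option autoImplicit false
set_option linter.unusedSectionVars false
set_option linter.unusedVariables false

namespace Pool.Agent.FrCB

open Pool.Agent.FrC2 Pool.Agent.FrS Pool.Agent.FrR Pool.Agent.FrN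
open Matrix (SpecialLinearGroup)

section Hy

variable {Γ Ω : Type} [Group Γ] [Field Ω] [CharP Ω 2] {S : GG Γ}
  {r : Γ →* SpecialLinearGroup (Fin 2) Ω} {x : RV Ω}

/-- the hyperbolic elements -/
def HyG (r : Γ →* SpecialLinearGroup (Fin 2) Ω) (x : RV Ω) (g : Γ) : Prop :=
  x.v (FrR.tr (r g)) < 0

theorem hyG_one (r : Γ →* SpecialLinearGroup (Fin 2) Ω) (x : RV Ω) : ¬ HyG r x 1 := by
  have h := (Dg.one (r := r) (k := 1)).hy x
  unfold HyG
  rw [h, v_eg_one]
  simp

theorem hyP (h : Ctx S r x) (x' : RV Ω) : HyP (HyG r x') where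
  one := hyG_one r x'
  conj := by
    intro g k hg
    unfold HyG at hg ⊢
    rw [map_mul, map_mul, map_inv, FrR.tr_conj']
    exact hg
  pow := by
    intro g n hn hg
    have hg1 : g ≠ 1 := by
      rintro rfl
      exact hyG_one r x' hg
    obtain ⟨k, hk⟩ := h.basis g hg1
    have h1 := hk g rfl
    have h2 := h1.zpow (n : ℤ)
    rw [zpow_natCast] at h2
    unfold HyG at hg ⊢
    rw [h1.hy x'] at hg
    rw [h2.hy x']
    have h3 := h1.v_zpow x' (n : ℤ)
    rw [zpow_natCast] at h3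
    rw [h3]
    refine mul_ne_zero ?_ hg
    have : (n : ℤ) ≠ 0 := by omega
    exact_mod_cast this
  sub := by
    intro M hM
    by_cases hb : M = ⊥
    · refine ⟨⊥, fun m => ?_⟩
      rw [hb, Subgroup.mem_bot]
      constructor
      · rintro rfl
        exact ⟨rfl, hyG_one r x'⟩
      · exact fun h => h.1
    · obtain ⟨⟨c, hc⟩, hc1⟩ := Subgroup.ne_bot_iff_exists_ne_one.1 hb
      obtain ⟨k, hk⟩ := h.basis c (fun h1 => hc1 (Subtype.ext h1))
      have hD : ∀ z ∈ M, Dg r k z := fun z hz => hk z (hM z hz c hc)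
      refine ⟨kerV r k x' M hD, fun m => ?_⟩
      constructor
      · rintro ⟨h1, h2⟩
        refine ⟨h1, ?_⟩
        unfold HyG
        rw [(hD m h1).hy x', h2]
        simp
      · rintro ⟨h1, h2⟩
        refine ⟨h1, ?_⟩
        unfold HyG at h2
        rw [(hD m h1).hy x', not_not] at h2
        exact h2

end Hy

section Main

variable {b : ℕ} {Γ K F : Type} [Group Γ] [Field K] [Field F] [Algebra (ZMod 2) K]
    [Algebra (ZMod 2) F] [Algebra K F] {T : Γ → K}
    {ρ : Γ →* SpecialLinearGroup (Fin 2) F}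

/-- the field `F` is finitely generated -/
theorem exists_SF (h : HB 2 b Γ K F T ρ) :
    ∃ SF : Finset F, IntermediateField.adjoin (ZMod 2) (SF : Set F) = ⊤ := by
  obtain ⟨SF, hSF⟩ := FrRoq.OO_fg (p := 2) ρ h.fg
  refine ⟨SF, ?_⟩
  rw [eq_top_iff]
  intro z _
  have hle : ∀ a ∈ OO 2 ρ, a ∈ IntermediateField.adjoin (ZMod 2) (SF : Set F) := by
    intro a ha
    rw [← hSF] at ha
    exact IntermediateField.algebra_adjoin_le_adjoin _ _ ha
  obtain ⟨a, ha, c, hc, hc0, hac⟩ := h.fracF z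
  have h3 : z = a * c⁻¹ := by rw [← hac, mul_assoc, mul_inv_cancel₀ hc0, mul_one]
  rw [h3]
  exact mul_mem (hle a ha) (inv_mem (hle c hc))

/-- CASE B.  A real valuation which is semi-good on the vertex groups, not negative on the traces of the
cyclic edge groups, is not negative on the traces of all edge groups. -/
theorem caseB (hline : S_line) (h : HB 2 b Γ K F T ρ) (hinj : Function.Injective ρ)
    (hnc : ∃ y z : Γ, y * z ≠ z * y) (hT : ∀ g, (ρ g).1.trace = 0 → g = 1)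
    (S : GG Γ) (hS : S.UP) (hfgV : ∀ v, (S.G v).FG) (hfgE : ∀ e, (S.C e).FG)
    (hne : ∀ e, S.C e ≠ ⊥) (hab : ∀ e, ∀ y ∈ S.C e, ∀ z ∈ S.C e, y * z = z * y)
    (y : RV F) (hy : ∀ v, ∀ g ∈ S.G v, g ≠ 1 → y.v (FrR.tr (ρ g)) ≤ 0)
    (hcyc : ∀ e, (∃ z, S.C e = Subgroup.zpowers z) → ∀ c ∈ S.C e, 0 ≤ y.v (FrR.tr (ρ c)))
    (e0 : S.E) (c0 : Γ) (hc0 : c0 ∈ S.C e0) (h0 : y.v (FrR.tr (ρ c0)) < 0) : False := by
  classical
  -- the algebraic closure
  let Ω := AlgebraicClosure F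
  haveI : CharP Ω 2 := charTwo_of_alg Ω
  haveI : CharP F 2 := charTwo_of_alg F
  obtain ⟨xv, hxv, hxa⟩ := FrP.exists_ext (F := F) (E := Ω) y.isV
  let x : RV Ω := ⟨xv, hxv⟩
  let i : F →+* Ω := algebraMap F Ω
  have hi : Function.Injective i := i.injective
  let r : Γ →* SpecialLinearGroup (Fin 2) Ω := bc i ρ
  have htr : ∀ g, FrR.tr (r g) = i (FrR.tr (ρ g)) := by
    intro g
    show i ((ρ g).1 0 0) + i ((ρ g).1 1 1) = i ((ρ g).1 0 0 + (ρ g).1 1 1)
    rw [map_add]
  have hxtr : ∀ g, x.v (FrR.tr (r g)) = y.v (FrR.tr (ρ g)) := by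
    intro g
    rw [htr]
    exact hxa _
  have hTr : ∀ g, FrR.tr (ρ g) = 0 → g = 1 := by
    intro g hg
    apply hT
    rw [Matrix.trace_fin_two]
    exact hg
  -- properties (S4), (S5)
  have hSG : SG (⟨fun _ => 0, ⟨rfl, fun _ _ _ _ => by simp, fun _ _ _ _ _ => by simp⟩⟩ : RV F)
      ρ.range := by
    have h2 : (2 : F) = 0 := CharTwo.two_eq_zero (R := F)
    have h3 : ∀ g ∈ ρ.range, g ≠ 1 → FrR.tr g ≠ 0 := by
      rintro _ ⟨g, rfl⟩ hg h4
      apply hg
      rw [hTr g h4, map_one]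
    refine ⟨fun g hg h1 => ?_, fun g hg h1 => ?_, fun g hg h1 => ?_⟩
    · rw [h2, sub_zero]; exact ⟨h3 g hg h1, le_rfl⟩
    · rw [h2, add_zero]; exact ⟨h3 g hg h1, le_rfl⟩
    · exact ⟨h3 g hg h1, le_rfl⟩
  have hne1 : ∀ a : Γ, a ≠ 1 → ρ a ≠ 1 := fun a ha h1 => ha (hinj (by rw [h1, map_one]))
  have hct : ∀ a b c : Γ, a ≠ 1 → a * b = b * a → a * c = c * a → b * c = c * b := by
    intro a b c ha hab hac
    apply hinj
    rw [map_mul, map_mul]
    refine hSG.ct (a := ρ a) ⟨a, rfl⟩ (hne1 a ha) ?_ ?_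
    · rw [← map_mul, hab, map_mul]
    · rw [← map_mul, hac, map_mul]
  have hcsa : ∀ a g : Γ, a ≠ 1 → a * (g * a * g⁻¹) = g * a * g⁻¹ * a → a * g = g * a := by
    intro a g ha hag
    apply hinj
    rw [map_mul, map_mul]
    refine hSG.csa (a := ρ a) (g := ρ g) ⟨a, rfl⟩ (hne1 a ha) ⟨g, rfl⟩ ?_
    have h1 := congrArg ρ hag
    simpa only [map_mul, map_inv] using h1
  -- the context
  have hctx : Ctx S r x := by
    refine ⟨?_, hct, hfgV, hfgE, hne, hab, ?_, ?_, ?_, ?_⟩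
    · intro g g' hgg
      apply hinj
      apply Subtype.ext
      ext a c
      have h1 := congrFun (congrFun (congrArg Subtype.val hgg) a) c
      exact hi h1
    · intro v g hg hg1
      refine ⟨?_, ?_⟩
      · rw [htr]
        intro h1
        exact hg1 (hTr g (hi (by rw [h1, map_zero])))
      · rw [hxtr]
        exact hy v g hg hg1
    · intro c hc
      exact exists_basis i hT c hc
    · intro M hM
      exact FrRoq.comm_fg ρ h.fg hT M hM
    · rintro e ⟨c, hc, hcv⟩ hz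
      rw [hxtr] at hcv
      exact absurd hcv (not_lt.2 (hcyc e hz c hc))
  obtain ⟨kb, hkb⟩ := exists_kb hctx
  -- the LINE theorem at all nonabelian vertices
  have hL : ∀ v, ∃ (A₁ : Finset Ω) (F₁ E₁ : Finset ℝ), (∀ t ∈ F₁, 0 < t) ∧
      ∀ (L₀ : ℝ →+ ℚ), (∀ t ∈ F₁, 0 < L₀ t) → (∀ t ∈ E₁, t ∈ FrZ.Lam L₀) →
      ∀ (x' : RV Ω), (∀ a ∈ A₁, x'.v a = (L₀ (x.v a) : ℝ)) →
        (∀ (h : {h : HH S r x // pv h = v}), ∀ z ∈ eZ S (rp h.1).1,
          x'.v (eg r (kb (rp h.1).1) z) = (L₀ (x.v (eg r (kb (rp h.1).1) z)) : ℝ)) ∧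
        ∀ N : {h : HH S r x // pv h = v} → Subgroup Γ,
          (∀ h z, z ∈ N h ↔ z ∈ eZ S (rp h.1).1 ∧ x'.v (eg r (kb (rp h.1).1) z) = 0) →
          Nonempty (LineOut (S.G v) (fun h : {h : HH S r x // pv h = v} => eZ S (rp h.1).1) N
            (fun i : {p : S.E × Bool // eV S p = v ∧ ¬ HyE S r x p.1} => eC S i.1)) :=
    fun v => hline Γ Ω {h : HH S r x // pv h = v} {p : S.E × Bool // eV S p = v ∧ ¬ HyE S r x p.1}
      r x (S.G v) _ _ _ (lineIn hctx hkb v)
  choose A₁ F₁ E₁ hF₁ hline' using hL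
  -- generators of the edge groups
  have hgen : ∀ e, ∃ G : Finset Γ, Subgroup.closure (G : Set Γ) = S.C e := fun e => hfgE e
  choose G hG using hgen
  have hCe : ∀ e, ∀ c ∈ S.C e, c ∈ eC S (e, false) := by
    intro e c hc
    rw [mem_eC]
    show (1 : Γ) * c * 1⁻¹ ∈ S.C e
    rw [one_mul, inv_one, mul_one]
    exact hc
  have hDC : ∀ e, ∀ c ∈ S.C e, Dg r (kb (e, false)) c := fun e c hc =>
    hkb _ c (eC_le_eZ hctx _ (hCe e c hc))
  let B : Finset Ω := Finset.univ.biUnion fun e => (G e).image fun c => eg r (kb (e, false)) c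
  have hB : ∀ e, ∀ c ∈ G e, eg r (kb (e, false)) c ∈ B := fun e c hc =>
    Finset.mem_biUnion.2 ⟨e, Finset.mem_univ _, Finset.mem_image_of_mem _ hc⟩
  let A : Finset Ω := (Finset.univ.biUnion A₁) ∪ B
  obtain ⟨SF, hSF⟩ := exists_SF h
  obtain ⟨F0, hF0, happ⟩ := approx_alg (F := F) (Ω := Ω) SF hSF x A
  let FF : Finset ℝ := (F0 ∪ Finset.univ.biUnion F₁) ∪ (B.image fun t => |x.v t|).filter (0 < ·)
  let EE : Finset ℝ := Finset.univ.biUnion E₁
  obtain ⟨L, hLF, hLE⟩ := FrZ.exists_L FF EE (by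
    intro t ht
    rcases Finset.mem_union.1 ht with ht | ht
    · rcases Finset.mem_union.1 ht with ht | ht
      · exact hF0 t ht
      · obtain ⟨v, _, hv⟩ := Finset.mem_biUnion.1 ht
        exact hF₁ v t hv
    · exact (Finset.mem_filter.1 ht).2)
  obtain ⟨x', N, hN, hx'⟩ := happ L (fun t ht =>
    hLF t (Finset.mem_union_left _ (Finset.mem_union_left _ ht)))
  let L' : ℝ →+ ℚ := (AddMonoidHom.mulLeft (N : ℚ)).comp L
  have hL' : ∀ t, L' t = (N : ℚ) * L t := fun t => rfl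
  have hNq : (0 : ℚ) < N := by exact_mod_cast hN
  have hpos : ∀ t ∈ FF, 0 < L' t := fun t ht => by
    rw [hL']
    exact mul_pos hNq (hLF t ht)
  have hLam : ∀ t ∈ EE, t ∈ FrZ.Lam L' := by
    intro t ht
    obtain ⟨n, hn⟩ := hLE t ht
    refine ⟨N * n, ?_⟩
    rw [hL', hn]
    push_cast
    ring
  have hx'A : ∀ a ∈ A, x'.v a = (L' (x.v a) : ℝ) := fun a ha => hx' a ha
  -- the output at all nonabelian vertices
  have hDh : ∀ h : HH S r x, ∀ z ∈ eZ S (rp h).1, Dg r (kb (rp h).1) z := fun h => hkb _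
  let Nn : HH S r x → Subgroup Γ := fun h => kerV r (kb (rp h).1) x' (eZ S (rp h).1) (hDh h)
  have hout : ∀ v, Nonempty (LineOut (S.G v)
      (fun h : {h : HH S r x // pv h = v} => eZ S (rp h.1).1) (fun h => Nn h.1)
      (fun i : {p : S.E × Bool // eV S p = v ∧ ¬ HyE S r x p.1} => eC S i.1)) := by
    intro v
    refine (hline' v L' (fun t ht => hpos t ?_) (fun t ht => hLam t ?_) x' (fun a ha =>
      hx'A a ?_)).2 _ (fun h z => Iff.rfl)
    · exact Finset.mem_union_left _ (Finset.mem_union_right _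
        (Finset.mem_biUnion.2 ⟨v, Finset.mem_univ _, ht⟩))
    · exact Finset.mem_biUnion.2 ⟨v, Finset.mem_univ _, ht⟩
    · exact Finset.mem_union_left _ (Finset.mem_biUnion.2 ⟨v, Finset.mem_univ _, ha⟩)
  let LO : LOs S r x Nn := fun v _ => Classical.choice (hout v)
  have hNle : ∀ h, Nn h ≤ eZ S (rp h).1 := fun h z hz => hz.1
  have hatt := exists_att hctx LO
  choose o k hk ho hc hon using hatt
  let D : Star S := mkStar hctx LO hNle o k hk ho hc
  -- elliptic and hyperbolic edges for the new valuation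
  have hell : ∀ e, ¬ HyE S r x e → ∀ c ∈ S.C e, ¬ HyG r x' c := by
    intro e he
    have h1 : ∀ c ∈ S.C e, x.v (eg r (kb (e, false)) c) = 0 := by
      intro c hce
      by_contra h2
      exact he ⟨c, hce, ((hDC e c hce).hy x).2 h2⟩
    have h2 : S.C e ≤ kerV r (kb (e, false)) x' (S.C e) (hDC e) := by
      conv_lhs => rw [← hG e]
      rw [Subgroup.closure_le]
      intro c hcG
      have hce : c ∈ S.C e := by rw [← hG e]; exact Subgroup.subset_closure hcG
      refine ⟨hce, ?_⟩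
      rw [hx'A _ (Finset.mem_union_right _ (hB e c hcG)), h1 c hce, map_zero, Rat.cast_zero]
    intro c hce h3
    exact ((hDC e c hce).hy x').1 h3 (h2 hce).2
  have hhyp : ∀ e, HyE S r x e → ∃ c ∈ S.C e, HyG r x' c := by
    rintro e ⟨c, hce, hcv⟩
    have h1 : ∃ d ∈ G e, x.v (eg r (kb (e, false)) d) ≠ 0 := by
      by_contra hcon
      push Not at hcon
      have h2 : S.C e ≤ kerV r (kb (e, false)) x (S.C e) (hDC e) := by
        conv_lhs => rw [← hG e]
        rw [Subgroup.closure_le]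
        intro d hd
        exact ⟨by rw [← hG e]; exact Subgroup.subset_closure hd, hcon d hd⟩
      exact ((hDC e c hce).hy x).1 hcv (h2 hce).2
    obtain ⟨d, hd, hdv⟩ := h1
    have hde : d ∈ S.C e := by rw [← hG e]; exact Subgroup.subset_closure hd
    refine ⟨d, hde, ((hDC e d hde).hy x').2 ?_⟩
    rw [hx'A _ (Finset.mem_union_right _ (hB e d hd))]
    have h3 : 0 < L' |x.v (eg r (kb (e, false)) d)| := by
      apply hpos
      refine Finset.mem_union_right _ (Finset.mem_filter.2 ⟨Finset.mem_image_of_mem _ (hB e d hd),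
        abs_pos.2 hdv⟩)
    intro h4
    have h5 : L' (x.v (eg r (kb (e, false)) d)) = 0 := by exact_mod_cast h4
    rcases abs_choice (x.v (eg r (kb (e, false)) d)) with h6 | h6
    · rw [h6, h5] at h3
      exact lt_irrefl _ h3
    · rw [h6, map_neg, h5, neg_zero] at h3
      exact lt_irrefl _ h3
  -- `N h ≠ 1`
  have hNne : ∀ h : HH S r x, Nn h ≠ ⊥ := by
    intro h' hbot
    have hLI := lineIn hctx hkb (pv h')
    obtain ⟨z1, hz1, hz1v⟩ := hLI.hyp ⟨h', rfl⟩
    let LO' := LO (pv h') (pv_NA h')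
    have hpow : ∀ z ∈ eZ S (rp h').1, ∃ n : ℤ, z = (LO'.t ⟨h', rfl⟩) ^ n := by
      intro z hz
      obtain ⟨n, hn⟩ := LO'.dec ⟨h', rfl⟩ z hz
      have h1 : z * (LO'.t ⟨h', rfl⟩) ^ n ∈ Nn h' := hn
      rw [hbot, Subgroup.mem_bot] at h1
      refine ⟨-n, ?_⟩
      rw [zpow_neg]
      exact eq_inv_of_mul_eq_one_left h1
    have htZ : LO'.t ⟨h', rfl⟩ ∈ eZ S (rp h').1 := LO'.tZ ⟨h', rfl⟩
    have hDt := hDh h' _ htZ
    have htv : x.v (eg r (kb (rp h').1) (LO'.t ⟨h', rfl⟩)) ≠ 0 := by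
      intro h1
      obtain ⟨n, hn⟩ := hpow z1 hz1
      apply hz1v
      show x.v (eg r (kb (rp h').1) z1) = 0
      rw [hn, hDt.v_zpow, h1, mul_zero]
    obtain ⟨z, hz, hz1, hzv⟩ := hLI.small ⟨h', rfl⟩ _ (abs_pos.2 htv)
    obtain ⟨n, hn⟩ := hpow z hz
    have h1 : |x.v (eg r (kb (rp h').1) z)| < |x.v (eg r (kb (rp h').1) (LO'.t ⟨h', rfl⟩))| := hzv
    rw [hn, hDt.v_zpow, abs_mul] at h1
    have h2 : |(n : ℝ)| < 1 := by
      by_contra h3
      rw [not_lt] at h3
      have h4 := mul_le_mul_of_nonneg_right h3 (abs_nonneg (x.v (eg r (kb (rp h').1)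
        (LO'.t ⟨h', rfl⟩))))
      rw [one_mul] at h4
      exact absurd h1 (not_lt.2 h4)
    have h3 : n = 0 := by
      have h4 : |n| < 1 := by exact_mod_cast h2
      rw [abs_lt] at h4
      omega
    rw [h3, zpow_zero] at hn
    exact hz1 hn
  -- vertex groups where hyperbolic ends are attached are commutative
  have hattAb : ∀ p : S.E × Bool, HyE S r x p.1 → AbV D.gg (D.att (eV S p) (o p)) := by
    intro p hp
    rcases hop : o p with _ | h'
    · have hv : ¬ S.NA (eV S p) := fun hv => hon p hv hp hop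
      intro a ha c hc
      have ha' : a ∈ AA LO (eV S p) := ha
      have hc' : c ∈ AA LO (eV S p) := hc
      rw [AA_neg LO hv] at ha' hc'
      unfold GG.NA at hv
      rw [not_not] at hv
      exact hv a ha' c hc'
    · intro a ha c hc
      exact eZ_ab hctx _ a ha c hc
  refine ctrb h hinj hnc hct hcsa (hyP hctx x') (Nat.card D.gg.E) D.gg rfl (D.up hS) ?_ ?_ ?_ ?_ ?_
  · rintro (v | h')
    · show (AA LO v).FG
      by_cases hv : S.NA v
      · rw [AA_pos LO hv]
        exact (LO v hv).fg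
      · rw [AA_neg LO hv]
        exact hfgV v
    · exact hctx.cfg _ (eZ_ab hctx _)
  · rintro (e | h')
    · refine fg_of_equiv (hfgE e) (k (e, false))⁻¹ fun z => ?_
      rw [inv_inv]
      rfl
    · have h1 : (Nn h').FG := hctx.cfg _ fun a ha c hc =>
        eZ_ab hctx _ a (hNle h' ha) c (hNle h' hc)
      refine fg_of_equiv h1 (D.g h') fun z => ?_
      show (D.g h')⁻¹ * z * (D.g h')⁻¹⁻¹ ∈ Nn h' ↔ _
      rw [inv_inv]
  · rintro (e | h')
    · refine ne_bot_of_equiv (hne e) (k (e, false))⁻¹ fun z => ?_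
      rw [inv_inv]
      rfl
    · refine ne_bot_of_equiv (hNne h') (D.g h') fun z => ?_
      show (D.g h')⁻¹ * z * (D.g h')⁻¹⁻¹ ∈ Nn h' ↔ _
      rw [inv_inv]
  · rintro (e | h') ⟨c, hcC, hcy⟩
    · have hcC' : k (e, false) * c * (k (e, false))⁻¹ ∈ S.C e := hcC
      have hey : HyE S r x e := by
        by_contra he
        apply hell e he _ hcC'
        exact (hyP hctx x').conj _ _ hcy
      exact ⟨hattAb (e, false) hey, hattAb (e, true) hey⟩
    · exfalso
      have hcC' : (D.g h')⁻¹ * c * (D.g h')⁻¹⁻¹ ∈ Nn h' := hcC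
      have h1 := (hyP hctx x').conj _ (D.g h')⁻¹ hcy
      exact ((hDh h' _ hcC'.1).hy x').1 h1 hcC'.2
  · have hey : HyE S r x e0 := ⟨c0, hc0, by rw [hxtr]; exact h0⟩
    obtain ⟨c, hcC, hcy⟩ := hhyp e0 hey
    refine ⟨D.att (S.a e0) (o (e0, false)), hattAb (e0, false) hey,
      (k (e0, false))⁻¹ * c * k (e0, false), ?_, ?_⟩
    · have h1 : (k (e0, false))⁻¹ * c * k (e0, false) ∈ D.gg.C (Sum.inl e0) := by
        show k (e0, false) * ((k (e0, false))⁻¹ * c * k (e0, false)) * (k (e0, false))⁻¹ ∈ S.C e0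
        have h2 : k (e0, false) * ((k (e0, false))⁻¹ * c * k (e0, false)) * (k (e0, false))⁻¹ =
          c := by group
        rw [h2]
        exact hcC
      exact D.gg.Ca (Sum.inl e0) h1
    · have h1 := (hyP hctx x').conj c (k (e0, false))⁻¹ hcy
      rw [inv_inv] at h1
      exact h1

end Main

end Pool.Agent.FrCB
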