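import Pool.Agent.Lib.MP_305fdd_al.Fr.C2.MkWD
import Pool.Agent.Lib.MP_305fdd_al.Fr.C2.Alg

/-!
# MP_305fdd_al, F_r, Case 2: the LINE theorem
-/

set_option autoImplicit false

namespace Pool.Agent.FrC2

open Pool.Agent.FrS Pool.Agent.FrR Pool.Agent.FrZ Matrix

section fin

variable {Γ L H ι : Type} [Group Γ] [Field L] [CharP L 2]
  {ρ : Γ →* SpecialLinearGroup (Fin 2) L} {x : RV L} {P : Subgroup Γ} {Z : H → Subgroup Γ}
  {k : H → SpecialLinearGroup (Fin 2) L} {E : ι → Subgroup Γ}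
  {S : Type} [Finite S]

namespace LineIn

variable (hin : LineIn ρ x P Z k E)

/-- the inverse of `ρ` on `P.map ρ` -/
noncomputable def jj (hin : LineIn ρ x P Z k E) : P.map ρ →* Γ :=
  P.subtype.comp (P.equivMapOfInjective ρ hin.inj).symm.toMonoidHom

omit [CharP L 2] in
theorem jj_mem (y : P.map ρ) : hin.jj y ∈ P :=
  ((P.equivMapOfInjective ρ hin.inj).symm y).2

omit [CharP L 2] in
theorem ρ_jj (y : P.map ρ) : ρ (hin.jj y) = y.1 := by
  have h1 := (P.equivMapOfInjective ρ hin.inj).apply_symm_apply y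
  have h2 := congrArg Subtype.val h1
  rwa [Subgroup.coe_equivMapOfInjective_apply] at h2

omit [CharP L 2] in
theorem jj_ρ {z : Γ} (hz : z ∈ P) : hin.jj ⟨ρ z, z, hz, rfl⟩ = z := hin.inj (hin.ρ_jj _)

omit [CharP L 2] in
theorem jj_inj : Function.Injective hin.jj := by
  intro a b hab
  apply Subtype.ext
  rw [← hin.ρ_jj, ← hin.ρ_jj, hab]

omit [CharP L 2] in
theorem jj_iff (z : Γ) : z ∈ P ↔ ∃ y, hin.jj y = z :=
  ⟨fun hz => ⟨_, hin.jj_ρ hz⟩, fun ⟨y, hy⟩ => hy ▸ hin.jj_mem y⟩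

omit [CharP L 2] in
theorem mem_Z (h : H) (y : P.map ρ) : y ∈ (hin.line h).E ↔ hin.jj y ∈ Z h := by
  have h1 : ρ (hin.jj y) ∈ P.map ρ := ⟨_, hin.jj_mem y, rfl⟩
  have h2 := hin.mem_line h (hin.jj y) h1
  have h3 : (⟨ρ (hin.jj y), h1⟩ : P.map ρ) = y := Subtype.ext (hin.ρ_jj y)
  rwa [h3] at h2

omit [CharP L 2] in
theorem mem_E (i : ι) (y : P.map ρ) :
    y ∈ ((E i).map ρ).subgroupOf (P.map ρ) ↔ hin.jj y ∈ E i := by
  constructor
  · rintro ⟨a, ha, haa⟩
    have h1 : ρ a = y.1 := haa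
    rw [← hin.ρ_jj] at h1
    rw [← hin.inj h1]
    exact ha
  · intro h1
    exact ⟨_, h1, hin.ρ_jj y⟩

omit [CharP L 2] in
theorem φ_jj (h : H) (y : P.map ρ) : (hin.line h).φ y = - x.v (eg ρ (k h) (hin.jj y)) := by
  show - x.v (((k h)⁻¹ * y.1 * k h).1 0 0) = _
  rw [← hin.ρ_jj]
  rfl

end LineIn

end fin

/-- THE LINE THEOREM -/
theorem line_thm : S_line := by
  intro Γ L H ι _ _ _ _ _ ρ x P Z k E hin
  classical
  have hfg : Group.FG (P.map ρ) := (Group.fg_iff_subgroup_fg _).2 (fg_map hin.fgP)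
  obtain ⟨S, hS, π, hπ⟩ := Group.fg_iff_exists_freeGroup_hom_surjective_finite.1 hfg
  -- words
  choose B hB using fun h => exists_words hπ (E := (hin.line h).E)
    (fg_subgroupOf (Subgroup.map_mono (hin.ZP h)) (fg_map (hin.fgZ h)))
  choose C hC using fun i => exists_words hπ (E := ((E i).map ρ).subgroupOf (P.map ρ))
    (fg_subgroupOf (Subgroup.map_mono (hin.EP i)) (fg_map (hin.fgE i)))
  have hpos : ∀ h, ∃ z ∈ (hin.line h).E, 0 < (hin.line h).φ z := by
    intro h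
    obtain ⟨z, hz, h1⟩ := hin.exists_pos h
    have h2 : ρ z ∈ P.map ρ := ⟨z, hin.ZP h hz, rfl⟩
    exact ⟨⟨ρ z, h2⟩, (hin.mem_line h z h2).2 hz, h1⟩
  choose u hu hU hBU using fun h => (hin.line h).exists_long hπ (B h) (hpos h)
  -- relators
  obtain ⟨R₀, hR₀, hcov⟩ := exists_cover S {w | π w = 1}
  have := Fintype.ofFinite H
  have := Fintype.ofFinite ι
  set R : Finset (FreeGroup S) := R₀ ∪ (Finset.univ.biUnion fun h =>
    (B h ×ˢ B h).image fun z => z.1 * z.2 * z.1⁻¹ * z.2⁻¹) ∪ (Finset.univ.biUnion fun i =>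
    (C i ×ˢ C i).image fun z => z.1 * z.2 * z.1⁻¹ * z.2⁻¹) with hRdef
  have hRB : ∀ h, ∀ a ∈ B h, ∀ b ∈ B h, a * b * a⁻¹ * b⁻¹ ∈ R := by
    intro h a ha b hb
    refine Finset.mem_union_left _ (Finset.mem_union_right _ ?_)
    rw [Finset.mem_biUnion]
    exact ⟨h, Finset.mem_univ _, Finset.mem_image.2 ⟨(a, b), Finset.mem_product.2 ⟨ha, hb⟩, rfl⟩⟩
  have hRC : ∀ i, ∀ a ∈ C i, ∀ b ∈ C i, a * b * a⁻¹ * b⁻¹ ∈ R := by
    intro h a ha b hb
    refine Finset.mem_union_right _ ?_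
    rw [Finset.mem_biUnion]
    exact ⟨h, Finset.mem_univ _, Finset.mem_image.2 ⟨(a, b), Finset.mem_product.2 ⟨ha, hb⟩, rfl⟩⟩
  have hBZ : ∀ h, ∀ b ∈ B h, π b ∈ (hin.line h).E := by
    intro h b hb
    rw [← hB h]
    exact Subgroup.subset_closure ⟨b, hb, rfl⟩
  have hCE : ∀ i, ∀ b ∈ C i, π b ∈ ((E i).map ρ).subgroupOf (P.map ρ) := by
    intro h b hb
    rw [← hC h]
    exact Subgroup.subset_closure ⟨b, hb, rfl⟩
  have hRK : ∀ r ∈ R, π r = 1 := by
    have key : ∀ a b : FreeGroup S, π a * π b = π b * π a → π (a * b * a⁻¹ * b⁻¹) = 1 := by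
      intro a b hab
      rw [map_mul, map_mul, map_mul, hab, map_inv, map_inv]
      group
    intro r hr
    rw [hRdef, Finset.mem_union, Finset.mem_union, Finset.mem_biUnion, Finset.mem_biUnion] at hr
    rcases hr with (hr | ⟨h, -, hr⟩) | ⟨i, -, hr⟩
    · exact hR₀ r hr
    · obtain ⟨⟨a, b⟩, hab, rfl⟩ := Finset.mem_image.1 hr
      obtain ⟨ha, hb⟩ := Finset.mem_product.1 hab
      exact key a b ((hin.line h).comm _ (hBZ h a ha) _ (hBZ h b hb))
    · obtain ⟨⟨a, b⟩, hab, rfl⟩ := Finset.mem_image.1 hr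
      obtain ⟨ha, hb⟩ := Finset.mem_product.1 hab
      apply key
      have h1 := (hin.mem_E i _).1 (hCE i a ha)
      have h2 := (hin.mem_E i _).1 (hCE i b hb)
      have h3 := hin.commE i _ h1 _ h2
      apply hin.jj_inj
      rw [map_mul hin.jj, map_mul hin.jj]
      exact h3
  -- balls
  obtain ⟨m, hm⟩ := exists_ball_finset (Finset.univ.biUnion B ∪ Finset.univ.biUnion C ∪
    Finset.univ.image u)
  obtain ⟨m', hm'⟩ := exists_ball_finset R
  have hmB : ∀ h, ∀ b ∈ B h, b ∈ ball S m := fun h b hb => hm b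
    (Finset.mem_union_left _ (Finset.mem_union_left _
      (Finset.mem_biUnion.2 ⟨h, Finset.mem_univ _, hb⟩)))
  have hmC : ∀ i, ∀ b ∈ C i, b ∈ ball S m := fun h b hb => hm b
    (Finset.mem_union_left _ (Finset.mem_union_right _
      (Finset.mem_biUnion.2 ⟨h, Finset.mem_univ _, hb⟩)))
  have hmu : ∀ h, u h ∈ ball S m := fun h => hm _
    (Finset.mem_union_right _ (Finset.mem_image_of_mem _ (Finset.mem_univ _)))
  obtain ⟨n, hn⟩ : ∃ n, n = 2 * m + m' + 1 := ⟨_, rfl⟩
  obtain ⟨lo, hlo⟩ := exists_lo (ball S n) (len π (bp x)) (fun w => dist_nonneg)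
  -- transfer
  obtain ⟨A1, F1, E1, hF1, htr⟩ := transfer_bp x ((P.map ρ).subtype.comp π) (n := n)
    (N := 2 * n + 1) (by omega) le_rfl lo
  obtain ⟨A2, F2, hF2, hper⟩ := perturb x k
  obtain ⟨A3, hgen⟩ := hin.exists_gen
  let uI : H → Ix (ball S n) (len π (bp x)) := fun h =>
    ⟨u h, ball_mono (by omega) (hmu h), hin.len_pos π h (hu h) (hU h)⟩
  have hle := fun h => hin.fam_le π hlo h (uI h) (hu h) (hU h)
  have hG₀ := bsys_good (isRT x) (isoSub x (P.map ρ)) π (bp x) lo (Cp.refl _ _) hlo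
  have : Fintype (Ix (ball S n) (len π (bp x))) := Fintype.ofFinite _
  have : Fintype (Jx (ball S n) (len π (bp x))) := Fintype.ofFinite _
  obtain ⟨F4, E4, hF4, hint⟩ := (hin.fam π hlo).int_finite hG₀
    (S := Set.range fun h => (uI h, (⟨h, ((1 : P.map ρ) : P.map ρ ⧸ (hin.line h).E)⟩ :
      Σ i, P.map ρ ⧸ (hin.line i).E))) (Set.finite_range _) (by
      rintro _ ⟨h, rfl⟩
      have h1 := hle h
      have h2 := hU h
      have h3 : (uI h).1 = u h := rfl
      rw [h3] at h1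
      linarith [h1.1, h1.2])
  -- further numbers
  set Q : Finset ℝ := (Finset.univ.image fun h => (hin.line h).φ (π (u h))) ∪
    (Finset.univ.biUnion fun h => (B h).image fun b =>
      (hin.line h).φ (π (u h)) - 2 * (hin.line h).φ (π b)) ∪
    (Finset.univ.biUnion fun h => (B h).image fun b =>
      (hin.line h).φ (π (u h)) + 2 * (hin.line h).φ (π b)) ∪
    (Finset.univ.image fun h => lo (u h) + Dk x (k h) - (hin.fam π hlo).p (uI h,
      ⟨h, ((1 : P.map ρ) : P.map ρ ⧸ (hin.line h).E)⟩)) ∪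
    (Finset.univ.image fun h => (hin.fam π hlo).q (uI h,
      ⟨h, ((1 : P.map ρ) : P.map ρ ⧸ (hin.line h).E)⟩) -
        (lo (u h) + (Dk x (k h) + (hin.line h).φ (π (u h))))) with hQdef
  set E5 : Finset ℝ := (Finset.univ.image fun h => Dk x (k h)) ∪
    (Finset.univ.biUnion fun h => (B h).image fun b => (hin.line h).φ (π b)) with hE5
  refine ⟨A1 ∪ A2 ∪ A3, F1 ∪ F2 ∪ F4 ∪ sgF Q, E1 ∪ E4 ∪ E5, ?_, ?_⟩
  · intro r hr
    rw [Finset.mem_union, Finset.mem_union, Finset.mem_union] at hr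
    rcases hr with ((hr | hr) | hr) | hr
    · exact hF1 r hr
    · exact hF2 r hr
    · exact hF4 r hr
    · exact sgF_pos Q r hr
  intro L₀ hL hE x' hx'
  have hval := hgen L₀ x' fun a ha => hx' a (Finset.mem_union_right _ ha)
  refine ⟨hval, ?_⟩
  intro N' hN'
  have htrn : Trn (2 * n + 1) n (len π (bp x)) (len π (bp x')) lo L₀ := htr L₀ x'
    (fun f hf => hL f (Finset.mem_union_left _ (Finset.mem_union_left _
      (Finset.mem_union_left _ hf))))
    (fun e he => hE e (Finset.mem_union_left _ (Finset.mem_union_left _ he)))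
    (fun a ha => hx' a (Finset.mem_union_left _ (Finset.mem_union_left _ ha)))
  have hper' := hper L₀
    (fun f hf => hL f (Finset.mem_union_left _ (Finset.mem_union_left _
      (Finset.mem_union_right _ hf)))) x'
    (fun a ha => hx' a (Finset.mem_union_left _ (Finset.mem_union_right _ ha)))
  obtain ⟨hGX, hIA⟩ := hint L₀ _ htrn.tp
    (fun f hf => hL f (Finset.mem_union_left _ (Finset.mem_union_right _ hf)))
    (fun e he => hE e (Finset.mem_union_left _ (Finset.mem_union_right _ he)))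
  have hSg : ∀ q ∈ Q, Sg L₀ q := fun q hq =>
    sg_of_sgF (fun f hf => hL f (Finset.mem_union_right _ hf)) hq
  have hE5' : ∀ e ∈ E5, e ∈ Lam L₀ := fun e he => hE e (Finset.mem_union_right _ he)
  have hΛD : ∀ h, Dk x (k h) ∈ Lam L₀ := fun h => hE5' _ (Finset.mem_union_left _
    (Finset.mem_image_of_mem _ (Finset.mem_univ _)))
  have hΛ : ∀ h, ∀ g ∈ (hin.line h).E, (hin.line h).φ g ∈ Lam L₀ := fun h =>
    (hin.line h).φ_mem (Lam L₀) (hB h) (by
      rintro _ ⟨b, hb, rfl⟩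
      exact hE5' _ (Finset.mem_union_right _ (Finset.mem_biUnion.2 ⟨h, Finset.mem_univ _,
        Finset.mem_image_of_mem _ hb⟩)))
  have hLU : ∀ h, 0 < L₀ ((hin.line h).φ (π (u h))) := fun h => (hSg _ (by
    rw [hQdef]
    simp only [Finset.mem_union]
    exact Or.inl (Or.inl (Or.inl (Or.inl (Finset.mem_image_of_mem _ (Finset.mem_univ _))))))).1.1
      (hU h)
  have hLm : ∀ h, ∀ b ∈ B h, 0 < L₀ ((hin.line h).φ (π (u h)) - 2 * (hin.line h).φ (π b)) :=
    fun h b hb => (hSg _ (by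
      rw [hQdef]
      simp only [Finset.mem_union]
      exact Or.inl (Or.inl (Or.inl (Or.inr (Finset.mem_biUnion.2 ⟨h, Finset.mem_univ _,
        Finset.mem_image_of_mem _ hb⟩)))))).1.1 (hBU h b hb).1
  have hLp : ∀ h, ∀ b ∈ B h, 0 < L₀ ((hin.line h).φ (π (u h)) + 2 * (hin.line h).φ (π b)) :=
    fun h b hb => (hSg _ (by
      rw [hQdef]
      simp only [Finset.mem_union]
      exact Or.inl (Or.inl (Or.inr (Finset.mem_biUnion.2 ⟨h, Finset.mem_univ _,
        Finset.mem_image_of_mem _ hb⟩))))).1.1 (hBU h b hb).2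
  have hD : ∀ h, (uI h, (⟨h, ((1 : P.map ρ) : P.map ρ ⧸ (hin.line h).E)⟩ :
      Σ i, P.map ρ ⧸ (hin.line i).E)) ∈ ⋃ c ∈ Set.range (fun h => (uI h,
        (⟨h, ((1 : P.map ρ) : P.map ρ ⧸ (hin.line h).E)⟩ :
          Σ i, P.map ρ ⧸ (hin.line i).E))), (hin.fam π hlo).Comp c := by
    intro h
    simp only [Set.mem_iUnion]
    exact ⟨_, ⟨h, rfl⟩, Relation.ReflTransGen.refl⟩
  have hWD := hin.mkWD π hlo uI hu hU hval (fun h => (hper' h).1) htrn hGX hIA hD hΛD hΛ hLU
    (fun h => by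
      have h1 := (hSg _ (by
        rw [hQdef]
        simp only [Finset.mem_union]
        exact Or.inl (Or.inr (Finset.mem_image_of_mem _ (Finset.mem_univ h))))).nonneg
          (by linarith [(hle h).1, show lo (uI h).1 = lo (u h) from rfl])
      rw [map_sub] at h1
      exact sub_nonneg.1 h1)
    (fun h => by
      have h1 := (hSg _ (by
        rw [hQdef]
        simp only [Finset.mem_union]
        exact Or.inr (Finset.mem_image_of_mem _ (Finset.mem_univ h)))).nonneg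
          (by
            have h2 := (hle h).2
            exact sub_nonneg.2 h2)
      rw [map_sub] at h1
      exact sub_nonneg.1 h1)
  -- the group
  have hRn : ∀ r ∈ R, r ∈ ball S n := fun r hr => ball_mono (by omega) (hm' r hr)
  have hgood := hpa_good (isRT x') (isoSub x' (P.map ρ)) htrn.hp
  let K : Subgroup (FreeGroup S) := Subgroup.normalClosure (R : Set (FreeGroup S))
  let G : Type := FreeGroup S ⧸ K
  let q : FreeGroup S →* G := QuotientGroup.mk' K
  have hq : Function.Surjective q := QuotientGroup.mk'_surjective K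
  have hKπ : K ≤ π.ker := by
    refine Subgroup.normalClosure_le_normal fun r hr => ?_
    exact hRK r hr
  let ρ' : G →* P.map ρ := QuotientGroup.lift K π hKπ
  have hρ' : ∀ w, ρ' (q w) = π w := fun w => QuotientGroup.lift_mk' K hKπ w
  have hker : ∀ w, q w = 1 → w ∈ Subgroup.normalClosure (R : Set (FreeGroup S)) := fun w hw =>
    (QuotientGroup.eq_one_iff w).1 hw
  have hqR : ∀ r ∈ R, q r = 1 := fun r hr =>
    (QuotientGroup.eq_one_iff r).2 (Subgroup.subset_normalClosure hr)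
  have hRv : ∀ r ∈ (R : Set (FreeGroup S)), q r = 1 ∧
      ∃ γ p, (hpa (ball S n) π (bp x')).Path γ p p ∧ FrT.lab γ = r := fun r hr =>
    ⟨hqR r hr, rel_vis htrn.hp (hRn r hr) (hRK r hr)⟩
  have htree := (hpa (ball S n) π (bp x')).isTree q hgood hq hker hRv
  have hqcomm : ∀ a b : FreeGroup S, a * b * a⁻¹ * b⁻¹ ∈ R → q a * q b = q b * q a := by
    intro a b hab
    have h1 := hqR _ hab
    rw [map_mul, map_mul, map_mul, map_inv, map_inv] at h1
    have h2 : q a * q b = (q a * q b * (q a)⁻¹ * (q b)⁻¹) * (q b * q a) := by group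
    rw [h2, h1, one_mul]
  have hW := hWD.wins (G := G) (π := q) hq (R := (R : Set (FreeGroup S))) hker hRv
    (ρ' := ρ') hρ' ⟨bp x', KV.base htrn.hp⟩ hgood
    (B := fun h => q '' (B h : Set (FreeGroup S)))
    (by
      rintro h _ ⟨a, ha, rfl⟩ _ ⟨b, hb, rfl⟩
      exact hqcomm a b (hRB h a ha b hb))
    (by
      intro h
      rw [MonoidHom.map_closure, Set.image_image, ← hB h]
      congr 1)
    (by
      rintro h _ ⟨b, hb, rfl⟩
      rw [hρ']
      have h1 := hLm h b hb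
      have h2 := hLp h b hb
      have e1 := two_half (hΛ h _ (hBZ h b hb))
      have e2 := two_half (hΛ h _ (hu h))
      have e3 := Lz_cast (hΛ h _ (hBZ h b hb))
      have e4 := Lz_cast (hΛ h _ (hu h))
      have e5 : L₀ (2 * (hin.line h).φ (π b)) = 2 * L₀ ((hin.line h).φ (π b)) := by
        rw [two_mul, map_add, two_mul]
      rw [map_sub, e5, ← e3, ← e4] at h1
      rw [map_add, e5, ← e3, ← e4] at h2
      have h3 : 0 < Lz L₀ ((hin.line h).φ (π (u h))) - 2 * Lz L₀ ((hin.line h).φ (π b)) := by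
        exact_mod_cast h1
      have h4 : 0 < Lz L₀ ((hin.line h).φ (π (u h))) + 2 * Lz L₀ ((hin.line h).φ (π b)) := by
        exact_mod_cast h2
      show 2 * |Lz L₀ ((hin.line h).φ (π b)) / 2| ≤ Lz L₀ ((hin.line h).φ (π (u h))) / 2
      rcases abs_cases (Lz L₀ ((hin.line h).φ (π b)) / 2) with ⟨h5, -⟩ | ⟨h5, -⟩ <;> rw [h5] <;>
        omega)
    (by
      rintro h _ ⟨b, hb, rfl⟩
      obtain ⟨l, hl1, hl2⟩ := mem_ball.1 (hmB h b hb)
      refine ⟨l.reverse, by rw [lab_reverse, hl2], ?_⟩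
      intro j h1 h2 γ₁ γ₂ hγ
      exact vis (isRT x') (isoSub x' (P.map ρ)) htrn.hp (by omega) (hmu h) hl1
        (hWD.kv h1 h2) (hWD.win h j h1 h2).1 hγ)
  have hGfg : Group.FG G := Group.fg_of_surjective hq
  have hρs : Function.Surjective ρ' := fun y => by
    obtain ⟨w, hw⟩ := hπ y
    exact ⟨q w, by rw [hρ', hw]⟩
  obtain ⟨A, g, t, o1, o2, o3, o4, o5, o6⟩ := absLine hW htree
    ((hpa (ball S n) π (bp x')).acts q hgood) hGfg hρs (fun h => (hin.line h).comm)
  have hkk : ∀ i, ∃ kk : P.map ρ, ∀ y, hin.jj y ∈ E i → kk * y * kk⁻¹ ∈ A := by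
    intro i
    obtain ⟨p, hp⟩ := ell_sub q (isRT x') (isoSub x' (P.map ρ)) htrn (m := m) (by omega)
      (by omega) hgood htree (C i) (fun w hw => hmC i w hw)
      (fun w hw => by
        have h1 := (hin.mem_E i _).1 (hCE i w hw)
        have h2 := hin.ell i _ h1
        rw [hin.ρ_jj] at h2
        exact dist_sq_le h2 (bp x))
      (fun w hw w' hw' => hqcomm w w' (hRC i w hw w' hw'))
    obtain ⟨kk, hkk⟩ := o5 _ ⟨p, hp⟩
    refine ⟨kk, fun y hy => ?_⟩
    have h1 := (hin.mem_E i y).2 hy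
    rw [← hC i] at h1
    have h2 : Subgroup.closure (π '' (C i : Set (FreeGroup S))) =
        (Subgroup.closure (q '' (C i : Set (FreeGroup S)))).map ρ' := by
      rw [MonoidHom.map_closure, Set.image_image]
      congr 1
    rw [h2] at h1
    obtain ⟨a, ha, rfl⟩ := h1
    exact hkk a ha
  choose kk hkk using hkk
  refine toLineOut hin.jj hin.jj_inj hin.jj_iff (fun h => (hin.line h).E) hin.mem_Z hin.ZP
    (hin.fi L₀) ?_ (fun h z hz => ((hN' h z).1 hz).1) A g t kk o1 o2 o3 o4 hkk hin.EP ?_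
  · intro h y hy
    have h1 := (hin.mem_Z h y).1 hy
    rw [hN' h]
    have h2 := hval h _ h1
    have h3 := hin.φ_jj h y
    have h4 := half_real (hΛ h y hy)
    have h5 : (L₀ ((hin.line h).φ y) : ℝ) = - x'.v (eg ρ (k h) (hin.jj y)) := by
      rw [h3, map_neg, h2]
      push_cast
      rfl
    rw [h5] at h4
    constructor
    · rintro ⟨-, h6⟩
      rw [h6] at h4
      have h7 : ((Lz L₀ ((hin.line h).φ y) / 2 : ℤ) : ℝ) = 0 := by linarith
      exact_mod_cast h7
    · intro h6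
      refine ⟨h1, ?_⟩
      have h7 : Lz L₀ ((hin.line h).φ y) / 2 = 0 := h6
      rw [h7] at h4
      push_cast at h4
      linarith
  · intro R' _ _ σ τ hστ
    refine o6 _ ?_ σ τ hστ
    intro F y hy
    obtain ⟨w, rfl⟩ := hq y
    rw [hρ'] at hy
    exact hcov R' (F.comp q) (fun r hr => by
      show F (q r) = 1
      rw [hqR r (Finset.mem_union_left _ (Finset.mem_union_left _ hr)), map_one]) w hy

end Pool.Agent.FrC2
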