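import Pool.Agent.Lib.MP_305fdd_al.Fr.C2.CaseB
import Pool.Agent.Lib.MP_305fdd_al.Fr.C2.Main

/-!
# MP_305fdd_al, F_r, Case B, unconditional
-/

set_option autoImplicit false

namespace Pool.Agent.FrCB

open Pool.Agent.FrC2 Pool.Agent.FrS Pool.Agent.FrR Pool.Agent.FrN
open Matrix (SpecialLinearGroup)

/-- CASE B.  A real valuation which is semi-good on the vertex groups and not negative on the traces of
the cyclic edge groups is not negative on the traces of all edge groups. -/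
theorem case_b {b : ℕ} {Γ K F : Type} [Group Γ] [Field K] [Field F] [Algebra (ZMod 2) K]
    [Algebra (ZMod 2) F] [Algebra K F] {T : Γ → K}
    {ρ : Γ →* SpecialLinearGroup (Fin 2) F} (h : HB 2 b Γ K F T ρ)
    (hinj : Function.Injective ρ) (hnc : ∃ y z : Γ, y * z ≠ z * y)
    (hT : ∀ g, (ρ g).1.trace = 0 → g = 1) {S : GG Γ} (hS : S.Adm)
    (y : RV F) (hy : ∀ v, ∀ g ∈ S.G v, g ≠ 1 → y.v (FrR.tr (ρ g)) ≤ 0)
    (hcyc : ∀ e, (∃ z, S.C e = Subgroup.zpowers z) → ∀ c ∈ S.C e, 0 ≤ y.v (FrR.tr (ρ c)))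
    (e : S.E) (c : Γ) (hc : c ∈ S.C e) : 0 ≤ y.v (FrR.tr (ρ c)) := by
  by_contra h0
  rw [not_le] at h0
  exact caseB line_thm h hinj hnc hT S hS.toUP hS.fgV hS.fgE hS.ne hS.ab y hy hcyc e c hc h0

end Pool.Agent.FrCB
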