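import Mathlib

/-!
# MP_305fdd_al, F_r: finitely many relators suffice for representations in `SL(2, R)` (noetherian)
-/

set_option autoImplicit false

namespace Pool.Agent.FrC2

open Matrix MvPolynomial

section

variable (S : Type)

/-- the polynomial ring in the entries -/
abbrev PA2 : Type := MvPolynomial (S × Fin 2 × Fin 2) (ZMod 2)

/-- the ideal of the determinants -/
noncomputable def detI : Ideal (PA2 S) :=
  Ideal.span {x | ∃ s : S, x = X (s, 0, 0) * X (s, 1, 1) - X (s, 0, 1) * X (s, 1, 0) - 1}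

/-- the universal ring of the free group -/
abbrev UF : Type := PA2 S ⧸ detI S

/-- the generic matrices -/
noncomputable def ug (s : S) : SpecialLinearGroup (Fin 2) (UF S) :=
  ⟨Matrix.of fun i j => Ideal.Quotient.mk (detI S) (X (s, i, j)), by
    rw [Matrix.det_fin_two]
    simp only [Matrix.of_apply]
    rw [← map_mul, ← map_mul, ← map_sub, ← map_one (Ideal.Quotient.mk (detI S)),
      ← sub_eq_zero, ← map_sub]
    exact Ideal.Quotient.eq_zero_iff_mem.2 (Ideal.subset_span ⟨s, rfl⟩)⟩

/-- the universal representation -/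
noncomputable def uf : FreeGroup S →* SpecialLinearGroup (Fin 2) (UF S) := FreeGroup.lift (ug S)

theorem uf_univ (R : Type) [CommRing R] [Algebra (ZMod 2) R]
    (σ : FreeGroup S →* SpecialLinearGroup (Fin 2) R) :
    ∃ f : UF S →+* R, ∀ w i j, f ((uf S w).1 i j) = (σ w).1 i j := by
  let g : PA2 S →ₐ[ZMod 2] R := aeval fun x => (σ (FreeGroup.of x.1)).1 x.2.1 x.2.2
  have hg : ∀ a ∈ detI S, g a = 0 := by
    intro a ha
    have h1 : detI S ≤ RingHom.ker g.toRingHom := by
      rw [detI, Ideal.span_le]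
      rintro x ⟨s, rfl⟩
      show g (X (s, 0, 0) * X (s, 1, 1) - X (s, 0, 1) * X (s, 1, 0) - 1) = 0
      have h2 := (σ (FreeGroup.of s)).2
      rw [Matrix.det_fin_two] at h2
      simp only [g, map_sub, map_mul, map_one, aeval_X]
      rw [h2, sub_self]
    exact h1 ha
  let f : UF S →+* R := Ideal.Quotient.lift (detI S) g.toRingHom hg
  have hf : ∀ a, f (Ideal.Quotient.mk (detI S) a) = g a := fun a => rfl
  refine ⟨f, ?_⟩
  have key : (SpecialLinearGroup.map f).comp (uf S) = σ := by
    apply FreeGroup.ext_hom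
    intro s
    apply Subtype.ext
    ext i j
    show f ((uf S (FreeGroup.of s)).1 i j) = _
    have h1 : (uf S (FreeGroup.of s)).1 i j = Ideal.Quotient.mk (detI S) (X (s, i, j)) := by
      have h0 : uf S (FreeGroup.of s) = ug S s := by rw [uf, FreeGroup.lift_apply_of]
      rw [h0]
      rfl
    rw [h1, hf]
    simp [g]
  intro w i j
  rw [← key]
  rfl

end

/-- THE COVER LEMMA -/
theorem exists_cover (S : Type) [Finite S] (K : Set (FreeGroup S)) :
    ∃ R₀ : Finset (FreeGroup S), (∀ r ∈ R₀, r ∈ K) ∧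
      ∀ (R : Type) [CommRing R] [Algebra (ZMod 2) R]
        (σ : FreeGroup S →* SpecialLinearGroup (Fin 2) R), (∀ r ∈ R₀, σ r = 1) →
        ∀ w ∈ K, σ w = 1 := by
  classical
  let E : FreeGroup S × Fin 2 × Fin 2 → UF S := fun x =>
    (uf S x.1).1 x.2.1 x.2.2 - (1 : Matrix (Fin 2) (Fin 2) (UF S)) x.2.1 x.2.2
  let KE : Set (UF S) := E '' {x | x.1 ∈ K}
  have hN : IsNoetherianRing (UF S) := inferInstance
  have hfg : (Submodule.span (UF S) KE).FG := hN.noetherian _
  rw [Submodule.fg_span_iff_fg_span_finset_subset] at hfg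
  obtain ⟨t, ht, hspan⟩ := hfg
  have hch : ∀ a : UF S, ∃ x : FreeGroup S × Fin 2 × Fin 2, a ∈ t → x.1 ∈ K ∧ E x = a := by
    intro a
    by_cases ha : a ∈ t
    · obtain ⟨x, hx, hxa⟩ := ht ha
      exact ⟨x, fun _ => ⟨hx, hxa⟩⟩
    · exact ⟨(1, 0, 0), fun h => absurd h ha⟩
  choose x hx using hch
  refine ⟨t.image fun a => (x a).1, ?_, ?_⟩
  · intro r hr
    rw [Finset.mem_image] at hr
    obtain ⟨a, ha, rfl⟩ := hr
    exact (hx a ha).1
  · intro R _ _ σ hσ w hw
    obtain ⟨f, hf⟩ := uf_univ S R σ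
    have hker : Submodule.span (UF S) KE ≤ RingHom.ker f := by
      rw [hspan, Submodule.span_le]
      intro a ha
      have h1 := hx a ha
      have h2 := hσ (x a).1 (Finset.mem_image_of_mem _ ha)
      show f a = 0
      rw [← h1.2]
      simp only [E]
      rw [map_sub, hf, h2]
      rcases x a with ⟨w', i, j⟩
      fin_cases i <;> fin_cases j <;> simp
    apply Subtype.ext
    ext i j
    have h1 : E (w, i, j) ∈ Submodule.span (UF S) KE := Submodule.subset_span ⟨_, hw, rfl⟩
    have h2 : f (E (w, i, j)) = 0 := hker h1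
    simp only [E] at h2
    rw [map_sub, hf, sub_eq_zero] at h2
    rw [h2]
    fin_cases i <;> fin_cases j <;> simp

end Pool.Agent.FrC2
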