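import Pool.Agent.Lib.MP_305fdd_al.Fr.CI.Comb

/-!
# MP_305fdd_al, F_r, Case B (edge groups of rank at least two): lines in the real tree and their
traces on the components of the system
-/

set_option autoImplicit false
set_option linter.unusedSectionVars false
set_option linter.unusedVariables false
set_option linter.unnecessarySeqFocus false

namespace Pool.Agent.FrC2

open Pool.Agent.FrZ Pool.Agent.FrR

/-- a line `l` with an abelian group `E` which acts on it by translations with arbitrarily small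
translation lengths -/
structure Line (Γ T : Type) [Group Γ] [MetricSpace T] [MulAction Γ T] where
  E : Subgroup Γ
  l : ℝ → T
  φ : Γ → ℝ
  comm : ∀ a ∈ E, ∀ b ∈ E, a * b = b * a
  iso : ∀ s t, dist (l s) (l t) = |s - t|
  act : ∀ e ∈ E, ∀ s, e • l s = l (s + φ e)
  max : ∀ g, (∀ e ∈ E, g * e = e * g) → g ∈ E
  small : ∀ ε : ℝ, 0 < ε → ∃ e ∈ E, e ≠ 1 ∧ |φ e| < ε

variable {Γ T : Type} [Group Γ] [MetricSpace T] [MulAction Γ T]

/-- geodesics are unique -/
theorem geo_unique (hT : IsRT T) {p q r r' : T} (h1 : dist p r + dist r q = dist p q)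
    (h2 : dist p r' + dist r' q = dist p q) (h3 : dist p r = dist p r') : r = r' := by
  have h4 := hT.hyp r r' p q
  rw [dist_comm r p, dist_comm r' p] at h4
  have h5 : dist r r' ≤ 0 := by
    rcases le_max_iff.1 h4 with h | h <;> linarith
  exact dist_le_zero.1 h5

namespace Line

/-- the translate of a line -/
def conj (hS : Small Γ T) (g : Γ) (A : Line Γ T) : Line Γ T where
  E := A.E.comap (MulAut.conj g⁻¹).toMonoidHom
  l s := g • A.l s
  φ x := A.φ (g⁻¹ * x * g)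
  comm := by
    intro a ha b hb
    have ha' : g⁻¹ * a * g⁻¹⁻¹ ∈ A.E := ha
    have hb' : g⁻¹ * b * g⁻¹⁻¹ ∈ A.E := hb
    rw [_root_.inv_inv] at ha' hb'
    have h := A.comm _ ha' _ hb'
    have h1 : g * (g⁻¹ * a * g * (g⁻¹ * b * g)) * g⁻¹ =
        g * (g⁻¹ * b * g * (g⁻¹ * a * g)) * g⁻¹ := by rw [h]
    have h2 : ∀ a b : Γ, g * (g⁻¹ * a * g * (g⁻¹ * b * g)) * g⁻¹ = a * b := by
      intro a b
      group
    rwa [h2, h2] at h1
  iso s t := by rw [hS.isom, A.iso]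
  act := by
    intro e he s
    have he' : g⁻¹ * e * g⁻¹⁻¹ ∈ A.E := he
    rw [_root_.inv_inv] at he'
    have h1 := A.act _ he' s
    rw [← h1, smul_smul, smul_smul]
    congr 1
    group
  max := by
    intro x hx
    show g⁻¹ * x * g⁻¹⁻¹ ∈ A.E
    rw [_root_.inv_inv]
    refine A.max _ fun e he => ?_
    have h1 : g * e * g⁻¹ ∈ A.E.comap (MulAut.conj g⁻¹).toMonoidHom := by
      show g⁻¹ * (g * e * g⁻¹) * g⁻¹⁻¹ ∈ A.E
      have h2 : g⁻¹ * (g * e * g⁻¹) * g⁻¹⁻¹ = e := by group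
      rw [h2]
      exact he
    have h3 := hx _ h1
    have h4 : g⁻¹ * (x * (g * e * g⁻¹)) * g = g⁻¹ * (g * e * g⁻¹ * x) * g := by rw [h3]
    have h5 : g⁻¹ * (x * (g * e * g⁻¹)) * g = g⁻¹ * x * g * e := by group
    have h6 : g⁻¹ * (g * e * g⁻¹ * x) * g = e * (g⁻¹ * x * g) := by group
    rwa [h5, h6] at h4
  small := by
    intro ε hε
    obtain ⟨e, he, h1, h2⟩ := A.small ε hε
    have h3 : g⁻¹ * (g * e * g⁻¹) * g = e := by group
    refine ⟨g * e * g⁻¹, ?_, ?_, ?_⟩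
    · show g⁻¹ * (g * e * g⁻¹) * g⁻¹⁻¹ ∈ A.E
      rw [_root_.inv_inv, h3]
      exact he
    · intro h4
      apply h1
      rw [← h3, h4]
      group
    · rw [h3]
      exact h2

theorem mem_conj (hS : Small Γ T) (g : Γ) (A : Line Γ T) (x : Γ) :
    x ∈ (A.conj hS g).E ↔ g⁻¹ * x * g ∈ A.E := by
  show g⁻¹ * x * g⁻¹⁻¹ ∈ A.E ↔ _
  rw [_root_.inv_inv]

/-- elements which translate a common arc a little commute -/
theorem comm_of_arc (hS : Small Γ T) {d : ℝ} (hd : 0 < d) {ψ : ℝ → T}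
    (hψ : ψ (d / 4) ≠ ψ (3 * d / 4)) {e f : Γ} {α β : ℝ}
    (hα : |α| < d / 16) (hβ : |β| < d / 16)
    (he : ∀ r, 0 ≤ r → r ≤ d → 0 ≤ r + α → r + α ≤ d → e • ψ r = ψ (r + α))
    (hf : ∀ r, 0 ≤ r → r ≤ d → 0 ≤ r + β → r + β ≤ d → f • ψ r = ψ (r + β)) :
    e * f = f * e := by
  have hα' := abs_lt.1 hα
  have hβ' := abs_lt.1 hβ
  set c := (f * e)⁻¹ * (e * f) with hc
  have hfix : ∀ r, d / 8 ≤ r → r ≤ 7 * d / 8 → c • ψ r = ψ r := by
    intro r h1 h2
    rw [hc, mul_smul, mul_smul e f, hf r (by linarith) (by linarith) (by linarith) (by linarith),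
      he (r + β) (by linarith) (by linarith) (by linarith) (by linarith), inv_smul_eq_iff,
      mul_smul, he r (by linarith) (by linarith) (by linarith) (by linarith),
      hf (r + α) (by linarith) (by linarith) (by linarith) (by linarith)]
    congr 1
    ring
  by_cases h1 : c = 1
  · rw [hc, inv_mul_eq_one] at h1
    exact h1.symm
  have key : ∀ (x : Γ) (γ : ℝ), |γ| < d / 16 →
      (∀ r, 0 ≤ r → r ≤ d → 0 ≤ r + γ → r + γ ≤ d → x • ψ r = ψ (r + γ)) → c * x = x * c := by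
    intro x γ hγ hx
    have hγ' := abs_lt.1 hγ
    have hfix' : ∀ r, d / 4 ≤ r → r ≤ 3 * d / 4 → (x * c * x⁻¹) • ψ r = ψ r := by
      intro r h2 h3
      have h4 := hx (r - γ) (by linarith) (by linarith) (by linarith) (by linarith)
      rw [sub_add_cancel] at h4
      have h5 : x⁻¹ • ψ r = ψ (r - γ) := by rw [← h4, inv_smul_smul]
      rw [mul_smul, mul_smul, h5, hfix _ (by linarith) (by linarith), h4]
    refine hS.csa c x h1 (hS.arc _ _ _ _ hψ (hfix _ (by linarith) (by linarith))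
      (hfix _ (by linarith) (by linarith)) (hfix' _ le_rfl (by linarith))
      (hfix' _ (by linarith) le_rfl))
  exact hS.ct c e f h1 (key e α hα he) (key f β hβ hf)

/-- a signed parameter -/
theorem param (A : Line Γ T) {s s' : ℝ} (h : s ≠ s') : ∃ σ : ℝ, σ * σ = 1 ∧
    s' = s + σ * |s - s'| ∧ ∀ r, 0 ≤ r → r ≤ |s - s'| →
      dist (A.l s) (A.l (s + σ * r)) = r ∧
      dist (A.l (s + σ * r)) (A.l s') = |s - s'| - r := by
  rcases lt_or_gt_of_ne h with h | h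
  · have h1 : |s - s'| = s' - s := by rw [abs_sub_comm, abs_of_pos (by linarith)]
    refine ⟨1, by norm_num, by rw [h1]; ring, fun r h2 h3 => ?_⟩
    rw [h1] at h3 ⊢
    rw [A.iso, A.iso]
    constructor
    · rw [abs_sub_comm, abs_of_nonneg (by linarith)]
      ring
    · rw [abs_sub_comm, abs_of_nonneg (by linarith)]
      ring
  · have h1 : |s - s'| = s - s' := abs_of_pos (by linarith)
    refine ⟨-1, by norm_num, by rw [h1]; ring, fun r h2 h3 => ?_⟩
    rw [h1] at h3 ⊢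
    rw [A.iso, A.iso]
    constructor
    · rw [abs_of_nonneg (by linarith)]
      ring
    · rw [abs_of_nonneg (by linarith)]
      ring

/-- (LA) two lines with two different common points have the same group -/
theorem E_eq (hT : IsRT T) (hS : Small Γ T) (A B : Line Γ T) {P Q : T} (hPQ : P ≠ Q)
    (h1 : P ∈ Set.range A.l) (h2 : Q ∈ Set.range A.l) (h3 : P ∈ Set.range B.l)
    (h4 : Q ∈ Set.range B.l) : A.E = B.E := by
  obtain ⟨s, rfl⟩ := h1
  obtain ⟨s', rfl⟩ := h2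
  obtain ⟨t, ht⟩ := h3
  obtain ⟨t', ht'⟩ := h4
  have hs : s ≠ s' := fun h => hPQ (by rw [h])
  have htt : t ≠ t' := fun h => hPQ (by rw [← ht, ← ht', h])
  have hd : |t - t'| = |s - s'| := by rw [← B.iso, ht, ht', A.iso]
  obtain ⟨σ, hσ, hσ', hσ''⟩ := A.param hs
  obtain ⟨τ, hτ, hτ', hτ''⟩ := B.param htt
  rw [hd] at hτ' hτ''
  set d := |s - s'| with hdd
  have hd0 : 0 < d := abs_pos.2 (sub_ne_zero.2 hs)
  have hψ : ∀ r, 0 ≤ r → r ≤ d → A.l (s + σ * r) = B.l (t + τ * r) := by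
    intro r h1 h2
    obtain ⟨a1, a2⟩ := hσ'' r h1 h2
    obtain ⟨b1, b2⟩ := hτ'' r h1 h2
    rw [ht] at b1
    rw [ht'] at b2
    refine geo_unique hT (p := A.l s) (q := A.l s') ?_ ?_ ?_
    · rw [a1, a2, A.iso]; ring
    · rw [b1, b2, A.iso]; ring
    · rw [a1, b1]
  have hσa : |σ| = 1 := by
    have : |σ| * |σ| = 1 := by rw [← abs_mul, hσ, abs_one]
    nlinarith [abs_nonneg σ]
  have hτa : |τ| = 1 := by
    have : |τ| * |τ| = 1 := by rw [← abs_mul, hτ, abs_one]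
    nlinarith [abs_nonneg τ]
  obtain ⟨e, he, he1, he2⟩ := A.small (d / 16) (by positivity)
  obtain ⟨f, hf, hf1, hf2⟩ := B.small (d / 16) (by positivity)
  have hcomm : e * f = f * e := by
    refine comm_of_arc hS hd0 (ψ := fun r => A.l (s + σ * r)) ?_ (α := σ * A.φ e) (β := τ * B.φ f)
      (by rw [abs_mul, hσa, one_mul]; exact he2) (by rw [abs_mul, hτa, one_mul]; exact hf2) ?_ ?_
    · intro h
      have h5 := A.iso (s + σ * (d / 4)) (s + σ * (3 * d / 4))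
      rw [h, dist_self] at h5
      have h6 : s + σ * (d / 4) - (s + σ * (3 * d / 4)) = σ * (-(d / 2)) := by ring
      rw [h6, abs_mul, hσa, abs_neg, abs_of_pos (by positivity)] at h5
      linarith
    · intro r h5 h6 h7 h8
      rw [A.act e he]
      congr 1
      have h9 : σ * (r + σ * A.φ e) = σ * r + (σ * σ) * A.φ e := by ring
      rw [h9, hσ]
      ring
    · intro r h5 h6 h7 h8
      rw [hψ r h5 h6, hψ _ h7 h8, B.act f hf]
      congr 1
      have h9 : τ * (r + τ * B.φ f) = τ * r + (τ * τ) * B.φ f := by ring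
      rw [h9, hτ]
      ring
  have hab : ∀ a ∈ A.E, ∀ b ∈ B.E, a * b = b * a := by
    intro a ha b hb
    have h5 : f * a = a * f := (hS.ct e a f he1 (A.comm e he a ha) hcomm).symm
    exact hS.ct f a b hf1 h5 (B.comm f hf b hb)
  ext x
  constructor
  · intro hx
    exact B.max x fun b hb => hab x hx b hb
  · intro hx
    exact A.max x fun a ha => (hab a ha x hx).symm

/-- (LA) for translates -/
theorem conj_eq (hT : IsRT T) (hS : Small Γ T) (A B : Line Γ T) {g g' : Γ} {P Q : T} (hPQ : P ≠ Q)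
    (h1 : ∃ s, g • A.l s = P) (h2 : ∃ s, g • A.l s = Q) (h3 : ∃ s, g' • B.l s = P)
    (h4 : ∃ s, g' • B.l s = Q) :
    ∀ x, g⁻¹ * x * g ∈ A.E ↔ g'⁻¹ * x * g' ∈ B.E := by
  have h := E_eq hT hS (A.conj hS g) (B.conj hS g') hPQ h1 h2 h3 h4
  intro x
  rw [← mem_conj hS, ← mem_conj hS, h]

/-- the normaliser of `E` is `E` -/
theorem norm_mem (hS : Small Γ T) (A : Line Γ T) {n : Γ} (hn : ∀ x ∈ A.E, n * x * n⁻¹ ∈ A.E) :
    n ∈ A.E := by
  obtain ⟨a, ha, ha1, -⟩ := A.small 1 one_pos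
  have h1 := hS.csa a n ha1 (A.comm _ ha _ (hn a ha))
  refine A.max n fun e he => ?_
  exact (hS.ct a e n ha1 (A.comm _ ha _ he) h1).symm

end Line

section fam

variable {J I H : Type} {X : Sys J I ℝ} {ρ : FreeGroup J →* Γ} {ι : I → ℝ → T}

/-- the translate `g • l` does not depend on the representative of `g E` -/
theorem range_mk (A : Line Γ T) (k c : Γ) (hc : c ∈ A.E) (P : T) :
    (∃ s, (k * c) • A.l s = P) ↔ ∃ s, k • A.l s = P := by
  constructor
  · rintro ⟨s, hs⟩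
    exact ⟨s + A.φ c, by rw [← A.act c hc, ← mul_smul, hs]⟩
  · rintro ⟨s, hs⟩
    refine ⟨s - A.φ c, ?_⟩
    rw [mul_smul, A.act c hc, sub_add_cancel, hs]

/-- the trace of the line `f` on the component `c` -/
def Trace (X : Sys J I ℝ) (ι : I → ℝ → T) (A : H → Line Γ T) (c : I)
    (f : Σ i, Γ ⧸ (A i).E) : Set ℝ :=
  {x | (X.lo c ≤ x ∧ x ≤ X.hi c) ∧ ∃ s, f.2.out • (A f.1).l s = ι c x}

theorem mem_trace (A : H → Line Γ T) (c : I) (i : H) (k : Γ) (x : ℝ) :
    x ∈ Trace X ι A c ⟨i, (k : Γ ⧸ (A i).E)⟩ ↔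
      (X.lo c ≤ x ∧ x ≤ X.hi c) ∧ ∃ s, k • (A i).l s = ι c x := by
  have h6 : (((k : Γ ⧸ (A i).E)).out : Γ ⧸ (A i).E) = (k : Γ ⧸ (A i).E) :=
    QuotientGroup.out_eq' _
  have h7 := QuotientGroup.eq.1 h6.symm
  have h8 : ((k : Γ ⧸ (A i).E)).out = k * (k⁻¹ * ((k : Γ ⧸ (A i).E)).out) := by group
  show _ ∧ (∃ s, ((k : Γ ⧸ (A i).E)).out • (A i).l s = ι c x) ↔ _
  rw [h8, range_mk (A i) k _ h7]

/-- the lines are in different orbits -/
def Diff (A : H → Line Γ T) : Prop :=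
  ∀ i j, i ≠ j → ∀ g : Γ, ¬ ∀ x, g⁻¹ * x * g ∈ (A i).E ↔ x ∈ (A j).E

theorem lines_tr (hT : IsRT T) (hS : Small Γ T) (A : H → Line Γ T) (hD : Diff A)
    (f f' : Σ i, Γ ⧸ (A i).E) {P Q : T} (hPQ : P ≠ Q)
    (h1 : ∃ s, f.2.out • (A f.1).l s = P) (h2 : ∃ s, f.2.out • (A f.1).l s = Q)
    (h3 : ∃ s, f'.2.out • (A f'.1).l s = P) (h4 : ∃ s, f'.2.out • (A f'.1).l s = Q) :
    f = f' := by
  have h := Line.conj_eq hT hS (A f.1) (A f'.1) hPQ h1 h2 h3 h4
  obtain ⟨i, f⟩ := f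
  obtain ⟨j, f'⟩ := f'
  simp only at h
  by_cases hij : i = j
  · subst hij
    have hn : f.out⁻¹ * f'.out ∈ (A i).E := by
      refine Line.norm_mem hS (A i) fun x hx => ?_
      have h5 := (h (f'.out * x * f'.out⁻¹)).2 (by
        have h6 : f'.out⁻¹ * (f'.out * x * f'.out⁻¹) * f'.out = x := by group
        rw [h6]
        exact hx)
      have h7 : f.out⁻¹ * (f'.out * x * f'.out⁻¹) * f.out =
          f.out⁻¹ * f'.out * x * (f.out⁻¹ * f'.out)⁻¹ := by group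
      rwa [h7] at h5
    have h8 := QuotientGroup.eq.2 hn
    rw [QuotientGroup.out_eq', QuotientGroup.out_eq'] at h8
    rw [h8]
  · exfalso
    refine hD i j hij (f'.out⁻¹ * f.out) fun x => ?_
    have h5 := h (f'.out * x * f'.out⁻¹)
    have h6 : f'.out⁻¹ * (f'.out * x * f'.out⁻¹) * f'.out = x := by group
    have h7 : f.out⁻¹ * (f'.out * x * f'.out⁻¹) * f.out =
          (f'.out⁻¹ * f.out)⁻¹ * x * (f'.out⁻¹ * f.out) := by group
    rwa [h6, h7] at h5

/-- a point between two points of a line is on the line -/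
theorem line_conv (hT : IsRT T) (hS : Small Γ T) (A : Line Γ T) (g : Γ) {P Q R : T}
    (h1 : ∃ s, g • A.l s = P) (h2 : ∃ s, g • A.l s = Q)
    (h : dist P R + dist R Q = dist P Q) : ∃ s, g • A.l s = R := by
  obtain ⟨s, rfl⟩ := h1
  obtain ⟨s', rfl⟩ := h2
  by_cases hss : s = s'
  · subst hss
    rw [dist_self] at h
    have h3 := dist_nonneg (x := g • A.l s) (y := R)
    have h4 := dist_nonneg (x := R) (y := g • A.l s)
    exact ⟨s, dist_le_zero.1 (by linarith)⟩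
  obtain ⟨σ, hσ, hσ', hσ''⟩ := A.param hss
  have h0 := dist_nonneg (x := g • A.l s) (y := R)
  have h0' := dist_nonneg (x := R) (y := g • A.l s')
  have hd : dist (g • A.l s) (g • A.l s') = |s - s'| := by rw [hS.isom, A.iso]
  obtain ⟨h3, h4⟩ := hσ'' (dist (g • A.l s) R) h0 (by rw [← hd, ← h]; linarith)
  refine ⟨s + σ * dist (g • A.l s) R, ?_⟩
  refine geo_unique hT (p := g • A.l s) (q := g • A.l s') ?_ h ?_
  · rw [hS.isom, hS.isom, h3, h4, hd]
    ring
  · rw [hS.isom, h3]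

/-- (LB) the family of the translates of the lines -/
noncomputable def famLines (hT : IsRT T) (hS : Small Γ T) (hX : X.Good) (hR : Rln X ρ ι)
    (A : H → Line Γ T) (hD : Diff A) : Fam X ρ (Σ i, Γ ⧸ (A i).E) :=
  Fam.ofTraces hX (Trace X ι A) (fun i f x hx => hx.1)
    (by
      intro c f
      refine ⟨fun x hx y hy t ht => ⟨⟨hx.1.1.trans ht.1, ht.2.trans hy.1.2⟩, ?_⟩⟩
      refine line_conv hT hS (A f.1) f.2.out hx.2 hy.2 ?_
      have hx1 := hx.1
      have hy1 := hy.1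
      rw [hR.iso c x t hx1.1 hx1.2 (hx1.1.trans ht.1) (ht.2.trans hy1.2),
        hR.iso c t y (hx1.1.trans ht.1) (ht.2.trans hy1.2) hy1.1 hy1.2,
        hR.iso c x y hx1.1 hx1.2 hy1.1 hy1.2, abs_of_nonpos (by linarith [ht.1]),
        abs_of_nonpos (by linarith [ht.2]), abs_of_nonpos (by linarith [ht.1, ht.2])]
      ring)
    (by
      intro c f f' x y hxf hxf' hyf hyf' hne
      refine lines_tr hT hS A hD f f' (P := ι c x) (Q := ι c y) ?_ hxf.2 hyf.2 hxf'.2 hyf'.2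
      intro h
      have h1 := hR.iso c x y hxf.1.1 hxf.1.2 hyf.1.1 hyf.1.2
      rw [h, dist_self] at h1
      exact hne (sub_eq_zero.1 (abs_eq_zero.1 h1.symm)))
    (by
      intro σ x f h6 h7 hx
      obtain ⟨i, f⟩ := f
      induction f using QuotientGroup.induction_on with
      | H k =>
        have h8 := (mem_trace A (X.dc σ) i k x).1 hx
        have h9 : ρ (sg σ) • (⟨i, (k : Γ ⧸ (A i).E)⟩ : Σ i, Γ ⧸ (A i).E) =
          ⟨i, ((ρ (sg σ) * k : Γ) : Γ ⧸ (A i).E)⟩ := rfl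
        rw [h9, mem_trace]
        have h10 : X.OK 0 σ (x, true) := (X.OK_iff 0 σ x true).2 ⟨by linarith, by linarith⟩
        have h11 : X.OK 0 (inv σ) (X.mv σ (x, true)) := (X.OK_mv 0 σ (x, true)).2 h10
        have h12 := (X.OK_iff 0 (inv σ) (X.mv σ (x, true)).1 (X.mv σ (x, true)).2).1 h11
        have h13 : (X.mv σ (x, true)).1 = X.mvx σ x := rfl
        rw [h13] at h12
        have h14 := hX.dom (inv σ)
        refine ⟨⟨by linarith, by linarith⟩, ?_⟩
        rw [hR.band σ x h6 h7]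
        obtain ⟨s, hs⟩ := h8.2
        exact ⟨s, by rw [mul_smul, hs]⟩)

theorem famLines_p (hT : IsRT T) (hS : Small Γ T) (hX : X.Good) (hR : Rln X ρ ι)
    (A : H → Line Γ T) (hD : Diff A) (c : I × Σ i, Γ ⧸ (A i).E) :
    (famLines hT hS hX hR A hD).p c = sInf (Trace X ι A c.1 c.2) := rfl

theorem famLines_q (hT : IsRT T) (hS : Small Γ T) (hX : X.Good) (hR : Rln X ρ ι)
    (A : H → Line Γ T) (hD : Diff A) (c : I × Σ i, Γ ⧸ (A i).E) :
    (famLines hT hS hX hR A hD).q c = sSup (Trace X ι A c.1 c.2) := rfl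

/-- the part of a component which is on the line -/
theorem famLines_le (hT : IsRT T) (hS : Small Γ T) (hX : X.Good) (hR : Rln X ρ ι)
    (A : H → Line Γ T) (hD : Diff A) {c : I} {x y : ℝ} {i : H} {g : Γ}
    (hx : X.lo c ≤ x) (hxy : x < y) (hy : y ≤ X.hi c) (h1 : ∃ s, g • (A i).l s = ι c x)
    (h2 : ∃ s, g • (A i).l s = ι c y) :
    (famLines hT hS hX hR A hD).p (c, ⟨i, (g : Γ ⧸ (A i).E)⟩) ≤ x ∧
      y ≤ (famLines hT hS hX hR A hD).q (c, ⟨i, (g : Γ ⧸ (A i).E)⟩) := by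
  have hx' : x ∈ Trace X ι A c ⟨i, (g : Γ ⧸ (A i).E)⟩ :=
    (mem_trace A c i g x).2 ⟨⟨hx, by linarith⟩, h1⟩
  have hy' : y ∈ Trace X ι A c ⟨i, (g : Γ ⧸ (A i).E)⟩ :=
    (mem_trace A c i g y).2 ⟨⟨by linarith, hy⟩, h2⟩
  exact ⟨csInf_le ⟨X.lo c, fun x hx => hx.1.1⟩ hx', le_csSup ⟨X.hi c, fun x hx => hx.1.2⟩ hy'⟩

/-- conversely: the points strictly between `p` and `q` are on the line -/
theorem famLines_mem (hT : IsRT T) (hS : Small Γ T) (hX : X.Good) (hR : Rln X ρ ι)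
    (A : H → Line Γ T) (hD : Diff A) {c : I} {x : ℝ} {i : H} {g : Γ}
    (h1 : (famLines hT hS hX hR A hD).p (c, ⟨i, (g : Γ ⧸ (A i).E)⟩) < x)
    (h2 : x < (famLines hT hS hX hR A hD).q (c, ⟨i, (g : Γ ⧸ (A i).E)⟩)) :
    (X.lo c ≤ x ∧ x ≤ X.hi c) ∧ ∃ s, g • (A i).l s = ι c x := by
  rw [famLines_p] at h1
  rw [famLines_q] at h2
  simp only at h1 h2
  rw [← mem_trace A c i g x]
  set S := Trace X ι A c ⟨i, (g : Γ ⧸ (A i).E)⟩ with hS'
  have hne : S.Nonempty := by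
    rw [Set.nonempty_iff_ne_empty]
    intro h'
    rw [h'] at h1 h2
    simp at h1 h2
    linarith
  obtain ⟨y, hy, hyx⟩ := exists_lt_of_csInf_lt hne h1
  obtain ⟨z, hz, hxz⟩ := exists_lt_of_lt_csSup hne h2
  -- convexity
  have hy1 := hy.1
  have hz1 := hz.1
  refine ⟨⟨by linarith [hy1.1], by linarith [hz1.2]⟩, ?_⟩
  refine line_conv hT hS (A i) _ hy.2 hz.2 ?_
  rw [hR.iso c y x hy1.1 hy1.2 (by linarith [hy1.1]) (by linarith [hz1.2]),
    hR.iso c x z (by linarith [hy1.1]) (by linarith [hz1.2]) hz1.1 hz1.2,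
    hR.iso c y z hy1.1 hy1.2 hz1.1 hz1.2, abs_of_nonpos (by linarith),
    abs_of_nonpos (by linarith), abs_of_nonpos (by linarith)]
  ring

/-- (LB) the stabiliser statement -/
theorem lines_stab (A : H → Line Γ T) (w k k' : Γ) (i j : H) :
    w • (⟨i, (k : Γ ⧸ (A i).E)⟩ : Σ i, Γ ⧸ (A i).E) = ⟨j, (k' : Γ ⧸ (A j).E)⟩ ↔
      ∃ h : i = j, k'⁻¹ * w * k ∈ (A j).E := by
  have h1 : w • (⟨i, (k : Γ ⧸ (A i).E)⟩ : Σ i, Γ ⧸ (A i).E) =
    ⟨i, ((w * k : Γ) : Γ ⧸ (A i).E)⟩ := rfl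
  rw [h1]
  constructor
  · intro h
    have h2 : i = j := congrArg Sigma.fst h
    subst h2
    refine ⟨rfl, ?_⟩
    have h3 := eq_of_heq (Sigma.mk.inj h).2
    have h4 := QuotientGroup.eq.1 h3.symm
    rwa [mul_assoc]
  · rintro ⟨rfl, h2⟩
    rw [mul_assoc] at h2
    have h3 := QuotientGroup.eq.2 h2
    rw [h3]

end fam

end Pool.Agent.FrC2
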