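import Pool.Agent.Lib.MP_305fdd_al.Fr.C2.Out
import Pool.Agent.Lib.MP_305fdd_al.Fr.C2.Fam
import Pool.Agent.Lib.MP_305fdd_al.Fr.R.SSmall2

/-!
# MP_305fdd_al, F_r, Case B: distances to the lines of the real tree of `SL₂`, their perturbation, and
the lines of the vertex groups
-/

set_option autoImplicit false

namespace Pool.Agent.FrC2

open Pool.Agent.FrS Pool.Agent.FrR Matrix

section dist

variable {L : Type} [Field L]

open Classical in
/-- the smallest value of a nonzero entry of the column `j` of `k` -/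
noncomputable def cm (x : RV L) (k : SpecialLinearGroup (Fin 2) L) (j : Fin 2) : ℝ :=
  if k.1 0 j = 0 then x.v (k.1 1 j) else if k.1 1 j = 0 then x.v (k.1 0 j)
  else min (x.v (k.1 0 j)) (x.v (k.1 1 j))

theorem col_ne (k : SpecialLinearGroup (Fin 2) L) (j : Fin 2) :
    ¬ (k.1 0 j = 0 ∧ k.1 1 j = 0) := by
  rintro ⟨h1, h2⟩
  have h := det_one k
  fin_cases j
  · simp only [Fin.zero_eta, Fin.isValue] at h1 h2
    rw [h1, h2] at h
    simp at h
  · simp only [Fin.mk_one, Fin.isValue] at h1 h2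
    rw [h1, h2] at h
    simp at h

theorem le_cm_iff (x : RV L) (k : SpecialLinearGroup (Fin 2) L) (j : Fin 2) (c : ℝ) :
    c ≤ cm x k j ↔ x.Ge c (k.1 0 j) ∧ x.Ge c (k.1 1 j) := by
  have hne := col_ne k j
  unfold cm
  by_cases h0 : k.1 0 j = 0
  · have h1 : k.1 1 j ≠ 0 := fun h => hne ⟨h0, h⟩
    rw [if_pos h0, x.ge_iff h1]
    exact ⟨fun h => ⟨Or.inl h0, h⟩, fun h => h.2⟩
  · rw [if_neg h0]
    by_cases h1 : k.1 1 j = 0
    · rw [if_pos h1, x.ge_iff h0]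
      exact ⟨fun h => ⟨h, Or.inl h1⟩, fun h => h.1⟩
    · rw [if_neg h1, x.ge_iff h0, x.ge_iff h1, le_min_iff]

/-- the distance of the base point from the line of `k` -/
noncomputable def Dk (x : RV L) (k : SpecialLinearGroup (Fin 2) L) : ℝ :=
  -(cm x k 0 + cm x k 1) / 2

/-- the parameter of the projection of the base point -/
noncomputable def Sk (x : RV L) (k : SpecialLinearGroup (Fin 2) L) : ℝ :=
  (cm x k 0 - cm x k 1) / 2

/-- (D1) -/
theorem dist_bp_cls (x : RV L) (k : SpecialLinearGroup (Fin 2) L) (s : ℝ) :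
    dist (bp x) (cls (⟨k, s⟩ : Pre x)) = Dk x k + |s - Sk x k| := by
  have key : ∀ c : ℝ, dist (bp x) (cls (⟨k, s⟩ : Pre x)) ≤ c ↔
      s - c ≤ cm x k 0 ∧ -s - c ≤ cm x k 1 := by
    intro c
    rw [bp, dist_cls, Pre.dd_le_iff, le_cm_iff, le_cm_iff]
    have w0 : ∀ j, Pre.wd (⟨1, 0⟩ : Pre x) (⟨k, s⟩ : Pre x) 0 j = k.1 1 j := fun j => by
      simp [Pre.wd]
    have w1 : ∀ j, Pre.wd (⟨1, 0⟩ : Pre x) (⟨k, s⟩ : Pre x) 1 j = - k.1 0 j := fun j => by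
      simp [Pre.wd]
    rw [Fin.forall_fin_two, Fin.forall_fin_two, Fin.forall_fin_two, w0, w0, w1, w1]
    simp only [wt_zero, wt_one, neg_zero, zero_add]
    constructor
    · rintro ⟨⟨b1, b2⟩, b3, b4⟩
      exact ⟨⟨by simpa using b3.neg, b1⟩, ⟨by simpa using b4.neg, b2⟩⟩
    · rintro ⟨⟨b3, b1⟩, b4, b2⟩
      exact ⟨⟨b1, b2⟩, b3.neg, b4.neg⟩
  apply le_antisymm
  · rw [key]
    unfold Dk Sk
    have h1 := le_abs_self (s - (cm x k 0 - cm x k 1) / 2)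
    have h2 := neg_abs_le (s - (cm x k 0 - cm x k 1) / 2)
    constructor <;> linarith
  · obtain ⟨h1, h2⟩ := (key _).1 le_rfl
    unfold Dk Sk
    rcases abs_cases (s - (cm x k 0 - cm x k 1) / 2) with ⟨h3, -⟩ | ⟨h3, -⟩ <;> rw [h3] <;>
      linarith

theorem Dk_nonneg (x : RV L) (k : SpecialLinearGroup (Fin 2) L) : 0 ≤ Dk x k := by
  have h := dist_bp_cls x k (Sk x k)
  rw [sub_self, abs_zero, add_zero] at h
  rw [← h]
  exact dist_nonneg

/-- the values of `L₀` at halves -/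
theorem map_half (L₀ : ℝ →+ ℚ) (c : ℝ) : (L₀ (c / 2) : ℝ) = (L₀ c : ℝ) / 2 := by
  have h : L₀ c = L₀ (c / 2) + L₀ (c / 2) := by
    rw [← map_add, add_halves]
  rw [h]
  push_cast
  ring

/-- (D2) perturbation of the distance and of the projection -/
theorem perturb {H : Type} [Finite H] (x : RV L) (k : H → SpecialLinearGroup (Fin 2) L) :
    ∃ (A₁ : Finset L) (F₁ : Finset ℝ), (∀ r ∈ F₁, 0 < r) ∧
      ∀ (L₀ : ℝ →+ ℚ), (∀ r ∈ F₁, 0 < L₀ r) → ∀ (x' : RV L),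
        (∀ a ∈ A₁, x'.v a = (L₀ (x.v a) : ℝ)) →
        ∀ h, Dk x' (k h) = (L₀ (Dk x (k h)) : ℝ) ∧ Sk x' (k h) = (L₀ (Sk x (k h)) : ℝ) := by
  classical
  have := Fintype.ofFinite H
  refine ⟨Finset.univ.image (fun z : H × Fin 2 × Fin 2 => (k z.1).1 z.2.1 z.2.2),
    (Finset.univ.image (fun z : H × Fin 2 × Fin 2 × Fin 2 =>
      x.v ((k z.1).1 z.2.2.1 z.2.1) - x.v ((k z.1).1 z.2.2.2 z.2.1))).filter (fun r => 0 < r),
    fun r hr => (Finset.mem_filter.1 hr).2, ?_⟩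
  intro L₀ hL x' hx'
  have hv : ∀ h i j, x'.v ((k h).1 i j) = (L₀ (x.v ((k h).1 i j)) : ℝ) := fun h i j =>
    hx' _ (Finset.mem_image.2 ⟨(h, i, j), Finset.mem_univ _, rfl⟩)
  have hlt : ∀ h i i' j, x.v ((k h).1 i j) < x.v ((k h).1 i' j) →
      (L₀ (x.v ((k h).1 i j)) : ℝ) ≤ (L₀ (x.v ((k h).1 i' j)) : ℝ) := by
    intro h i i' j hlt
    have h1 := hL (x.v ((k h).1 i' j) - x.v ((k h).1 i j)) (by
      rw [Finset.mem_filter]
      exact ⟨Finset.mem_image.2 ⟨(h, j, i', i), Finset.mem_univ _, rfl⟩, by linarith⟩)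
    rw [map_sub] at h1
    have h2 : L₀ (x.v ((k h).1 i j)) ≤ L₀ (x.v ((k h).1 i' j)) := by linarith
    exact_mod_cast h2
  have hcm : ∀ h j, cm x' (k h) j = (L₀ (cm x (k h) j) : ℝ) := by
    intro h j
    unfold cm
    split_ifs with h0 h1
    · exact hv h 1 j
    · exact hv h 0 j
    · rw [hv, hv]
      rcases lt_trichotomy (x.v ((k h).1 0 j)) (x.v ((k h).1 1 j)) with h2 | h2 | h2
      · rw [min_eq_left h2.le, min_eq_left (hlt h 0 1 j h2)]
      · rw [h2, min_self, min_self]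
      · rw [min_eq_right h2.le, min_eq_right (hlt h 1 0 j h2)]
  intro h
  constructor
  · unfold Dk
    rw [hcm, hcm, map_half, map_neg, map_add]
    push_cast
    ring
  · unfold Sk
    rw [hcm, hcm, map_half, map_sub]
    push_cast
    ring

/-- (D3) diagonal elements are translations -/
theorem smul_diag (x : RV L) (k g : SpecialLinearGroup (Fin 2) L)
    (h01 : (k⁻¹ * g * k).1 0 1 = 0) (h10 : (k⁻¹ * g * k).1 1 0 = 0) (s : ℝ) :
    g • cls (⟨k, s⟩ : Pre x) = cls (⟨k, s - x.v ((k⁻¹ * g * k).1 0 0)⟩ : Pre x) := by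
  rw [smul_coord k g _ rfl]
  have hd := det_one (k⁻¹ * g * k)
  rw [h01, h10, mul_zero, sub_zero] at hd
  have h0 : (k⁻¹ * g * k).1 0 0 ≠ 0 := left_ne_zero_of_mul_eq_one hd
  have h1 : (k⁻¹ * g * k).1 1 1 ≠ 0 := right_ne_zero_of_mul_eq_one hd
  have hv := x.v_mul h0 h1
  rw [hd, x.v_one] at hv
  refine ⟨Or.inl h10, Or.inr ?_, Or.inr ?_, Or.inl h01⟩
  · linarith
  · linarith

end dist

section eg

variable {Γ L : Type} [Group Γ] [Field L] {ρ : Γ →* SpecialLinearGroup (Fin 2) L}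
  {k : SpecialLinearGroup (Fin 2) L}

/-- diagonal in the basis `k` -/
def Dg (ρ : Γ →* SpecialLinearGroup (Fin 2) L) (k : SpecialLinearGroup (Fin 2) L) (z : Γ) : Prop :=
  (k⁻¹ * ρ z * k).1 0 1 = 0 ∧ (k⁻¹ * ρ z * k).1 1 0 = 0

theorem eg_one : eg ρ k 1 = 1 := by
  unfold eg
  rw [map_one, mul_one, inv_mul_cancel]
  rfl

theorem eg_mul {z w : Γ} (hz : Dg ρ k z) : eg ρ k (z * w) = eg ρ k z * eg ρ k w := by
  unfold eg
  have h : k⁻¹ * ρ (z * w) * k = (k⁻¹ * ρ z * k) * (k⁻¹ * ρ w * k) := by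
    rw [map_mul]
    group
  rw [h, mul_app, hz.1, zero_mul, add_zero]

theorem eg_ne {z : Γ} (hz : Dg ρ k z) : eg ρ k z ≠ 0 := by
  have hd := det_one (k⁻¹ * ρ z * k)
  rw [hz.1, zero_mul, sub_zero] at hd
  exact left_ne_zero_of_mul_eq_one hd

theorem eg_inv {z : Γ} (hz : Dg ρ k z) : eg ρ k z⁻¹ = (eg ρ k z)⁻¹ := by
  have h := eg_mul (w := z⁻¹) hz
  rw [mul_inv_cancel, eg_one] at h
  exact (inv_eq_of_mul_eq_one_right h.symm).symm

theorem v_eg_mul (x : RV L) {z w : Γ} (hz : Dg ρ k z) (hw : Dg ρ k w) :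
    x.v (eg ρ k (z * w)) = x.v (eg ρ k z) + x.v (eg ρ k w) := by
  rw [eg_mul hz, x.v_mul (eg_ne hz) (eg_ne hw)]

theorem v_eg_one (x : RV L) : x.v (eg ρ k 1) = 0 := by rw [eg_one, x.v_one]

theorem v_eg_inv (x : RV L) {z : Γ} (hz : Dg ρ k z) :
    x.v (eg ρ k z⁻¹) = - x.v (eg ρ k z) := by rw [eg_inv hz, x.v_inv (eg_ne hz)]

/-- (D5) the perturbed values, from generators -/
theorem v_eg_of_gen (x x' : RV L) (L₀ : ℝ →+ ℚ) {Z : Subgroup Γ} (hZ : ∀ z ∈ Z, Dg ρ k z)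
    {S : Set Γ} (hS : Subgroup.closure S = Z)
    (h : ∀ z ∈ S, x'.v (eg ρ k z) = (L₀ (x.v (eg ρ k z)) : ℝ)) :
    ∀ z ∈ Z, x'.v (eg ρ k z) = (L₀ (x.v (eg ρ k z)) : ℝ) := by
  intro z hz
  rw [← hS] at hz
  induction hz using Subgroup.closure_induction with
  | mem z hz => exact h z hz
  | one => rw [v_eg_one, v_eg_one, map_zero]; norm_num
  | mul z w hz hw h1 h2 =>
    rw [hS] at hz hw
    rw [v_eg_mul x' (hZ z hz) (hZ w hw), v_eg_mul x (hZ z hz) (hZ w hw), h1, h2, map_add]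
    push_cast
    ring
  | inv z hz h1 =>
    rw [hS] at hz
    rw [v_eg_inv x' (hZ z hz), v_eg_inv x (hZ z hz), h1, map_neg]
    push_cast
    ring

/-- the trace and the eigenvalue -/
theorem tr_eg {z : Γ} (hz : Dg ρ k z) :
    tr (ρ z) = eg ρ k z + (eg ρ k z)⁻¹ := by
  have hd := det_one (k⁻¹ * ρ z * k)
  rw [hz.1, zero_mul, sub_zero] at hd
  rw [← tr_conj k]
  unfold FrR.tr eg
  congr 1
  exact eq_inv_of_mul_eq_one_right hd

end eg

section line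

variable {Γ L H ι : Type} [Group Γ] [Field L] {ρ : Γ →* SpecialLinearGroup (Fin 2) L}
  {x : RV L} {P : Subgroup Γ} {Z : H → Subgroup Γ} {k : H → SpecialLinearGroup (Fin 2) L}
  {E : ι → Subgroup Γ}

namespace LineIn

theorem dgZ (h : LineIn ρ x P Z k E) (i : H) {z : Γ} (hz : z ∈ Z i) : Dg ρ (k i) z := h.dg i z hz

/-- (D4) semi-good position -/
theorem SG [CharP L 2] (h : LineIn ρ x P Z k E) : SG x (P.map ρ) := by
  have h2 : (2 : L) = 0 := CharTwo.two_eq_zero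
  have key : ∀ g ∈ P.map ρ, g ≠ 1 → tr g ≠ 0 ∧ x.v (tr g) ≤ 0 := by
    rintro _ ⟨g, hg, rfl⟩ h1
    exact h.sg g hg fun h3 => h1 (by rw [h3, map_one])
  refine ⟨fun g hg h1 => ?_, fun g hg h1 => ?_, key⟩
  · rw [h2, sub_zero]
    exact key g hg h1
  · rw [h2, add_zero]
    exact key g hg h1

theorem small' [CharP L 2] (h : LineIn ρ x P Z k E) : Small (P.map ρ) (Tr x) := h.SG.small

/-- (D4) the line of `Z i` -/
noncomputable def line (h : LineIn ρ x P Z k E) (i : H) : Line (P.map ρ) (Tr x) where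
  E := ((Z i).map ρ).subgroupOf (P.map ρ)
  l s := cls (⟨k i, s⟩ : Pre x)
  φ g := - x.v (((k i)⁻¹ * g.1 * k i).1 0 0)
  comm := by
    rintro ⟨_, a', ha', rfl⟩ ⟨a, ha, haa⟩ ⟨_, b', hb', rfl⟩ ⟨b, hb, hbb⟩
    apply Subtype.ext
    have haa' : ρ a = ρ a' := haa
    have hbb' : ρ b = ρ b' := hbb
    show ρ a' * ρ b' = ρ b' * ρ a'
    rw [← haa', ← hbb', ← map_mul, ← map_mul, h.comm i a ha b hb]
  iso s t := dist_same (k i) s t
  act := by
    rintro ⟨_, a', ha', rfl⟩ ⟨a, ha, haa⟩ s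
    have haa' : ρ a = ρ a' := haa
    obtain ⟨h1, h2⟩ := h.dg i a ha
    have h3 := smul_diag x (k i) (ρ a) h1 h2 s
    show ρ a' • cls (⟨k i, s⟩ : Pre x) = cls (⟨k i, s + -x.v (((k i)⁻¹ * ρ a' * k i).1 0 0)⟩ : Pre x)
    rw [← haa', ← sub_eq_add_neg]
    exact h3
  max := by
    rintro ⟨_, a, ha, rfl⟩ hc
    refine ⟨a, h.max i a ha fun z hz => h.inj ?_, rfl⟩
    have h1 := congrArg Subtype.val (hc ⟨ρ z, z, h.ZP i hz, rfl⟩ ⟨z, hz, rfl⟩)
    rw [map_mul, map_mul]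
    exact h1
  small := by
    intro ε hε
    obtain ⟨z, hz, h1, h2⟩ := h.small i ε hε
    refine ⟨⟨ρ z, z, h.ZP i hz, rfl⟩, ⟨z, hz, rfl⟩, ?_, ?_⟩
    · intro h3
      apply h1
      apply h.inj
      rw [map_one]
      exact congrArg Subtype.val h3
    · show |-x.v (eg ρ (k i) z)| < ε
      rw [abs_neg]
      exact h2

theorem mem_line (h : LineIn ρ x P Z k E) (i : H) (z : Γ) (hz : ρ z ∈ P.map ρ) :
    (⟨ρ z, hz⟩ : P.map ρ) ∈ (h.line i).E ↔ z ∈ Z i := by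
  constructor
  · rintro ⟨a, ha, haa⟩
    have : ρ a = ρ z := haa
    rw [← h.inj this]
    exact ha
  · intro h1
    exact ⟨z, h1, rfl⟩

theorem line_l (h : LineIn ρ x P Z k E) (i : H) (s : ℝ) :
    (h.line i).l s = cls (⟨k i, s⟩ : Pre x) := rfl

theorem line_φ (h : LineIn ρ x P Z k E) (i : H) (z : Γ) (hz : ρ z ∈ P.map ρ) :
    (h.line i).φ ⟨ρ z, hz⟩ = - x.v (eg ρ (k i) z) := rfl

/-- (D4) the lines are in different orbits -/
theorem line_diff (h : LineIn ρ x P Z k E) : Diff h.line := by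
  intro i j hij g hg
  obtain ⟨_, g, hgP, rfl⟩ := g
  apply h.diff i j hij g hgP
  intro y
  have hP : ∀ y, y ∈ P → ρ y ∈ P.map ρ := fun y hy => ⟨y, hy, rfl⟩
  by_cases hy : y ∈ P
  · have h1 := hg ⟨ρ y, hP y hy⟩
    have h2 : g⁻¹ * y * g ∈ P := P.mul_mem (P.mul_mem (P.inv_mem hgP) hy) hgP
    rw [h.mem_line j y (hP y hy)] at h1
    rw [← h1, ← h.mem_line i _ (hP _ h2)]
    have h3 : (⟨ρ (g⁻¹ * y * g), hP _ h2⟩ : P.map ρ) =
        (⟨ρ g, hP g hgP⟩ : P.map ρ)⁻¹ * ⟨ρ y, hP y hy⟩ * ⟨ρ g, hP g hgP⟩ := by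
      apply Subtype.ext
      show ρ (g⁻¹ * y * g) = (ρ g)⁻¹ * ρ y * ρ g
      rw [map_mul, map_mul, map_inv]
    rw [h3]
  · constructor
    · intro h1
      exfalso
      apply hy
      have h2 := h.ZP i h1
      have h3 : y = g * (g⁻¹ * y * g) * g⁻¹ := by group
      rw [h3]
      exact P.mul_mem (P.mul_mem hgP h2) (P.inv_mem hgP)
    · intro h1
      exact absurd (h.ZP j h1) hy

/-- an element with positive translation -/
theorem exists_pos (h : LineIn ρ x P Z k E) (i : H) : ∃ z ∈ Z i, 0 < - x.v (eg ρ (k i) z) := by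
  obtain ⟨z, hz, h1⟩ := h.hyp i
  rcases lt_or_gt_of_ne h1 with h2 | h2
  · exact ⟨z, hz, by linarith⟩
  · refine ⟨z⁻¹, (Z i).inv_mem hz, ?_⟩
    rw [v_eg_inv x (h.dgZ i hz)]
    linarith

/-- (D5) a finite set `A₁` such that the perturbed values are given by `L₀` on all `Z i` -/
theorem exists_gen [Finite H] (h : LineIn ρ x P Z k E) : ∃ A₁ : Finset L,
    ∀ (L₀ : ℝ →+ ℚ) (x' : RV L), (∀ a ∈ A₁, x'.v a = (L₀ (x.v a) : ℝ)) →
      ∀ i, ∀ z ∈ Z i, x'.v (eg ρ (k i) z) = (L₀ (x.v (eg ρ (k i) z)) : ℝ) := by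
  classical
  have := Fintype.ofFinite H
  choose S hS using fun i => h.fgZ i
  refine ⟨Finset.univ.biUnion fun i => (S i).image (eg ρ (k i)), ?_⟩
  intro L₀ x' hx' i
  refine v_eg_of_gen x x' L₀ (fun z hz => h.dg i z hz) (hS i) fun z hz => hx' _ ?_
  rw [Finset.mem_biUnion]
  exact ⟨i, Finset.mem_univ _, Finset.mem_image_of_mem _ hz⟩

end LineIn

end line

end Pool.Agent.FrC2
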