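import Pool.Agent.Lib.MP_305fdd_al.Fr.C2.Out
import Pool.Agent.Lib.MP_305fdd_al.Fr.S.Bend
import Pool.Agent.Lib.MP_305fdd_al.Fr.P.Ext
import Pool.Agent.Lib.MP_305fdd_al.Fr.A.Main
import Pool.Agent.Lib.MP_305fdd_al.Fr.Z.Exist

/-!
# MP_305fdd_al, F_r, Case 2: eigenvalues, approximation of the valuation
-/

set_option autoImplicit false
set_option linter.unusedSectionVars false
set_option linter.unusedVariables false

namespace Pool.Agent.FrCB

open Pool.Agent.FrC2 Pool.Agent.FrS Pool.Agent.FrR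
open Matrix (SpecialLinearGroup)

section

variable {Γ Ω : Type} [Group Γ] [Field Ω] {r : Γ →* SpecialLinearGroup (Fin 2) Ω}
  {k : SpecialLinearGroup (Fin 2) Ω}

/-- diagonal in the basis `k` -/
def Dg (r : Γ →* SpecialLinearGroup (Fin 2) Ω) (k : SpecialLinearGroup (Fin 2) Ω) (z : Γ) : Prop :=
  (k⁻¹ * r z * k).1 0 1 = 0 ∧ (k⁻¹ * r z * k).1 1 0 = 0

theorem Dg.det {z : Γ} (h : Dg r k z) : eg r k z * (k⁻¹ * r z * k).1 1 1 = 1 := by
  have h1 := det_one (k⁻¹ * r z * k)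
  rw [h.1, zero_mul, sub_zero] at h1
  exact h1

theorem Dg.ne {z : Γ} (h : Dg r k z) : eg r k z ≠ 0 := left_ne_zero_of_mul_eq_one h.det

theorem Dg.inv11 {z : Γ} (h : Dg r k z) : (k⁻¹ * r z * k).1 1 1 = (eg r k z)⁻¹ :=
  eq_inv_of_mul_eq_one_right h.det

theorem Dg.tr_eq {z : Γ} (h : Dg r k z) : FrR.tr (r z) = eg r k z + (eg r k z)⁻¹ := by
  rw [← h.inv11, ← FrR.tr_conj k (r z)]
  rfl

theorem Dg.one : Dg r k 1 := by
  unfold Dg
  rw [map_one, mul_one, inv_mul_cancel]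
  exact ⟨rfl, rfl⟩

theorem eg_one : eg r k 1 = 1 := by
  unfold eg
  rw [map_one, mul_one, inv_mul_cancel]
  rfl

theorem conj_mul' (z w : Γ) : k⁻¹ * r (z * w) * k = (k⁻¹ * r z * k) * (k⁻¹ * r w * k) := by
  rw [map_mul]; group

theorem Dg.mul {z w : Γ} (h : Dg r k z) (h' : Dg r k w) : Dg r k (z * w) := by
  unfold Dg at h h' ⊢
  rw [conj_mul']
  generalize k⁻¹ * r z * k = X at h
  generalize k⁻¹ * r w * k = Y at h'
  rw [FrR.mul_app, FrR.mul_app, h.1, h.2, h'.1, h'.2]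
  simp

theorem Dg.eg_mul {z w : Γ} (h : Dg r k z) (h' : Dg r k w) :
    eg r k (z * w) = eg r k z * eg r k w := by
  unfold Dg at h
  unfold eg
  rw [conj_mul']
  generalize k⁻¹ * r z * k = X at h
  rw [FrR.mul_app, h.1, zero_mul, add_zero]

theorem Dg.inv {z : Γ} (h : Dg r k z) : Dg r k z⁻¹ := by
  have h1 : k⁻¹ * r z⁻¹ * k = (k⁻¹ * r z * k)⁻¹ := by rw [map_inv]; group
  unfold Dg
  rw [h1, inv01, inv10, h.1, h.2]
  simp

theorem Dg.hy [CharP Ω 2] {z : Γ} (h : Dg r k z) (V : RV Ω) :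
    V.v (FrR.tr (r z)) < 0 ↔ V.v (eg r k z) ≠ 0 := by
  have hne := h.ne
  have hi := V.v_inv hne
  rw [h.tr_eq]
  constructor
  · intro h1 h2
    rw [h2, neg_zero] at hi
    by_cases h0 : eg r k z + (eg r k z)⁻¹ = 0
    · rw [h0, V.isV.zero] at h1
      exact lt_irrefl _ h1
    · have h3 := V.isV.add _ _ hne (inv_ne_zero hne) h0
      rw [h2, hi, min_self] at h3
      exact absurd h1 (not_lt.2 h3)
  · intro h2
    have h0 : eg r k z + (eg r k z)⁻¹ ≠ 0 := by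
      intro h0
      have h3 : eg r k z = (eg r k z)⁻¹ := by
        rw [← CharTwo.add_eq_zero]; exact h0
      rw [← h3] at hi
      apply h2
      linarith
    -- the value of the sum is minus the absolute value
    by_contra hcon
    rw [not_lt] at hcon
    rcases lt_or_gt_of_ne h2 with h3 | h3
    · -- `V ψ < 0`: `ψ = (ψ + ψ⁻¹) + ψ⁻¹`
      have h4 : eg r k z = (eg r k z + (eg r k z)⁻¹) + (eg r k z)⁻¹ := by
        rw [add_assoc, CharTwo.add_self_eq_zero, add_zero]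
      have h5 := V.isV.add _ _ h0 (inv_ne_zero hne) (by rw [← h4]; exact hne)
      rw [← h4, hi] at h5
      rcases min_le_iff.1 h5 with h6 | h6 <;> linarith
    · have h4 : (eg r k z)⁻¹ = (eg r k z + (eg r k z)⁻¹) + eg r k z := by
        rw [add_comm (eg r k z), add_assoc, CharTwo.add_self_eq_zero, add_zero]
      have h5 := V.isV.add _ _ h0 hne (by rw [← h4]; exact inv_ne_zero hne)
      rw [← h4, hi] at h5
      rcases min_le_iff.1 h5 with h6 | h6 <;> linarith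

/-- the additive function on a diagonal group -/
theorem Dg.v_mul {z w : Γ} (h : Dg r k z) (h' : Dg r k w) (V : RV Ω) :
    V.v (eg r k (z * w)) = V.v (eg r k z) + V.v (eg r k w) := by
  rw [h.eg_mul h', V.v_mul h.ne h'.ne]

theorem v_eg_one (V : RV Ω) : V.v (eg r k 1) = 0 := by rw [eg_one, V.v_one]

theorem Dg.v_inv {z : Γ} (h : Dg r k z) (V : RV Ω) : V.v (eg r k z⁻¹) = - V.v (eg r k z) := by
  have h1 := h.v_mul h.inv V
  rw [mul_inv_cancel, v_eg_one] at h1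
  linarith

theorem Dg.zpow {z : Γ} (h : Dg r k z) (n : ℤ) : Dg r k (z ^ n) := by
  induction n with
  | zero => rw [zpow_zero]; exact Dg.one
  | succ n ih => rw [zpow_add_one]; exact ih.mul h
  | pred n ih => rw [zpow_sub_one]; exact ih.mul h.inv

theorem Dg.v_zpow {z : Γ} (h : Dg r k z) (V : RV Ω) (n : ℤ) :
    V.v (eg r k (z ^ n)) = n * V.v (eg r k z) := by
  induction n with
  | zero => rw [zpow_zero, v_eg_one]; simp
  | succ n ih =>
    rw [zpow_add_one, (h.zpow _).v_mul h, ih]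
    push_cast
    ring
  | pred n ih =>
    rw [zpow_sub_one, (h.zpow _).v_mul h.inv, ih, h.v_inv]
    push_cast
    ring

/-- the elements of value zero of a diagonal group -/
def kerV (r : Γ →* SpecialLinearGroup (Fin 2) Ω) (k : SpecialLinearGroup (Fin 2) Ω) (V : RV Ω)
    (M : Subgroup Γ) (hM : ∀ z ∈ M, Dg r k z) : Subgroup Γ where
  carrier := {z | z ∈ M ∧ V.v (eg r k z) = 0}
  one_mem' := ⟨one_mem _, v_eg_one V⟩
  mul_mem' := by
    rintro z w ⟨h1, h2⟩ ⟨h3, h4⟩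
    exact ⟨mul_mem h1 h3, by rw [(hM z h1).v_mul (hM w h3), h2, h4, add_zero]⟩
  inv_mem' := by
    rintro z ⟨h1, h2⟩
    exact ⟨inv_mem h1, by rw [(hM z h1).v_inv, h2, neg_zero]⟩

/-- a noncyclic diagonal group contains nontrivial elements of small value -/
theorem small_of_noncyclic (V : RV Ω) (M : Subgroup Γ) (hM : ∀ z ∈ M, Dg r k z)
    (hc : ¬ ∃ z, M = Subgroup.zpowers z) (ε : ℝ) (hε : 0 < ε) :
    ∃ z ∈ M, z ≠ 1 ∧ |V.v (eg r k z)| < ε := by
  by_contra hcon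
  push Not at hcon
  have h0 : ∀ z ∈ M, V.v (eg r k z) = 0 → z = 1 := by
    intro z hz h1
    by_contra h2
    have h3 := hcon z hz h2
    rw [h1, abs_zero] at h3
    exact absurd hε (not_lt.2 h3)
  let H : AddSubgroup ℝ :=
    { carrier := {t | ∃ z ∈ M, V.v (eg r k z) = t}
      zero_mem' := ⟨1, one_mem _, v_eg_one V⟩
      add_mem' := by
        rintro _ _ ⟨z, hz, rfl⟩ ⟨w, hw, rfl⟩
        exact ⟨z * w, mul_mem hz hw, (hM z hz).v_mul (hM w hw) V⟩
      neg_mem' := by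
        rintro _ ⟨z, hz, rfl⟩
        exact ⟨z⁻¹, inv_mem hz, (hM z hz).v_inv V⟩ }
  rcases AddSubgroup.dense_or_cyclic H with hd | ⟨a, ha⟩
  · obtain ⟨t, ⟨h1, h2⟩, ⟨z, hz, h3⟩⟩ := hd.inter_open_nonempty (Set.Ioo 0 ε) isOpen_Ioo
      ⟨ε / 2, by constructor <;> linarith⟩
    have h4 : z ≠ 1 := by
      rintro rfl
      rw [v_eg_one] at h3
      rw [← h3] at h1
      exact lt_irrefl _ h1
    have h5 := hcon z hz h4
    rw [h3, abs_of_pos h1] at h5
    linarith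
  · apply hc
    rw [← AddSubgroup.zmultiples_eq_closure] at ha
    obtain ⟨z, hz, hza⟩ : ∃ z ∈ M, V.v (eg r k z) = a := by
      have : a ∈ H := by rw [ha]; exact AddSubgroup.mem_zmultiples a
      exact this
    refine ⟨z, le_antisymm ?_ (by rw [Subgroup.zpowers_le]; exact hz)⟩
    intro w hw
    have h1 : V.v (eg r k w) ∈ H := ⟨w, hw, rfl⟩
    rw [ha, AddSubgroup.mem_zmultiples_iff] at h1
    obtain ⟨n, hn⟩ := h1
    have h2 : w * z ^ (-n) = 1 := by
      apply h0 _ (mul_mem hw (zpow_mem hz _))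
      rw [(hM w hw).v_mul ((hM z hz).zpow _), (hM z hz).v_zpow, hza, ← hn, zsmul_eq_mul]
      push_cast
      ring
    rw [Subgroup.mem_zpowers_iff]
    refine ⟨n, ?_⟩
    rw [_root_.zpow_neg, mul_inv_eq_one] at h2
    exact h2.symm

end

/-- the eigenbasis of everything which commutes with `c ≠ 1` -/
theorem exists_basis {Γ F Ω : Type} [Group Γ] [Field F] [Algebra (ZMod 2) F] [Field Ω]
    [IsAlgClosed Ω] [CharP Ω 2] {ρ : Γ →* SpecialLinearGroup (Fin 2) F} (i : F →+* Ω)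
    (hT : ∀ g, (ρ g).1.trace = 0 → g = 1) (c : Γ) (hc : c ≠ 1) :
    ∃ k : SpecialLinearGroup (Fin 2) Ω, ∀ d : Γ, d * c = c * d → Dg (bc i ρ) k d := by
  obtain ⟨P, hP⟩ := exists_torus (ρ := ρ) hT i hc
  refine ⟨P, fun d hd => ?_⟩
  obtain ⟨b, hb⟩ := hP d hd
  unfold Dg
  rw [hb]
  exact ⟨rfl, rfl⟩

/-- approximation of a real valuation of an algebraic extension of a finitely generated field -/
theorem approx_alg {F Ω : Type} [Field F] [Field Ω] [Algebra F Ω] [Algebra.IsAlgebraic F Ω]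
    [Algebra (ZMod 2) F] [Algebra (ZMod 2) Ω] [IsScalarTower (ZMod 2) F Ω]
    (SF : Finset F) (hSF : IntermediateField.adjoin (ZMod 2) (SF : Set F) = ⊤) (x : RV Ω)
    (A : Finset Ω) :
    ∃ F0 : Finset ℝ, (∀ t ∈ F0, 0 < t) ∧ ∀ L : ℝ →+ ℚ, (∀ t ∈ F0, 0 < L t) →
      ∃ (x' : RV Ω) (N : ℕ), 0 < N ∧ ∀ a ∈ A, x'.v a = (((N : ℚ) * L (x.v a) : ℚ) : ℝ) := by
  classical
  let G : Finset Ω := A ∪ SF.image (algebraMap F Ω)
  let L1 : IntermediateField (ZMod 2) Ω := IntermediateField.adjoin (ZMod 2) (G : Set Ω)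
  have hG : ∀ g ∈ G, g ∈ L1 := fun g hg => IntermediateField.subset_adjoin _ _ hg
  have hF : ∀ f : F, algebraMap F Ω f ∈ L1 := by
    intro f
    have h1 : (⊤ : IntermediateField (ZMod 2) F) ≤
        L1.comap (IsScalarTower.toAlgHom (ZMod 2) F Ω) := by
      rw [← hSF, IntermediateField.adjoin_le_iff]
      intro s hs
      exact hG _ (Finset.mem_union_right _ (Finset.mem_image_of_mem _ hs))
    exact h1 (IntermediateField.mem_top (x := f))
  let j : F →+* L1 := (algebraMap F Ω).codRestrict L1.toSubfield.toSubring hF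
  letI : Algebra F L1 := j.toAlgebra
  haveI : IsScalarTower F L1 Ω := IsScalarTower.of_algebraMap_eq' rfl
  haveI : Algebra.IsAlgebraic L1 Ω := Algebra.IsAlgebraic.tower_top (K := F) L1
  let S0 : Finset L1 := G.attach.image fun g => ⟨g.1, hG g.1 g.2⟩
  have hS0 : IntermediateField.adjoin (ZMod 2) (S0 : Set L1) = ⊤ := by
    apply IntermediateField.map_injective L1.val
    rw [IntermediateField.adjoin_map, ← AlgHom.fieldRange_eq_map, IntermediateField.fieldRange_val]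
    congr 1
    ext z
    constructor
    · rintro ⟨w, hw, rfl⟩
      obtain ⟨g, _, rfl⟩ := Finset.mem_image.1 hw
      exact g.2
    · intro hz
      exact ⟨⟨z, hG z hz⟩, Finset.mem_image.2 ⟨⟨z, hz⟩, Finset.mem_attach _ _, rfl⟩, rfl⟩
  have hx : F2Ch.IsV (fun a : L1 => x.v (algebraMap L1 Ω a)) := FrP.V_comp x.isV (algebraMap L1 Ω)
  have ht : F2Ch.Triv (ZMod 2) (fun a : L1 => x.v (algebraMap L1 Ω a)) := by
    intro c
    have hc : c = 0 ∨ c = 1 := by
      revert c; decide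
    rcases hc with rfl | rfl
    · rw [map_zero]
      show x.v (algebraMap L1 Ω 0) = 0
      rw [map_zero, x.isV.zero]
    · rw [map_one]
      show x.v (algebraMap L1 Ω 1) = 0
      rw [map_one, x.v_one]
  obtain ⟨F0, hF0, h⟩ := FrA.approx S0 hS0 hx ht S0
  refine ⟨F0, hF0, fun L hL => ?_⟩
  obtain ⟨V, hV, hVt, N, hN, hVN⟩ := h L hL
  have hV' : F2Ch.IsV (fun a : L1 => ((V a : ℤ) : ℝ)) := by
    refine ⟨by show ((V 0 : ℤ) : ℝ) = 0; rw [hV.zero, Int.cast_zero], ?_, ?_⟩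
    · intro a b ha hb
      show ((V (a * b) : ℤ) : ℝ) = V a + V b
      rw [hV.mul a b ha hb, Int.cast_add]
    · intro a b ha hb hab
      show min ((V a : ℤ) : ℝ) (V b) ≤ (V (a + b) : ℤ)
      have h1 := hV.add a b ha hb hab
      exact_mod_cast h1
  obtain ⟨x', hx', hx'a⟩ := FrP.exists_ext (F := L1) (E := Ω) hV'
  refine ⟨⟨x', hx'⟩, N, hN, fun a ha => ?_⟩
  have ha' : a ∈ G := Finset.mem_union_left _ ha
  have h1 := hx'a ⟨a, hG a ha'⟩
  have h2 := hVN ⟨a, hG a ha'⟩ (Finset.mem_image.2 ⟨⟨a, ha'⟩, Finset.mem_attach _ _, rfl⟩)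
  show x' a = _
  have h3 : x' (algebraMap L1 Ω ⟨a, hG a ha'⟩) = x' a := rfl
  rw [← h3, h1]
  have h4 : (((V ⟨a, hG a ha'⟩ : ℤ) : ℚ) : ℝ) = ((V ⟨a, hG a ha'⟩ : ℤ) : ℝ) := by push_cast; rfl
  rw [← h4, h2]
  rfl

end Pool.Agent.FrCB
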