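import Pool.Agent.Lib.MP_305fdd_al.Fr.S.Up

/-!
# MP_305fdd_al, F_r, Case 2: the star refinement of a splitting

Every vertex group `G v` is a multiple HNN extension of `A v` with letters `g h t h (g h)⁻¹` commuting
with `g h N h (g h)⁻¹`; `Z h` is generated by `N h` and `t h`.  The star refinement has the vertices
`v` (group `A v`) and `h` (group `Z h`), joined by edges with the groups `g h N h (g h)⁻¹`.
-/

set_option autoImplicit false
set_option linter.unusedSectionVars false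
set_option linter.unusedVariables false

namespace Pool.Agent.FrCB

open Pool.Agent.FrS Matrix

theorem mulOn_zpow {Γ Q : Type} [Group Γ] [Group Q] {H : Subgroup Γ} {r : Γ → Q} (h : MulOn H r)
    {x : Γ} (hx : x ∈ H) (n : ℤ) : r (x ^ n) = r x ^ n := by
  let f : H →* Q := MonoidHom.mk' (fun y => r y) fun y z => h y y.2 z z.2
  exact map_zpow f ⟨x, hx⟩ n

/-- data of a star refinement -/
structure Star {Γ : Type} [Group Γ] (S : GG Γ) : Type 1 where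
  H : Type
  [fH : Fintype H]
  [dH : DecidableEq H]
  π : H → S.V
  A : S.V → Subgroup Γ
  Z : H → Subgroup Γ
  N : H → Subgroup Γ
  g : H → Γ
  t : H → Γ
  Ale : ∀ v, A v ≤ S.G v
  gG : ∀ h, g h ∈ S.G (π h)
  ZG : ∀ h, Z h ≤ S.G (π h)
  NZ : ∀ h, N h ≤ Z h
  tZ : ∀ h, t h ∈ Z h
  comm : ∀ h, ∀ z ∈ N h, t h * z = z * t h
  dec : ∀ h, ∀ z ∈ Z h, ∃ n : ℤ, z * t h ^ n ∈ N h
  NA : ∀ h, ∀ z ∈ N h, g h * z * (g h)⁻¹ ∈ A (π h)
  sup : ∀ v, ∀ P' : Subgroup Γ, A v ≤ P' → (∀ h, π h = v → g h * t h * (g h)⁻¹ ∈ P') →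
    S.G v ≤ P'
  ext : ∀ (v : S.V) (R : Type) [CommRing R] [Algebra (ZMod 2) R]
    (r : Γ → SpecialLinearGroup (Fin 2) R) (τ : H → SpecialLinearGroup (Fin 2) R), MulOn (A v) r →
    (∀ h, π h = v → ∀ z ∈ N h, r (g h * z * (g h)⁻¹) * τ h = τ h * r (g h * z * (g h)⁻¹)) →
    ∃ q : Γ → SpecialLinearGroup (Fin 2) R, MulOn (S.G v) q ∧ (∀ x ∈ A v, q x = r x) ∧
      ∀ h, π h = v → q (g h * t h * (g h)⁻¹) = τ h
  oa : S.E → Option H
  ob : S.E → Option H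
  ka : S.E → Γ
  kb : S.E → Γ
  kaG : ∀ e, ka e ∈ S.G (S.a e)
  kbG : ∀ e, kb e ∈ S.G (S.b e)
  oaπ : ∀ e h, oa e = some h → π h = S.a e
  obπ : ∀ e h, ob e = some h → π h = S.b e
  ca : ∀ e, ∀ c ∈ S.C e, (ka e)⁻¹ * c * ka e ∈ (oa e).elim (A (S.a e)) Z
  cb : ∀ e, ∀ c ∈ S.C e, (kb e)⁻¹ * ((S.s e)⁻¹ * c * S.s e) * kb e ∈ (ob e).elim (A (S.b e)) Z

attribute [instance] Star.fH Star.dH

namespace Star

variable {Γ : Type} [Group Γ] {S : GG Γ} (D : Star S)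

/-- the vertex where an end is attached -/
def att (v : S.V) (o : Option D.H) : S.V ⊕ D.H := o.elim (Sum.inl v) Sum.inr

/-- the star refinement -/
def gg : GG Γ where
  V := S.V ⊕ D.H
  E := S.E ⊕ D.H
  G := Sum.elim D.A D.Z
  a := Sum.elim (fun e => D.att (S.a e) (D.oa e)) (fun h => Sum.inl (D.π h))
  b := Sum.elim (fun e => D.att (S.b e) (D.ob e)) Sum.inr
  s := Sum.elim (fun e => (D.ka e)⁻¹ * S.s e * D.kb e) D.g
  C := Sum.elim (fun e => (S.C e).comap (MulAut.conj (D.ka e)).toMonoidHom)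
    (fun h => (D.N h).comap (MulAut.conj (D.g h)⁻¹).toMonoidHom)
  Ca := by
    rintro (e | h) c hc
    · have hc' : D.ka e * c * (D.ka e)⁻¹ ∈ S.C e := hc
      have h1 := D.ca e _ hc'
      have h2 : (D.ka e)⁻¹ * (D.ka e * c * (D.ka e)⁻¹) * D.ka e = c := by group
      rw [h2] at h1
      show c ∈ Sum.elim D.A D.Z (D.att (S.a e) (D.oa e))
      rcases hoa : D.oa e with _ | h
      · rw [hoa] at h1; exact h1
      · rw [hoa] at h1; exact h1
    · have hc' : (D.g h)⁻¹ * c * (D.g h)⁻¹⁻¹ ∈ D.N h := hc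
      have h1 := D.NA h _ hc'
      have h2 : D.g h * ((D.g h)⁻¹ * c * (D.g h)⁻¹⁻¹) * (D.g h)⁻¹ = c := by group
      rw [h2] at h1
      exact h1
  Cb := by
    rintro (e | h) c hc
    · have hc' : D.ka e * c * (D.ka e)⁻¹ ∈ S.C e := hc
      have h1 := D.cb e _ hc'
      have h2 : (D.kb e)⁻¹ * ((S.s e)⁻¹ * (D.ka e * c * (D.ka e)⁻¹) * S.s e) * D.kb e =
        ((D.ka e)⁻¹ * S.s e * D.kb e)⁻¹ * c * ((D.ka e)⁻¹ * S.s e * D.kb e) := by group
      rw [h2] at h1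
      show ((D.ka e)⁻¹ * S.s e * D.kb e)⁻¹ * c * ((D.ka e)⁻¹ * S.s e * D.kb e) ∈
        Sum.elim D.A D.Z (D.att (S.b e) (D.ob e))
      rcases hob : D.ob e with _ | h
      · rw [hob] at h1; exact h1
      · rw [hob] at h1; exact h1
    · have hc' : (D.g h)⁻¹ * c * (D.g h)⁻¹⁻¹ ∈ D.N h := hc
      rw [inv_inv] at hc'
      exact D.NZ h hc'

theorem pthG (v : S.V) {x : Γ} (hx : x ∈ S.G v) : D.gg.Pth (Sum.inl v) (Sum.inl v) x := by
  let P' : Subgroup Γ :=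
    { carrier := {x | D.gg.Pth (Sum.inl v) (Sum.inl v) x}
      one_mem' := GG.Pth.one _
      mul_mem' := fun h h' => h.trans h'
      inv_mem' := fun h => h.symm }
  refine D.sup v P' ?_ ?_ hx
  · intro y hy
    exact GG.Pth.ofG (S := D.gg) (v := Sum.inl v) hy
  · rintro h rfl
    have h1 : D.gg.Pth (Sum.inl (D.π h)) (Sum.inr h) (D.g h) := GG.Pth.ofE (S := D.gg) (Sum.inr h)
    have h2 : D.gg.Pth (Sum.inr h) (Sum.inr h) (D.t h) :=
      GG.Pth.ofG (S := D.gg) (v := Sum.inr h) (D.tZ h)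
    exact (h1.trans h2).trans h1.symm

theorem pthAtt (v : S.V) (o : Option D.H) (ho : ∀ h, o = some h → D.π h = v) {k : Γ}
    (hk : k ∈ S.G v) : D.gg.Pth (Sum.inl v) (D.att v o) k := by
  rcases o with _ | h
  · exact D.pthG v hk
  · have h1 := ho h rfl
    subst h1
    have h2 : D.gg.Pth (Sum.inl (D.π h)) (Sum.inr h) (D.g h) := GG.Pth.ofE (S := D.gg) (Sum.inr h)
    have h3 := (D.pthG _ (mul_mem hk (inv_mem (D.gG h)))).trans h2
    rwa [inv_mul_cancel_right] at h3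

theorem gen (hS : S.UP) (u w : D.gg.V) (x : Γ) : D.gg.Pth u w x := by
  have key : ∀ {u v : S.V} {x : Γ}, S.Pth u v x → D.gg.Pth (Sum.inl u) (Sum.inl v) x := by
    intro u v x h
    induction h with
    | one => exact GG.Pth.one _
    | grp _ hx ih => exact ih.trans (D.pthG _ hx)
    | @fwd x e _ ih =>
      have h1 := D.pthAtt (S.a e) (D.oa e) (D.oaπ e) (D.kaG e)
      have h2 := D.pthAtt (S.b e) (D.ob e) (D.obπ e) (D.kbG e)
      have h3 : D.gg.Pth (D.att (S.a e) (D.oa e)) (D.att (S.b e) (D.ob e))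
        ((D.ka e)⁻¹ * S.s e * D.kb e) := GG.Pth.ofE (S := D.gg) (Sum.inl e)
      have h4 := ((ih.trans h1).trans h3).trans h2.symm
      have h5 : x * D.ka e * ((D.ka e)⁻¹ * S.s e * D.kb e) * (D.kb e)⁻¹ = x * S.s e := by group
      rwa [h5] at h4
    | @bwd x e _ ih =>
      have h1 := D.pthAtt (S.a e) (D.oa e) (D.oaπ e) (D.kaG e)
      have h2 := D.pthAtt (S.b e) (D.ob e) (D.obπ e) (D.kbG e)
      have h3 : D.gg.Pth (D.att (S.a e) (D.oa e)) (D.att (S.b e) (D.ob e))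
        ((D.ka e)⁻¹ * S.s e * D.kb e) := GG.Pth.ofE (S := D.gg) (Sum.inl e)
      have h4 := ((ih.trans h2).trans h3.symm).trans h1.symm
      have h5 : x * D.kb e * ((D.ka e)⁻¹ * S.s e * D.kb e)⁻¹ * (D.ka e)⁻¹ = x * (S.s e)⁻¹ := by
        group
      rwa [h5] at h4
  have hout : ∀ u : D.gg.V, ∃ v y, D.gg.Pth u (Sum.inl v) y := by
    rintro (v | h)
    · exact ⟨v, 1, GG.Pth.one _⟩
    · exact ⟨D.π h, _, (GG.Pth.ofE (S := D.gg) (Sum.inr h)).symm⟩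
  obtain ⟨v, y, hy⟩ := hout u
  obtain ⟨v', y', hy'⟩ := hout w
  have h1 := (hy.trans (key (hS.gen v v' (y⁻¹ * x * y')))).trans hy'.symm
  have h2 : y * (y⁻¹ * x * y') * y'⁻¹ = x := by group
  rwa [h2] at h1

theorem up (hS : S.UP) : D.gg.UP := by
  refine ⟨D.gen hS, ?_⟩
  intro R _ _ F
  have hrMul : ∀ v, MulOn (D.A v) (F.r (Sum.inl v)) := fun v => F.mul (Sum.inl v)
  have hZmul : ∀ h, MulOn (D.Z h) (F.r (Sum.inr h)) := fun h => F.mul (Sum.inr h)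
  have hcmN : ∀ h, ∀ z ∈ D.N h, F.r (Sum.inl (D.π h)) (D.g h * z * (D.g h)⁻¹) =
      F.t (Sum.inr h) * F.r (Sum.inr h) z * (F.t (Sum.inr h))⁻¹ := by
    intro h z hz
    have h1 : (D.g h)⁻¹ * (D.g h * z * (D.g h)⁻¹) * (D.g h)⁻¹⁻¹ ∈ D.N h := by
      have h2 : (D.g h)⁻¹ * (D.g h * z * (D.g h)⁻¹) * (D.g h)⁻¹⁻¹ = z := by group
      rw [h2]; exact hz
    have h3 := F.cm (Sum.inr h) (D.g h * z * (D.g h)⁻¹) h1
    have h4 : (D.g h)⁻¹ * (D.g h * z * (D.g h)⁻¹) * D.g h = z := by group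
    have h5 : (D.gg.s (Sum.inr h))⁻¹ * (D.g h * z * (D.g h)⁻¹) * D.gg.s (Sum.inr h) = z := h4
    rw [h5] at h3
    exact h3
  have hex : ∀ v, ∃ q : Γ → SpecialLinearGroup (Fin 2) R, MulOn (S.G v) q ∧
      (∀ x ∈ D.A v, q x = F.r (Sum.inl v) x) ∧
      ∀ h, D.π h = v → q (D.g h * D.t h * (D.g h)⁻¹) =
        F.t (Sum.inr h) * F.r (Sum.inr h) (D.t h) * (F.t (Sum.inr h))⁻¹ := by
    intro v
    refine D.ext v R (F.r (Sum.inl v))
      (fun h => F.t (Sum.inr h) * F.r (Sum.inr h) (D.t h) * (F.t (Sum.inr h))⁻¹) (hrMul v) ?_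
    rintro h rfl z hz
    rw [hcmN h z hz]
    have h1 : F.r (Sum.inr h) z * F.r (Sum.inr h) (D.t h) =
        F.r (Sum.inr h) (D.t h) * F.r (Sum.inr h) z := by
      rw [← hZmul h _ (D.NZ h hz) _ (D.tZ h), ← hZmul h _ (D.tZ h) _ (D.NZ h hz), D.comm h z hz]
    calc F.t (Sum.inr h) * F.r (Sum.inr h) z * (F.t (Sum.inr h))⁻¹ *
          (F.t (Sum.inr h) * F.r (Sum.inr h) (D.t h) * (F.t (Sum.inr h))⁻¹)
        = F.t (Sum.inr h) * (F.r (Sum.inr h) z * F.r (Sum.inr h) (D.t h)) *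
          (F.t (Sum.inr h))⁻¹ := by group
      _ = F.t (Sum.inr h) * (F.r (Sum.inr h) (D.t h) * F.r (Sum.inr h) z) *
          (F.t (Sum.inr h))⁻¹ := by rw [h1]
      _ = _ := by group
  choose q hqm hqA hqt using hex
  have hqZ : ∀ h, ∀ z ∈ D.Z h, q (D.π h) (D.g h * z * (D.g h)⁻¹) =
      F.t (Sum.inr h) * F.r (Sum.inr h) z * (F.t (Sum.inr h))⁻¹ := by
    intro h z hz
    obtain ⟨n, hn⟩ := D.dec h z hz
    have hG : ∀ y ∈ D.Z h, D.g h * y * (D.g h)⁻¹ ∈ S.G (D.π h) := fun y hy =>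
      mul_mem (mul_mem (D.gG h) (D.ZG h hy)) (inv_mem (D.gG h))
    have h1 : D.g h * z * (D.g h)⁻¹ = (D.g h * (z * D.t h ^ n) * (D.g h)⁻¹) *
        (D.g h * D.t h * (D.g h)⁻¹) ^ (-n) := by
      rw [conj_zpow, _root_.zpow_neg]; group
    have h2 : z = (z * D.t h ^ n) * D.t h ^ (-n) := by rw [_root_.zpow_neg]; group
    have h3 : F.r (Sum.inr h) z = F.r (Sum.inr h) (z * D.t h ^ n) *
        (F.r (Sum.inr h) (D.t h)) ^ (-n) := by
      conv_lhs => rw [h2]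
      rw [hZmul h _ (D.NZ h hn) _ (zpow_mem (D.tZ h) _), mulOn_zpow (hZmul h) (D.tZ h)]
    rw [h1, hqm _ _ (hG _ (D.NZ h hn)) _ (zpow_mem (hG _ (D.tZ h)) _),
      mulOn_zpow (hqm _) (hG _ (D.tZ h)), hqt _ h rfl, hqA _ _ (D.NA h _ hn), hcmN h _ hn, h3,
      conj_zpow]
    group
  -- gauge of an attachment
  let ua : S.V → Option D.H → Γ → SpecialLinearGroup (Fin 2) R := fun v o k =>
    o.elim (q v k) fun h => q v (k * (D.g h)⁻¹) * F.t (Sum.inr h)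
  have U1 : ∀ (v : S.V) (o : Option D.H) (ho : ∀ h, o = some h → D.π h = v) (k c : Γ),
      k ∈ S.G v → c ∈ S.G v → k⁻¹ * c * k ∈ o.elim (D.A v) D.Z →
      q v c = ua v o k * F.r (D.att v o) (k⁻¹ * c * k) * (ua v o k)⁻¹ := by
    intro v o ho k c hk hc hz
    rcases o with _ | h
    · show q v c = q v k * F.r (Sum.inl v) (k⁻¹ * c * k) * (q v k)⁻¹
      rw [← hqA v _ hz, (hqm v).conj hc hk]
      group
    · have hv := ho h rfl
      subst hv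
      show q (D.π h) c = (q (D.π h) (k * (D.g h)⁻¹) * F.t (Sum.inr h)) *
        F.r (Sum.inr h) (k⁻¹ * c * k) * (q (D.π h) (k * (D.g h)⁻¹) * F.t (Sum.inr h))⁻¹
      have h1 := hqZ h _ hz
      have h2 : D.g h * (k⁻¹ * c * k) * (D.g h)⁻¹ =
        (k * (D.g h)⁻¹)⁻¹ * c * (k * (D.g h)⁻¹) := by group
      rw [h2, (hqm _).conj hc (mul_mem hk (inv_mem (D.gG h)))] at h1
      have h3 : q (D.π h) c = q (D.π h) (k * (D.g h)⁻¹) * ((q (D.π h) (k * (D.g h)⁻¹))⁻¹ *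
        q (D.π h) c * q (D.π h) (k * (D.g h)⁻¹)) * (q (D.π h) (k * (D.g h)⁻¹))⁻¹ := by group
      rw [h3, h1]
      group
  let F0 : GG.Fam S (SpecialLinearGroup (Fin 2) R) :=
    { r := q
      t := fun e => ua (S.a e) (D.oa e) (D.ka e) * F.t (Sum.inl e) *
        (ua (S.b e) (D.ob e) (D.kb e))⁻¹
      mul := hqm
      cm := by
        intro e c hc
        have hb := S.Cb e c hc
        rw [U1 (S.a e) (D.oa e) (D.oaπ e) (D.ka e) c (D.kaG e) (S.Ca e hc) (D.ca e c hc),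
          U1 (S.b e) (D.ob e) (D.obπ e) (D.kb e) _ (D.kbG e) hb (D.cb e c hc)]
        have h1 : D.ka e * ((D.ka e)⁻¹ * c * D.ka e) * (D.ka e)⁻¹ ∈ S.C e := by
          have h2 : D.ka e * ((D.ka e)⁻¹ * c * D.ka e) * (D.ka e)⁻¹ = c := by group
          rw [h2]; exact hc
        have h3 := F.cm (Sum.inl e) ((D.ka e)⁻¹ * c * D.ka e) h1
        have h4 : (D.gg.s (Sum.inl e))⁻¹ * ((D.ka e)⁻¹ * c * D.ka e) * D.gg.s (Sum.inl e) =
            (D.kb e)⁻¹ * ((S.s e)⁻¹ * c * S.s e) * D.kb e := by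
          show ((D.ka e)⁻¹ * S.s e * D.kb e)⁻¹ * ((D.ka e)⁻¹ * c * D.ka e) *
            ((D.ka e)⁻¹ * S.s e * D.kb e) = _
          group
        rw [h4] at h3
        have h5 : F.r (D.att (S.a e) (D.oa e)) ((D.ka e)⁻¹ * c * D.ka e) = F.t (Sum.inl e) *
          F.r (D.att (S.b e) (D.ob e)) ((D.kb e)⁻¹ * ((S.s e)⁻¹ * c * S.s e) * D.kb e) *
          (F.t (Sum.inl e))⁻¹ := h3
        rw [h5]
        group }
  obtain ⟨r, g, hrg⟩ := hS.ext R F0
  have hv : ∀ v, ∀ x ∈ S.G v, q v x = (g v)⁻¹ * r x * g v := hrg.vtx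
  let g' : S.V ⊕ D.H → SpecialLinearGroup (Fin 2) R :=
    Sum.elim g fun h => (r (D.g h))⁻¹ * g (D.π h) * F.t (Sum.inr h)
  have U2 : ∀ (v : S.V) (o : Option D.H) (ho : ∀ h, o = some h → D.π h = v) (k : Γ),
      k ∈ S.G v → g v * ua v o k = r k * g' (D.att v o) := by
    intro v o ho k hk
    rcases o with _ | h
    · show g v * q v k = r k * g v
      rw [hv v k hk]
      group
    · have hv' := ho h rfl
      subst hv'
      show g (D.π h) * (q (D.π h) (k * (D.g h)⁻¹) * F.t (Sum.inr h)) =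
        r k * ((r (D.g h))⁻¹ * g (D.π h) * F.t (Sum.inr h))
      rw [hv _ _ (mul_mem hk (inv_mem (D.gG h))), map_mul, map_inv]
      group
  refine ⟨r, g', ?_, ?_⟩
  · rintro (v | h) x hx
    · show F.r (Sum.inl v) x = (g v)⁻¹ * r x * g v
      rw [← hqA v x hx, hv v x (D.Ale v hx)]
    · show F.r (Sum.inr h) x = ((r (D.g h))⁻¹ * g (D.π h) * F.t (Sum.inr h))⁻¹ * r x *
        ((r (D.g h))⁻¹ * g (D.π h) * F.t (Sum.inr h))
      have h1 := hqZ h x hx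
      rw [hv _ _ (mul_mem (mul_mem (D.gG h) (D.ZG h hx)) (inv_mem (D.gG h))), map_mul, map_mul,
        map_inv] at h1
      have h2 : F.r (Sum.inr h) x = (F.t (Sum.inr h))⁻¹ *
        (F.t (Sum.inr h) * F.r (Sum.inr h) x * (F.t (Sum.inr h))⁻¹) * F.t (Sum.inr h) := by group
      rw [h2, ← h1]
      group
  · rintro (e | h)
    · show F.t (Sum.inl e) = (g' (D.att (S.a e) (D.oa e)))⁻¹ * r ((D.ka e)⁻¹ * S.s e * D.kb e) *
        g' (D.att (S.b e) (D.ob e))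
      have h1 : ua (S.a e) (D.oa e) (D.ka e) * F.t (Sum.inl e) *
        (ua (S.b e) (D.ob e) (D.kb e))⁻¹ = (g (S.a e))⁻¹ * r (S.s e) * g (S.b e) := hrg.edg e
      have h2 := U2 (S.a e) (D.oa e) (D.oaπ e) (D.ka e) (D.kaG e)
      have h3 := U2 (S.b e) (D.ob e) (D.obπ e) (D.kb e) (D.kbG e)
      have h4 : g' (D.att (S.a e) (D.oa e)) = (r (D.ka e))⁻¹ *
        (g (S.a e) * ua (S.a e) (D.oa e) (D.ka e)) := by rw [h2]; group
      have h5 : g' (D.att (S.b e) (D.ob e)) = (r (D.kb e))⁻¹ *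
        (g (S.b e) * ua (S.b e) (D.ob e) (D.kb e)) := by rw [h3]; group
      have h6 : F.t (Sum.inl e) = (ua (S.a e) (D.oa e) (D.ka e))⁻¹ *
        (ua (S.a e) (D.oa e) (D.ka e) * F.t (Sum.inl e) * (ua (S.b e) (D.ob e) (D.kb e))⁻¹) *
        ua (S.b e) (D.ob e) (D.kb e) := by group
      rw [h6, h1, h4, h5, map_mul, map_mul, map_inv]
      group
    · show F.t (Sum.inr h) = (g (D.π h))⁻¹ * r (D.g h) *
        ((r (D.g h))⁻¹ * g (D.π h) * F.t (Sum.inr h))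
      group

end Star

end Pool.Agent.FrCB
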