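import Pool.Agent.Lib.MP_305fdd_al.Fr.C2.Eig
import Pool.Agent.Lib.MP_305fdd_al.Fr.C2.Star

/-!
# MP_305fdd_al, F_r, Case 2: the ends of the edges, their tori, the input of the LINE theorem and the
star refinement
-/

set_option autoImplicit false
set_option linter.unusedSectionVars false
set_option linter.unusedVariables false

namespace Pool.Agent.FrCB

open Pool.Agent.FrC2 Pool.Agent.FrS Pool.Agent.FrR
open Matrix (SpecialLinearGroup)

section Ends

variable {Γ Ω : Type} [Group Γ] [Field Ω]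

/-- the vertex of an end -/
def eV (S : GG Γ) : S.E × Bool → S.V
  | (e, false) => S.a e
  | (e, true) => S.b e

/-- the coordinate of an end -/
def eσ (S : GG Γ) : S.E × Bool → Γ
  | (_, false) => 1
  | (e, true) => S.s e

/-- the edge group at an end -/
def eC (S : GG Γ) (p : S.E × Bool) : Subgroup Γ :=
  (S.C p.1).comap (MulAut.conj (eσ S p)).toMonoidHom

theorem mem_eC {S : GG Γ} {p : S.E × Bool} {y : Γ} :
    y ∈ eC S p ↔ eσ S p * y * (eσ S p)⁻¹ ∈ S.C p.1 := Iff.rfl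

theorem eC_le {S : GG Γ} (p : S.E × Bool) : eC S p ≤ S.G (eV S p) := by
  rcases p with ⟨e, _ | _⟩
  · intro y hy
    have hy' : (1 : Γ) * y * 1⁻¹ ∈ S.C e := hy
    rw [one_mul, inv_one, mul_one] at hy'
    exact S.Ca e hy'
  · intro y hy
    have hy' : S.s e * y * (S.s e)⁻¹ ∈ S.C e := hy
    have h1 := S.Cb e _ hy'
    have h2 : (S.s e)⁻¹ * (S.s e * y * (S.s e)⁻¹) * S.s e = y := by group
    rw [h2] at h1
    exact h1

/-- the torus of an end -/
def eZ (S : GG Γ) (p : S.E × Bool) : Subgroup Γ :=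
  S.G (eV S p) ⊓ Subgroup.centralizer (eC S p : Set Γ)

theorem mem_eZ {S : GG Γ} {p : S.E × Bool} {d : Γ} :
    d ∈ eZ S p ↔ d ∈ S.G (eV S p) ∧ ∀ c ∈ eC S p, c * d = d * c := by
  unfold eZ
  rw [Subgroup.mem_inf, Subgroup.mem_centralizer_iff]
  rfl

/-- hyperbolic edges -/
def HyE (S : GG Γ) (r : Γ →* SpecialLinearGroup (Fin 2) Ω) (x : RV Ω) (e : S.E) : Prop :=
  ∃ c ∈ S.C e, x.v (FrR.tr (r c)) < 0

/-- the general hypotheses -/
structure Ctx (S : GG Γ) (r : Γ →* SpecialLinearGroup (Fin 2) Ω) (x : RV Ω) : Prop where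
  inj : Function.Injective r
  ct : ∀ a b c : Γ, a ≠ 1 → a * b = b * a → a * c = c * a → b * c = c * b
  fgV : ∀ v, (S.G v).FG
  fgE : ∀ e, (S.C e).FG
  ne : ∀ e, S.C e ≠ ⊥
  ab : ∀ e, ∀ y ∈ S.C e, ∀ z ∈ S.C e, y * z = z * y
  sg : ∀ v, ∀ g ∈ S.G v, g ≠ 1 → FrR.tr (r g) ≠ 0 ∧ x.v (FrR.tr (r g)) ≤ 0
  basis : ∀ c, c ≠ 1 → ∃ k, ∀ d, d * c = c * d → Dg r k d
  cfg : ∀ M : Subgroup Γ, (∀ y ∈ M, ∀ z ∈ M, y * z = z * y) → M.FG
  cyc : ∀ e, HyE S r x e → ¬ ∃ z, S.C e = Subgroup.zpowers z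

variable {S : GG Γ} {r : Γ →* SpecialLinearGroup (Fin 2) Ω} {x : RV Ω}

theorem eC_ab (h : Ctx S r x) (p : S.E × Bool) : ∀ y ∈ eC S p, ∀ z ∈ eC S p, y * z = z * y := by
  intro y hy z hz
  rw [mem_eC] at hy hz
  have h1 := h.ab _ _ hy _ hz
  have h2 : y * z = (eσ S p)⁻¹ * ((eσ S p * y * (eσ S p)⁻¹) * (eσ S p * z * (eσ S p)⁻¹)) *
    eσ S p := by group
  rw [h2, h1]
  group

theorem eC_ne (h : Ctx S r x) (p : S.E × Bool) : ∃ c ∈ eC S p, c ≠ 1 := by
  obtain ⟨⟨c, hc⟩, hc1⟩ := Subgroup.ne_bot_iff_exists_ne_one.1 (h.ne p.1)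
  refine ⟨(eσ S p)⁻¹ * c * eσ S p, ?_, ?_⟩
  · rw [mem_eC]
    have h2 : eσ S p * ((eσ S p)⁻¹ * c * eσ S p) * (eσ S p)⁻¹ = c := by group
    rw [h2]; exact hc
  · intro h1
    apply hc1
    apply Subtype.ext
    have h2 : c = eσ S p * ((eσ S p)⁻¹ * c * eσ S p) * (eσ S p)⁻¹ := by group
    show c = 1
    rw [h2, h1]
    group

theorem eC_le_eZ (h : Ctx S r x) (p : S.E × Bool) : eC S p ≤ eZ S p := by
  intro c hc
  rw [mem_eZ]
  refine ⟨eC_le p hc, ?_⟩
  intro d hd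
  exact eC_ab h p d hd c hc

/-- an eigenbasis at every end -/
theorem exists_kb (h : Ctx S r x) : ∃ kb : S.E × Bool → SpecialLinearGroup (Fin 2) Ω,
    ∀ p, ∀ d ∈ eZ S p, Dg r (kb p) d := by
  have h1 : ∀ p : S.E × Bool, ∃ k : SpecialLinearGroup (Fin 2) Ω, ∀ d ∈ eZ S p, Dg r k d := by
    intro p
    obtain ⟨c, hc, hc1⟩ := eC_ne h p
    obtain ⟨k, hk⟩ := h.basis c hc1
    refine ⟨k, fun d hd => hk d ?_⟩
    rw [mem_eZ] at hd
    exact (hd.2 c hc).symm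
  choose kb hkb using h1
  exact ⟨kb, hkb⟩

theorem eZ_ab (h : Ctx S r x) (p : S.E × Bool) : ∀ y ∈ eZ S p, ∀ z ∈ eZ S p, y * z = z * y := by
  intro y hy z hz
  obtain ⟨c, hc, hc1⟩ := eC_ne h p
  rw [mem_eZ] at hy hz
  exact h.ct c y z hc1 (hy.2 c hc) (hz.2 c hc)

theorem eZ_le (p : S.E × Bool) : eZ S p ≤ S.G (eV S p) := inf_le_left

theorem tr_eσ (p : S.E × Bool) (y : Γ) :
    FrR.tr (r (eσ S p * y * (eσ S p)⁻¹)) = FrR.tr (r y) := by
  rw [map_mul, map_mul, map_inv, FrR.tr_conj']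

/-- hyperbolic ends at nonabelian vertices -/
def HE (S : GG Γ) (r : Γ →* SpecialLinearGroup (Fin 2) Ω) (x : RV Ω) : Type :=
  {p : S.E × Bool // S.NA (eV S p) ∧ HyE S r x p.1}

/-- conjugate tori -/
def hsetoid (S : GG Γ) (r : Γ →* SpecialLinearGroup (Fin 2) Ω) (x : RV Ω) :
    Setoid (HE S r x) where
  r p q := eV S p.1 = eV S q.1 ∧ ∃ g ∈ S.G (eV S p.1), ∀ y, y ∈ eZ S q.1 ↔ g * y * g⁻¹ ∈ eZ S p.1
  iseqv := by
    refine ⟨?_, ?_, ?_⟩
    · intro p
      refine ⟨rfl, 1, one_mem _, fun y => ?_⟩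
      rw [one_mul, inv_one, mul_one]
    · rintro p q ⟨h1, g, hg, h2⟩
      refine ⟨h1.symm, g⁻¹, h1 ▸ inv_mem hg, fun y => ?_⟩
      rw [h2]
      have h3 : g * (g⁻¹ * y * g⁻¹⁻¹) * g⁻¹ = y := by group
      rw [h3]
    · rintro p q s ⟨h1, g, hg, h2⟩ ⟨h3, k, hk, h4⟩
      refine ⟨h1.trans h3, g * k, mul_mem hg (h1 ▸ hk), fun y => ?_⟩
      rw [h4, h2]
      have h5 : g * k * y * (g * k)⁻¹ = g * (k * y * k⁻¹) * g⁻¹ := by group
      rw [h5]

/-- classes of hyperbolic ends -/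
def HH (S : GG Γ) (r : Γ →* SpecialLinearGroup (Fin 2) Ω) (x : RV Ω) : Type :=
  Quotient (hsetoid S r x)

instance : Finite (HE S r x) := inferInstanceAs (Finite {p : S.E × Bool // _})

instance : Finite (HH S r x) := by
  letI := hsetoid S r x
  exact inferInstanceAs (Finite (Quotient (hsetoid S r x)))

/-- the representative end -/
noncomputable def rp (h : HH S r x) : HE S r x := Quotient.out h

/-- the class of an end -/
def cl (p : HE S r x) : HH S r x := Quotient.mk (hsetoid S r x) p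

theorem rp_cl (p : HE S r x) : (hsetoid S r x).r (rp (cl p)) p :=
  Quotient.mk_out (s := hsetoid S r x) p

/-- the vertex of a class -/
noncomputable def pv (h : HH S r x) : S.V := eV S (rp h).1

theorem pv_NA (h : HH S r x) : S.NA (pv h) := (rp h).2.1

theorem pv_cl (p : HE S r x) : pv (cl p) = eV S p.1 := (rp_cl p).1

/-- INPUT of the LINE theorem at a nonabelian vertex -/
theorem lineIn [CharP Ω 2] (h : Ctx S r x) {kb : S.E × Bool → SpecialLinearGroup (Fin 2) Ω}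
    (hkb : ∀ p, ∀ d ∈ eZ S p, Dg r (kb p) d) (v : S.V) :
    LineIn r x (S.G v) (fun h : {h : HH S r x // pv h = v} => eZ S (rp h.1).1)
      (fun h => kb (rp h.1).1) (fun i : {p : S.E × Bool // eV S p = v ∧ ¬ HyE S r x p.1} =>
        eC S i.1) where
  inj := h.inj
  fgP := h.fgV v
  sg := h.sg v
  ZP := by
    rintro ⟨h', rfl⟩
    exact eZ_le _
  fgZ := fun h' => h.cfg _ (eZ_ab h _)
  comm := fun h' => eZ_ab h _
  max := by
    rintro ⟨h', rfl⟩ g hg hz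
    rw [mem_eZ]
    refine ⟨hg, ?_⟩
    intro c hc
    exact (hz c (eC_le_eZ h _ hc)).symm
  dg := fun h' z hz => hkb _ z hz
  hyp := by
    intro h'
    obtain ⟨c, hc, hcv⟩ := (rp h'.1).2.2
    have h1 : (eσ S (rp h'.1).1)⁻¹ * c * eσ S (rp h'.1).1 ∈ eC S (rp h'.1).1 := by
      rw [mem_eC]
      have h2 : eσ S (rp h'.1).1 * ((eσ S (rp h'.1).1)⁻¹ * c * eσ S (rp h'.1).1) *
        (eσ S (rp h'.1).1)⁻¹ = c := by group
      rw [h2]; exact hc
    refine ⟨_, eC_le_eZ h _ h1, ?_⟩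
    rw [← (hkb _ _ (eC_le_eZ h _ h1)).hy x]
    rw [← tr_eσ (S := S) (rp h'.1).1]
    have h2 : eσ S (rp h'.1).1 * ((eσ S (rp h'.1).1)⁻¹ * c * eσ S (rp h'.1).1) *
        (eσ S (rp h'.1).1)⁻¹ = c := by group
    rw [h2]; exact hcv
  small := by
    intro h' ε hε
    have hnc : ¬ ∃ z, eC S (rp h'.1).1 = Subgroup.zpowers z := by
      rintro ⟨z, hz⟩
      apply h.cyc _ (rp h'.1).2.2
      refine ⟨eσ S (rp h'.1).1 * z * (eσ S (rp h'.1).1)⁻¹, ?_⟩
      ext c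
      constructor
      · intro hc
        have h1 : (eσ S (rp h'.1).1)⁻¹ * c * eσ S (rp h'.1).1 ∈ eC S (rp h'.1).1 := by
          rw [mem_eC]
          have h2 : eσ S (rp h'.1).1 * ((eσ S (rp h'.1).1)⁻¹ * c * eσ S (rp h'.1).1) *
            (eσ S (rp h'.1).1)⁻¹ = c := by group
          rw [h2]; exact hc
        rw [hz, Subgroup.mem_zpowers_iff] at h1
        obtain ⟨n, hn⟩ := h1
        rw [Subgroup.mem_zpowers_iff]
        refine ⟨n, ?_⟩
        rw [conj_zpow, hn]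
        group
      · intro hc
        rw [Subgroup.mem_zpowers_iff] at hc
        obtain ⟨n, hn⟩ := hc
        have h1 : z ^ n ∈ eC S (rp h'.1).1 := by
          rw [hz, Subgroup.mem_zpowers_iff]
          exact ⟨n, rfl⟩
        rw [mem_eC] at h1
        rw [← hn, conj_zpow]
        exact h1
    obtain ⟨z, hz, hz1, hz2⟩ := small_of_noncyclic x (eC S (rp h'.1).1)
      (fun z hz => hkb _ z (eC_le_eZ h _ hz)) hnc ε hε
    exact ⟨z, eC_le_eZ h _ hz, hz1, hz2⟩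
  diff := by
    rintro ⟨i, hi⟩ ⟨j, hj⟩ hij g hg hcon
    apply hij
    apply Subtype.ext
    show i = j
    have h1 : (hsetoid S r x).r (rp i) (rp j) := by
      refine ⟨hi.trans hj.symm, g⁻¹, ?_, fun y => ?_⟩
      · have h2 : eV S (rp i).1 = v := hi
        rw [h2]; exact inv_mem hg
      · rw [inv_inv]
        exact (hcon y).symm
    have h2 := Quotient.out_equiv_out (s := hsetoid S r x) (x := i) (y := j)
    exact h2.1 h1
  EP := by
    rintro ⟨p, rfl, hp⟩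
    exact eC_le p
  fgE := fun i => h.cfg _ (eC_ab h _)
  commE := fun i => eC_ab h _
  ell := by
    rintro ⟨p, rfl, hp⟩ a ha
    right
    by_contra hcon
    rw [not_le] at hcon
    apply hp
    rw [mem_eC] at ha
    exact ⟨_, ha, by rw [tr_eσ]; exact hcon⟩

end Ends

end Pool.Agent.FrCB
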