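import Pool.Agent.Lib.MP_305fdd_al.Fr.R.Transfer
import Pool.Agent.Lib.MP_305fdd_al.Fr.R.P_serre

/-!
# MP_305fdd_al, F_r, Case 2: segments along lines, visible words, elliptic words
-/

set_option autoImplicit false

namespace Pool.Agent.FrC2

open Pool.Agent.FrZ Pool.Agent.FrR

section seg

variable {Γ T : Type} [Group Γ] [MetricSpace T] [MulAction Γ T]

/-- the segment from `o` to `u o` runs along the line -/
theorem line_seg (hT : IsRT T) (hiso : ∀ (g : Γ) (p q : T), dist (g • p) (g • q) = dist p q)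
    {o : T} {l : ℝ → T} {D s0 : ℝ} (hd : ∀ s, dist o (l s) = D + |s - s0|)
    (hl : ∀ s t, dist (l s) (l t) = |s - t|) {u : Γ} {U : ℝ} (hU : 0 < U)
    (hu : ∀ s, u • l s = l (s + U)) :
    dist o (u • o) = 2 * D + U ∧ ∀ s, s0 ≤ s → s ≤ s0 + U →
      Bt o (l s) (u • o) ∧ dist o (l s) = D + (s - s0) := by
  have h1 : ∀ s, dist (l s) (u • o) = D + |s - U - s0| := by
    intro s
    have h2 : l s = u • l (s - U) := by rw [hu, sub_add_cancel]
    rw [h2, hiso, dist_comm, hd]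
  have hD : dist o (l s0) = D := by rw [hd, sub_self, abs_zero, add_zero]
  have hD0 : 0 ≤ D := by rw [← hD]; exact dist_nonneg
  have e1 : dist o (l (s0 + U)) = D + U := by
    rw [hd, add_sub_cancel_left, abs_of_pos hU]
  have e2 : dist (l s0) (u • o) = D + U := by
    rw [h1, show s0 - U - s0 = -U by ring, abs_neg, abs_of_pos hU]
  have e3 : dist (l (s0 + U)) (u • o) = D := by
    rw [h1, show s0 + U - U - s0 = 0 by ring, abs_zero, add_zero]
  have e4 : dist (l (s0 + U)) (l s0) = U := by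
    rw [hl, add_sub_cancel_left, abs_of_pos hU]
  have h3 : dist o (u • o) = 2 * D + U := by
    apply le_antisymm
    · have := dist_triangle o (l s0) (u • o)
      linarith
    · have h4 := hT.hyp o (l (s0 + U)) (l s0) (u • o)
      rw [e1, e2, e3, e4, hD] at h4
      rcases le_max_iff.1 h4 with h5 | h5 <;> linarith
  refine ⟨h3, fun s h5 h6 => ⟨?_, ?_⟩⟩
  · unfold Bt
    rw [hd, h1, h3, abs_of_nonneg (by linarith), abs_of_nonpos (by linarith)]
    ring
  · rw [hd, abs_of_nonneg (by linarith)]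

end seg

section vis

variable {S Γ T T' : Type} [Finite S] [Group Γ] [MetricSpace T] [MulAction Γ T]
  [MetricSpace T'] [MulAction Γ T']
variable {ρ : FreeGroup S →* Γ} {o : T} {o' : T'} {n : ℕ}

theorem lab_suffix {γ₁ γ₂ l : List (S × Bool)} (h : l.reverse = γ₁ ++ γ₂) :
    ∃ l1 l2, l = l1 ++ l2 ∧ FrT.lab γ₁ = FreeGroup.mk l2 := by
  refine ⟨γ₂.reverse, γ₁.reverse, ?_, ?_⟩
  · rw [← List.reverse_append, ← h, List.reverse_reverse]
  · rw [← lab_reverse, List.reverse_reverse]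

/-- words of length `m` are visible at the vertices of `[o, u o]` -/
theorem vis (hT : IsRT T) (hiso : ∀ (g : Γ) (p q : T), dist (g • p) (g • q) = dist p q)
    (hP : HP (ball S n) (len ρ o)) {m : ℕ} (hm : 2 * m ≤ n) {u : FreeGroup S}
    (hu : u ∈ ball S m) {l : List (S × Bool)} (hl : l.length ≤ m) {z : T}
    (hz : KV (ball S n) ρ o z) (hzu : Bt o z (ρ u • o)) {γ₁ γ₂ : List (S × Bool)}
    (h : l.reverse = γ₁ ++ γ₂) : KV (ball S n) ρ o (ρ (FrT.lab γ₁) • z) := by
  obtain ⟨l1, l2, h1, h2⟩ := lab_suffix h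
  rw [h2]
  have hlen := congrArg List.length h1
  rw [List.length_append] at hlen
  have k1 : FreeGroup.mk l2 ∈ ball S m := mem_ball.2 ⟨l2, by omega, rfl⟩
  have k3 : FreeGroup.mk l2 * u ∈ ball S n := ball_mono (by omega) (mul_mem_ball k1 hu)
  have a1 : KV (ball S n) ρ o (ρ (FreeGroup.mk l2) • o) :=
    KV.end' hP (ball_mono (by omega) k1)
  have a2 : KV (ball S n) ρ o (ρ (FreeGroup.mk l2 * u) • o) := KV.end' hP k3
  obtain ⟨k, hk⟩ := hz.2
  refine KV.between hT hiso hP a1 a2 (m := k) ?_ ?_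
  · rw [map_mul, mul_smul]
    exact hzu.smul hiso _
  · rw [hiso, hk]

variable {N : ℕ} {lo : FreeGroup S → ℝ} {L : ℝ →+ ℚ} {G : Type} [Group G]
  (π : FreeGroup S →* G)

/-- an elliptic word fixes a vertex of the tree -/
theorem ell_fix (hRT : IsRT T')
    (hiso' : ∀ (g : Γ) (p q : T'), dist (g • p) (g • q) = dist p q)
    (hT : Trn N n (len ρ o) (len ρ o') lo L) {m : ℕ} (hm : 2 * m ≤ n)
    (hN : n ≤ N) {w : FreeGroup S} (hw : w ∈ ball S m)
    (hw0 : dist o (ρ w • ρ w • o) ≤ dist o (ρ w • o)) :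
    ∃ p : (hpa (ball S n) ρ o').TV π, π w • p = p := by
  have hn : m ≤ n := by omega
  have h1 : len ρ o (w * w) ≤ len ρ o w := by
    unfold len
    rw [map_mul, mul_smul]
    exact hw0
  have hww : w * w ∈ ball S N := ball_mono (by omega) (mul_mem_ball hw hw)
  have h2 := hT.le _ hww _ (ball_mono (hn.trans hN) hw) h1
  have h2' : dist o' (ρ w • ρ w • o') ≤ dist o' (ρ w • o') := by
    unfold len at h2
    rwa [map_mul, mul_smul] at h2
  obtain ⟨c, hc⟩ := hT.four w (ball_mono (hn.trans hN) hw)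
  have hc' : dist o' (ρ w • o') = 4 * c := hc
  have hc0 : (0 : ℝ) ≤ c := by
    have := dist_nonneg (x := o') (y := ρ w • o')
    rw [hc'] at this
    linarith
  obtain ⟨z, hz1, hz2⟩ := hRT.geo o' (ρ w • o') (dist o' (ρ w • o') / 2)
    (by rw [hc']; linarith) (by rw [hc']; linarith)
  have hzb : Bt o' z (ρ w • o') := by unfold Bt; linarith
  have hfix := mid_fix hRT hiso' h2' hzb hz1
  have hkv : KV (ball S n) ρ o' z :=
    ⟨⟨w, ball_mono hn hw, hzb⟩, c, by rw [hz1, hc']; ring⟩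
  obtain ⟨l, hl1, hl2⟩ := mem_ball.1 hw
  obtain ⟨z', e1, e2⟩ := seg_vis hRT hiso' hT.hp hm l hl1 hl2 ⟨z, hkv⟩ hzb
  have e3 : z' = ⟨z, hkv⟩ := Subtype.ext (by rw [e1, hfix])
  rw [e3] at e2
  refine ⟨(hpa (ball S n) ρ o').pt π 1 ⟨z, hkv⟩, ?_⟩
  rw [FrT.PA.smul_pt, mul_one]
  have := (hpa (ball S n) ρ o').pt_path π l.reverse 1 _ _ e2
  rw [one_mul, lab_reverse, hl2] at this
  exact this

/-- finitely generated abelian elliptic subgroups fix a vertex of the tree -/
theorem ell_sub (hRT : IsRT T')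
    (hiso' : ∀ (g : Γ) (p q : T'), dist (g • p) (g • q) = dist p q)
    (hT : Trn N n (len ρ o) (len ρ o') lo L) {m : ℕ} (hm : 2 * m ≤ n)
    (hN : n ≤ N) (hG : (hpa (ball S n) ρ o').Good)
    (htree : ((hpa (ball S n) ρ o').TG π hG).IsTree) (A : Finset (FreeGroup S))
    (hA : ∀ w ∈ A, w ∈ ball S m)
    (hA0 : ∀ w ∈ A, dist o (ρ w • ρ w • o) ≤ dist o (ρ w • o))
    (hcomm : ∀ w ∈ A, ∀ w' ∈ A, π w * π w' = π w' * π w) :
    ∃ p : (hpa (ball S n) ρ o').TV π, ∀ g ∈ Subgroup.closure (π '' (A : Set (FreeGroup S))),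
      g • p = p := by
  classical
  obtain ⟨p, hp⟩ := p_serre G ((hpa (ball S n) ρ o').TV π) ((hpa (ball S n) ρ o').TG π hG)
    ((hpa (ball S n) ρ o').tcol π hG) htree ((hpa (ball S n) ρ o').acts π hG)
    ((hpa (ball S n) ρ o').tcol_smul π hG) (by
      intro x y hxy
      obtain ⟨g, a, b, hab, rfl, rfl⟩ := hxy
      rw [FrT.PA.tcol_pt, FrT.PA.tcol_pt]
      exact hG.colK a b hab) A.card (fun i => π (A.equivFin.symm i).1)
    (fun i j => hcomm _ (A.equivFin.symm i).2 _ (A.equivFin.symm j).2)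
    (fun i => ell_fix π hRT hiso' hT hm hN (hA _ (A.equivFin.symm i).2)
      (hA0 _ (A.equivFin.symm i).2))
  refine ⟨p, ?_⟩
  have hle : Subgroup.closure (π '' (A : Set (FreeGroup S))) ≤ MulAction.stabilizer G p := by
    rw [Subgroup.closure_le]
    rintro _ ⟨w, hw, rfl⟩
    have := hp (A.equivFin ⟨w, hw⟩)
    rw [Equiv.symm_apply_apply] at this
    exact this
  intro g hg
  exact hle hg

end vis

end Pool.Agent.FrC2
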