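import Pool.Agent.Lib.MP_305fdd_al.Fr.T.BS

/-!
# MP_305fdd_al, F_r, Case 2: several orbits of loop edges

`G` acts on a tree `X`, `(u i, w i)` are edges in different orbits, `t i` maps `u i` into the component
of `w i` after removing all these orbits, all `u i` are in the component of `x0`.  Then `G` has the
universal property of a multiple HNN extension of the stabiliser of this component.
-/

set_option autoImplicit false
set_option linter.unusedSectionVars false
set_option linter.unusedVariables false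

namespace Pool.Agent.FrC2

open Pool.Agent.FrT

/-- all translates of all edges -/
def Orbs (G : Type) {V ι : Type} [Group G] [MulAction G V] (u w : ι → V) : Set (Sym2 V) :=
  {e | ∃ (i : ι) (g : G), e = s(g • u i, g • w i)}

/-- connected outside the orbits of the edges -/
def RchA (G : Type) {V ι : Type} [Group G] [MulAction G V] (X : SimpleGraph V) (u w : ι → V)
    (x y : V) : Prop :=
  (X.deleteEdges (Orbs G u w)).Reachable x y

variable {G V ι : Type} [Group G] [MulAction G V] {X : SimpleGraph V} {u w : ι → V}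

theorem RchA.refl (x : V) : RchA G X u w x x := SimpleGraph.Reachable.refl _

theorem RchA.symm {x y : V} (h : RchA G X u w x y) : RchA G X u w y x :=
  SimpleGraph.Reachable.symm h

theorem RchA.trans {x y z : V} (h : RchA G X u w x y) (h' : RchA G X u w y z) :
    RchA G X u w x z :=
  SimpleGraph.Reachable.trans h h'

theorem RchA.adj {x y : V} (h : X.Adj x y) (h' : s(x, y) ∉ Orbs G u w) : RchA G X u w x y :=
  SimpleGraph.Adj.reachable (by rw [SimpleGraph.deleteEdges_adj]; exact ⟨h, h'⟩)

theorem orbs_smul {x y : V} (g : G) (h : s(g • x, g • y) ∈ Orbs G u w) : s(x, y) ∈ Orbs G u w := by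
  obtain ⟨i, k, hk⟩ := h
  refine ⟨i, g⁻¹ * k, ?_⟩
  rw [mul_smul, mul_smul]
  have := congrArg (Sym2.map (fun x => g⁻¹ • x)) hk
  simpa using this

theorem RchA.smul (hact : ∀ (g : G) (x y : V), X.Adj x y → X.Adj (g • x) (g • y)) (g : G) {x y : V}
    (h : RchA G X u w x y) : RchA G X u w (g • x) (g • y) := by
  obtain ⟨p⟩ := h
  induction p with
  | nil => exact RchA.refl _
  | @cons a b c hab p ih =>
    refine RchA.trans ?_ ih
    rw [SimpleGraph.deleteEdges_adj] at hab
    exact RchA.adj (hact g a b hab.1) fun hk => hab.2 (orbs_smul g hk)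

/-- the stabiliser of the component of `x` -/
def SA (hact : ∀ (g : G) (x y : V), X.Adj x y → X.Adj (g • x) (g • y)) (u w : ι → V) (x : V) :
    Subgroup G where
  carrier := {g | RchA G X u w (g • x) x}
  mul_mem' := by
    intro g h hg hh
    show RchA G X u w ((g * h) • x) x
    rw [mul_smul]
    exact (RchA.smul hact g hh).trans hg
  one_mem' := by
    show RchA G X u w ((1 : G) • x) x
    rw [one_smul]
    exact RchA.refl x
  inv_mem' := by
    intro g hg
    show RchA G X u w (g⁻¹ • x) x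
    have := RchA.smul hact g⁻¹ hg
    rw [inv_smul_smul] at this
    exact this.symm

theorem mem_SA (hact : ∀ (g : G) (x y : V), X.Adj x y → X.Adj (g • x) (g • y)) {x : V} {g : G} :
    g ∈ SA hact u w x ↔ RchA G X u w (g • x) x :=
  Iff.rfl

/-- every vertex is in the component of a translate of `x0` -/
theorem exists_comp (hX : X.IsTree)
    (hact : ∀ (g : G) (x y : V), X.Adj x y → X.Adj (g • x) (g • y)) {t : ι → G} {x0 : V}
    (hu : ∀ i, RchA G X u w (u i) x0) (hw : ∀ i, RchA G X u w (t i • u i) (w i)) (x : V) :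
    ∃ g : G, RchA G X u w (g • x0) x := by
  obtain ⟨p⟩ := hX.connected.preconnected x0 x
  have key : ∀ (a b : V), X.Walk a b → (∃ g : G, RchA G X u w (g • x0) a) →
      ∃ g : G, RchA G X u w (g • x0) b := by
    intro a b p
    induction p with
    | nil => exact id
    | @cons a b c hab p ih =>
      rintro ⟨g, hg⟩
      apply ih
      by_cases h : s(a, b) ∈ Orbs G u w
      · obtain ⟨i, k, hk⟩ := h
        rw [Sym2.eq_iff] at hk
        rcases hk with ⟨h1, h2⟩ | ⟨h1, h2⟩
        · refine ⟨k * t i, ?_⟩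
          rw [h2, mul_smul]
          have h3 := RchA.smul hact (k * t i) (hu i)
          rw [mul_smul, mul_smul] at h3
          exact h3.symm.trans (RchA.smul hact k (hw i))
        · refine ⟨k, ?_⟩
          rw [h2]
          exact (RchA.smul hact k (hu i)).symm
      · exact ⟨g, hg.trans (RchA.adj hab h)⟩
  exact key _ _ p ⟨1, by rw [one_smul]; exact RchA.refl x0⟩

/-- THE UNIVERSAL PROPERTY -/
theorem mup (hX : X.IsTree)
    (hact : ∀ (g : G) (x y : V), X.Adj x y → X.Adj (g • x) (g • y))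
    (hinv : ∀ (i j : ι) (g : G), ¬ (g • u i = w j ∧ g • w i = u j))
    (hdist : ∀ (i j : ι) (g : G), g • u i = u j → g • w i = w j → i = j)
    (huw : ∀ i, X.Adj (u i) (w i)) {t : ι → G} {x0 : V}
    (hu : ∀ i, RchA G X u w (u i) x0) (hw : ∀ i, RchA G X u w (t i • u i) (w i))
    (A : Subgroup G) (hmem : ∀ g : G, g ∈ A ↔ RchA G X u w (g • x0) x0)
    {Q : Type} [Group Q] (s : A →* Q) (τ : ι → Q)
    (hτ : ∀ (i : ι) (c d : A), (c : G) • u i = u i → (c : G) • w i = w i →
      (c : G) * t i = t i * d → s c * τ i = τ i * s d) :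
    ∃ S : G →* Q, (∀ a : A, S a = s a) ∧ ∀ i, S (t i) = τ i := by
  classical
  -- sections
  let cl : V → (X.deleteEdges (Orbs G u w)).ConnectedComponent := fun x =>
    (X.deleteEdges (Orbs G u w)).connectedComponentMk x
  have hcl : ∀ x y, cl x = cl y ↔ RchA G X u w x y := fun x y =>
    SimpleGraph.ConnectedComponent.eq
  have hex : ∀ c : (X.deleteEdges (Orbs G u w)).ConnectedComponent, ∃ g : G, cl (g • x0) = c := by
    intro c
    obtain ⟨x, rfl⟩ := c.exists_rep
    obtain ⟨g, hg⟩ := exists_comp hX hact hu hw x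
    exact ⟨g, (hcl _ _).2 hg⟩
  choose sc hsc using hex
  let sec : V → G := fun x => sc (cl x)
  have hsec : ∀ x, RchA G X u w (sec x • x0) x := fun x => (hcl _ _).1 (hsc (cl x))
  have hsec_eq : ∀ x y, RchA G X u w x y → sec x = sec y := by
    intro x y h
    show sc (cl x) = sc (cl y)
    rw [(hcl x y).2 h]
  -- membership
  have hmA : ∀ (x : V) (g : G), RchA G X u w (g • x0) x → (sec x)⁻¹ * g ∈ A := by
    intro x g h
    rw [hmem, mul_smul]
    have h1 := RchA.smul hact (sec x)⁻¹ (h.trans (hsec x).symm)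
    rw [inv_smul_smul] at h1
    exact h1
  let sA : G → Q := fun g => if h : g ∈ A then s ⟨g, h⟩ else 1
  have sA_mem : ∀ (g : G) (h : g ∈ A), sA g = s ⟨g, h⟩ := fun g h => dif_pos h
  have sA_mul : ∀ g h : G, g ∈ A → h ∈ A → sA (g * h) = sA g * sA h := by
    intro g h hg hh
    rw [sA_mem g hg, sA_mem h hh, sA_mem _ (A.mul_mem hg hh), ← map_mul]
    rfl
  have sA_inv : ∀ g : G, g ∈ A → sA g⁻¹ = (sA g)⁻¹ := by
    intro g hg
    rw [sA_mem g hg, sA_mem _ (A.inv_mem hg), ← map_inv]
    rfl
  have m1 : ∀ i g, (sec (g • u i))⁻¹ * g ∈ A := fun i g =>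
    hmA _ _ (RchA.smul hact g (hu i).symm)
  have m2 : ∀ i g, (sec (g • w i))⁻¹ * (g * t i) ∈ A := by
    intro i g
    apply hmA
    have h1 := RchA.smul hact (g * t i) (hu i).symm
    refine h1.trans ?_
    rw [mul_smul]
    exact RchA.smul hact g (hw i)
  let κ : ι → G → Q := fun i g =>
    sA ((sec (g • u i))⁻¹ * g) * τ i * (sA ((sec (g • w i))⁻¹ * (g * t i)))⁻¹
  have hκ : ∀ i j g g', g • u i = g' • u j → g • w i = g' • w j → κ i g = κ j g' := by
    intro i j g g' h1 h2
    have hij : i = j := by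
      refine hdist i j (g'⁻¹ * g) ?_ ?_
      · rw [mul_smul, h1, inv_smul_smul]
      · rw [mul_smul, h2, inv_smul_smul]
    subst hij
    -- `g' = g k`
    set k := g⁻¹ * g' with hk
    have hg' : g' = g * k := by rw [hk]; group
    have k1 : k • u i = u i := by rw [hk, mul_smul, ← h1, inv_smul_smul]
    have k2 : k • w i = w i := by rw [hk, mul_smul, ← h2, inv_smul_smul]
    have k3 : k ∈ A := by
      rw [hmem]
      have h3 := RchA.smul hact k (hu i)
      rw [k1] at h3
      exact h3.symm.trans (hu i)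
    have k4 : (t i)⁻¹ * k * t i ∈ A := by
      rw [hmem, mul_smul, mul_smul]
      have h3 := (RchA.smul hact (t i) (hu i)).symm.trans (hw i)
      have h4 := RchA.smul hact k h3
      rw [k2] at h4
      have h5 := RchA.smul hact (t i)⁻¹ (h4.trans h3.symm)
      rw [inv_smul_smul] at h5
      exact h5
    have h3 := hτ i ⟨k, k3⟩ ⟨(t i)⁻¹ * k * t i, k4⟩ k1 k2 (by simp only; group)
    rw [← sA_mem, ← sA_mem] at h3
    simp only [κ]
    rw [← h1, ← h2, hg']
    have e1 : (sec (g • u i))⁻¹ * (g * k) = ((sec (g • u i))⁻¹ * g) * k := by group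
    have e2 : (sec (g • w i))⁻¹ * (g * k * t i) =
        ((sec (g • w i))⁻¹ * (g * t i)) * ((t i)⁻¹ * k * t i) := by group
    rw [e1, e2, sA_mul _ _ (m1 i g) k3, sA_mul _ _ (m2 i g) k4, mul_inv_rev]
    have e3 : sA k * τ i * (sA ((t i)⁻¹ * k * t i))⁻¹ = τ i := by
      rw [h3]; group
    calc sA ((sec (g • u i))⁻¹ * g) * τ i * (sA ((sec (g • w i))⁻¹ * (g * t i)))⁻¹
        = sA ((sec (g • u i))⁻¹ * g) * (sA k * τ i * (sA ((t i)⁻¹ * k * t i))⁻¹) *
          (sA ((sec (g • w i))⁻¹ * (g * t i)))⁻¹ := by rw [e3]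
      _ = _ := by group
  -- the potential
  let c : V → V → Q := fun x y =>
    if h : ∃ z : ι × G, z.2 • u z.1 = x ∧ z.2 • w z.1 = y then κ h.choose.1 h.choose.2
    else if h : ∃ z : ι × G, z.2 • u z.1 = y ∧ z.2 • w z.1 = x then
      (κ h.choose.1 h.choose.2)⁻¹ else 1
  have hex2 : ∀ x y, (∃ z : ι × G, z.2 • u z.1 = x ∧ z.2 • w z.1 = y) →
      ¬ ∃ z : ι × G, z.2 • u z.1 = y ∧ z.2 • w z.1 = x := by
    rintro x y ⟨⟨i, g⟩, rfl, rfl⟩ ⟨⟨j, g'⟩, h1, h2⟩
    simp only at h1 h2
    apply hinv j i (g⁻¹ * g')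
    rw [mul_smul, mul_smul, h1, h2, inv_smul_smul, inv_smul_smul]
    exact ⟨rfl, rfl⟩
  have hc : ∀ x y, X.Adj x y → c y x = (c x y)⁻¹ := by
    intro x y _
    simp only [c]
    by_cases h1 : ∃ z : ι × G, z.2 • u z.1 = x ∧ z.2 • w z.1 = y
    · rw [dif_neg (hex2 x y h1), dif_pos h1, dif_pos h1]
    · by_cases h2 : ∃ z : ι × G, z.2 • u z.1 = y ∧ z.2 • w z.1 = x
      · rw [dif_pos h2, dif_neg h1, dif_pos h2, inv_inv]
      · rw [dif_neg h2, dif_neg h1, dif_neg h1, dif_neg h2, inv_one]
  obtain ⟨q, hq⟩ := potG hX c hc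
  have hc1 : ∀ i g, c (g • u i) (g • w i) = κ i g := by
    intro i g
    have h1 : ∃ z : ι × G, z.2 • u z.1 = g • u i ∧ z.2 • w z.1 = g • w i := ⟨(i, g), rfl, rfl⟩
    simp only [c]
    rw [dif_pos h1]
    exact hκ _ _ _ _ h1.choose_spec.1 h1.choose_spec.2
  have hc0 : ∀ x y, s(x, y) ∉ Orbs G u w → c x y = 1 := by
    intro x y h
    have h1 : ¬ ∃ z : ι × G, z.2 • u z.1 = x ∧ z.2 • w z.1 = y := by
      rintro ⟨⟨i, g⟩, h1, h2⟩
      exact h ⟨i, g, by rw [← h1, ← h2]⟩
    have h2 : ¬ ∃ z : ι × G, z.2 • u z.1 = y ∧ z.2 • w z.1 = x := by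
      rintro ⟨⟨i, g⟩, h1, h2⟩
      exact h ⟨i, g, by rw [← h1, ← h2]; exact Sym2.eq_swap⟩
    simp only [c]
    rw [dif_neg h1, dif_neg h2]
  have hqR : ∀ x y, RchA G X u w x y → q x = q y := by
    rintro x y ⟨p⟩
    induction p with
    | nil => rfl
    | @cons a b d hab p ih =>
      rw [← ih]
      rw [SimpleGraph.deleteEdges_adj] at hab
      have h1 := hq a b hab.1
      rw [hc0 a b hab.2, mul_one] at h1
      exact h1.symm
  -- the homomorphism
  have m3 : ∀ (g : G) (x : V), (sec (g • x))⁻¹ * (g * sec x) ∈ A := by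
    intro g x
    apply hmA
    rw [mul_smul]
    exact RchA.smul hact g (hsec x)
  let F : G → V → Q := fun g x => q (g • x) * sA ((sec (g • x))⁻¹ * (g * sec x)) * (q x)⁻¹
  have hF : ∀ (g : G) (x y : V), F g x = F g y := by
    intro g x y
    obtain ⟨p⟩ := hX.connected.preconnected x y
    induction p with
    | nil => rfl
    | @cons a b d hab p ih =>
      rw [← ih]
      by_cases h : s(a, b) ∈ Orbs G u w
      · have key : ∀ (i : ι) (k : G), X.Adj (k • u i) (k • w i) → F g (k • u i) = F g (k • w i) := by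
          intro i k hadj
          have h1 := hq _ _ hadj
          rw [hc1] at h1
          have h2 := hq _ _ (hact g _ _ hadj)
          rw [← mul_smul, ← mul_smul, hc1] at h2
          simp only [F]
          rw [← mul_smul, ← mul_smul, h1, h2]
          simp only [κ]
          have e1 : (sec ((g * k) • u i))⁻¹ * (g * k) =
              ((sec ((g * k) • u i))⁻¹ * (g * sec (k • u i))) * ((sec (k • u i))⁻¹ * k) := by
            group
          have e2 : (sec ((g * k) • w i))⁻¹ * (g * k * t i) =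
              ((sec ((g * k) • w i))⁻¹ * (g * sec (k • w i))) *
                ((sec (k • w i))⁻¹ * (k * t i)) := by
            group
          have n1 := m3 g (k • u i)
          have n2 := m3 g (k • w i)
          rw [← mul_smul] at n1 n2
          rw [e1, e2, sA_mul _ _ n1 (m1 i k), sA_mul _ _ n2 (m2 i k)]
          group
        obtain ⟨i, k, hk⟩ := h
        rw [Sym2.eq_iff] at hk
        rcases hk with ⟨h1, h2⟩ | ⟨h1, h2⟩
        · subst h1 h2; exact key i k hab
        · subst h1 h2; exact (key i k hab.symm).symm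
      · have h1 := RchA.adj hab h
        have h2 := RchA.smul hact g h1
        simp only [F]
        rw [hqR _ _ h1, hqR _ _ h2, hsec_eq _ _ h1, hsec_eq _ _ h2]
  have hFmul : ∀ (g h : G) (x : V), F (g * h) x = F g (h • x) * F h x := by
    intro g h x
    simp only [F]
    have n1 := m3 g (h • x)
    have n2 := m3 h x
    rw [← mul_smul] at n1
    have e1 : (sec ((g * h) • x))⁻¹ * (g * h * sec x) =
        ((sec ((g * h) • x))⁻¹ * (g * sec (h • x))) * ((sec (h • x))⁻¹ * (h * sec x)) := by group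
    rw [← mul_smul, e1, sA_mul _ _ n1 n2]
    group
  set e := sec x0 with he
  have heA : e ∈ A := (hmem e).2 (hsec x0)
  set z := q x0 * (sA e)⁻¹ with hz
  let S : G →* Q :=
    { toFun := fun g => z⁻¹ * F g x0 * z
      map_one' := by
        have h1 := hFmul 1 1 x0
        rw [hF 1 ((1 : G) • x0) x0, mul_one] at h1
        have h2 : F 1 x0 = 1 := by
          have := congrArg (fun y => (F 1 x0)⁻¹ * y) h1
          simp only [inv_mul_cancel, inv_mul_cancel_left] at this
          exact this.symm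
        rw [h2]; group
      map_mul' := by
        intro g h
        rw [hFmul, hF g (h • x0) x0]
        group }
  have hS : ∀ g, S g = z⁻¹ * F g x0 * z := fun g => rfl
  refine ⟨S, ?_, ?_⟩
  · intro a
    have ha : RchA G X u w ((a : G) • x0) x0 := (hmem _).1 a.2
    rw [hS]
    simp only [F]
    rw [hqR _ _ ha, hsec_eq _ _ ha, ← he]
    have e1 : e⁻¹ * ((a : G) * e) = e⁻¹ * (a : G) * e := by group
    rw [e1, sA_mul _ _ (A.mul_mem (A.inv_mem heA) a.2) heA, sA_mul _ _ (A.inv_mem heA) a.2,
      sA_inv _ heA, sA_mem _ a.2, hz]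
    group
  · intro i
    rw [hS, hF (t i) x0 (u i)]
    simp only [F]
    have hui : sec (u i) = e := hsec_eq _ _ (hu i)
    have hqi : q (u i) = q x0 := hqR _ _ (hu i)
    have hti : sec (t i • u i) = sec (w i) := hsec_eq _ _ (hw i)
    have hqt : q (t i • u i) = q (w i) := hqR _ _ (hw i)
    have hqw : q (w i) = q x0 * κ i 1 := by
      have h1 := hq (u i) (w i) (huw i)
      have h2 := hc1 i 1
      rw [one_smul, one_smul] at h2
      rw [h1, h2, hqi]
    rw [hui, hqi, hti, hqt, hqw]
    have k1 : κ i 1 = (sA e)⁻¹ * τ i * (sA ((sec (w i))⁻¹ * t i))⁻¹ := by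
      simp only [κ]
      rw [one_smul, one_smul, hui, mul_one, one_mul, sA_inv _ heA]
    have m4 : (sec (w i))⁻¹ * t i ∈ A := by
      have := m2 i 1
      rwa [one_smul, one_mul] at this
    have e1 : (sec (w i))⁻¹ * (t i * e) = ((sec (w i))⁻¹ * t i) * e := by group
    rw [k1, e1, sA_mul _ _ m4 heA, hz]
    group

end Pool.Agent.FrC2
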