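import Pool.Agent.Lib.MP_305fdd_al.Fr.C2.Sides

/-!
# MP_305fdd_al, F_r, Case 2: the window data
-/

set_option autoImplicit false

namespace Pool.Agent.FrC2

open Pool.Agent.FrS Pool.Agent.FrR Pool.Agent.FrZ Matrix

variable {Γ L H ι : Type} [Group Γ] [Field L] [CharP L 2]
  {ρ : Γ →* SpecialLinearGroup (Fin 2) L} {x : RV L} {P : Subgroup Γ} {Z : H → Subgroup Γ}
  {k : H → SpecialLinearGroup (Fin 2) L} {E : ι → Subgroup Γ}
  {S : Type} [Finite S]

namespace LineIn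

variable (hin : LineIn ρ x P Z k E) (π : FreeGroup S →* P.map ρ)

/-- the integral translations -/
noncomputable def fi (L₀ : ℝ →+ ℚ) (h : H) (g : P.map ρ) : ℤ := Lz L₀ ((hin.line h).φ g) / 2

theorem mkWD {N n : ℕ} {lo : FreeGroup S → ℝ}
    (hlo : Disj (ball S n) (len π (bp x)) (len π (bp x)) lo)
    (u : H → Ix (ball S n) (len π (bp x))) (hu : ∀ h, π (u h).1 ∈ (hin.line h).E)
    (hU : ∀ h, 0 < (hin.line h).φ (π (u h).1)) {L₀ : ℝ →+ ℚ} {x' : RV L}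
    (hx' : ∀ h, ∀ z ∈ Z h, x'.v (eg ρ (k h) z) = (L₀ (x.v (eg ρ (k h) z)) : ℝ))
    (hper : ∀ h, Dk x' (k h) = (L₀ (Dk x (k h)) : ℝ))
    (htrn : Trn N n (len π (bp x)) (len π (bp x')) lo L₀)
    {D : Set (Ix (ball S n) (len π (bp x)) × Σ i, P.map ρ ⧸ (hin.line i).E)}
    (hG : ((bsys (ball S n) (len π (bp x)) (len π (bp x)) lo).map (Lz L₀)).Good)
    (hI : (hin.fam π hlo).IntArcs D L₀
      ((bsys (ball S n) (len π (bp x)) (len π (bp x)) lo).map (Lz L₀)))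
    (hD : ∀ h, (u h, ⟨h, ((1 : P.map ρ) : P.map ρ ⧸ (hin.line h).E)⟩) ∈ D)
    (hΛD : ∀ h, Dk x (k h) ∈ Lam L₀) (hΛ : ∀ h, ∀ g ∈ (hin.line h).E, (hin.line h).φ g ∈ Lam L₀)
    (hL : ∀ h, 0 < L₀ ((hin.line h).φ (π (u h).1)))
    (hp : ∀ h, L₀ ((hin.fam π hlo).p (u h, ⟨h, ((1 : P.map ρ) : P.map ρ ⧸ (hin.line h).E)⟩)) ≤
      L₀ (lo (u h).1 + Dk x (k h)))
    (hq : ∀ h, L₀ (lo (u h).1 + (Dk x (k h) + (hin.line h).φ (π (u h).1))) ≤
      L₀ ((hin.fam π hlo).q (u h, ⟨h, ((1 : P.map ρ) : P.map ρ ⧸ (hin.line h).E)⟩))) :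
    WD π (bp x') (ball S n) (len π (bp x)) (fun u => ((L₀ (lo u) : ℚ) : ℝ))
      ((bsys (ball S n) (len π (bp x)) (len π (bp x)) lo).map (Lz L₀))
      (bsys (ball S n) (len π (bp x)) (len π (bp x)) lo) (hin.fam π hlo) D L₀
      (fun h => (hin.line h).E) (hin.fi L₀) (fun h s => cls (⟨k h, s⟩ : Pre x'))
      (fun h => ⟨h, ((1 : P.map ρ) : P.map ρ ⧸ (hin.line h).E)⟩) u
      (fun h => Sk x' (k h)) (fun h => Lz L₀ (Dk x (k h)) / 2)
      (fun h => Lz L₀ ((hin.line h).φ (π (u h).1)) / 2) := by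
  have hseg : ∀ h, _ := fun h => line_seg (isRT x') (isoSub x' (P.map ρ)) (o := bp x')
    (l := fun s => cls (⟨k h, s⟩ : Pre x')) (D := Dk x' (k h)) (s0 := Sk x' (k h))
    (fun s => dist_bp_cls x' (k h) s) (fun s t => dist_same (k h) s t)
    (u := π (u h).1) (U := ((L₀ ((hin.line h).φ (π (u h).1)) : ℚ) : ℝ))
    (by exact_mod_cast hL h) (fun s => hin.act' hx' h (hu h) s)
  have hlo' : ∀ h, ((((bsys (ball S n) (len π (bp x)) (len π (bp x)) lo).map (Lz L₀)).lo (u h) :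
      ℤ) : ℚ) = L₀ (lo (u h).1) := fun h => htrn.tp.lo (u h)
  refine { hT := isRT x', hiso := isoSub x' (P.map ρ), hC := htrn.cp, hP := htrn.hp,
           hX := htrn.toR, hG := hG, hE := Ev_of_Tp htrn.tp, hI := hI,
           iso := fun h s t => dist_same (k h) s t, act := ?_, add := ?_, ne := ?_, win := ?_,
           mem := hD, lop := ?_, hiq := ?_, st := ?_ }
  · intro h z hz s
    have h1 := hin.act' hx' h hz s
    rw [← half_real (hΛ h z hz)] at h1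
    exact h1
  · intro h a ha b hb
    have h1 := (hin.line h).φ_mul ha hb
    have h2 := two_half (hΛ h _ ((hin.line h).E.mul_mem ha hb))
    have h3 := two_half (hΛ h _ ha)
    have h4 := two_half (hΛ h _ hb)
    have h5 : (Lz L₀ ((hin.line h).φ (a * b)) : ℚ) =
        Lz L₀ ((hin.line h).φ a) + Lz L₀ ((hin.line h).φ b) := by
      rw [Lz_cast (hΛ h _ ((hin.line h).E.mul_mem ha hb)), Lz_cast (hΛ h _ ha),
        Lz_cast (hΛ h _ hb), h1, map_add]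
    have h6 : Lz L₀ ((hin.line h).φ (a * b)) =
        Lz L₀ ((hin.line h).φ a) + Lz L₀ ((hin.line h).φ b) := by exact_mod_cast h5
    unfold fi
    omega
  · intro h
    refine ⟨_, hu h, ?_⟩
    have h1 := Lz_pos (hΛ h _ (hu h)) (hL h)
    have h2 := two_half (hΛ h _ (hu h))
    unfold fi
    omega
  · intro h m h1 h2
    have e1 := half_real (hΛ h _ (hu h))
    have e2 := half_real (hΛD h)
    have h2' : (m : ℝ) ≤ ((Lz L₀ ((hin.line h).φ (π (u h).1)) / 2 : ℤ) : ℝ) := by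
      exact_mod_cast h2
    have h1' : (0 : ℝ) ≤ m := by exact_mod_cast h1
    obtain ⟨h3, h4⟩ := (hseg h).2 (Sk x' (k h) + 2 * m) (by linarith) (by linarith)
    refine ⟨h3, ?_⟩
    show dist (bp x') (cls (⟨k h, Sk x' (k h) + 2 * m⟩ : Pre x')) = _
    rw [h4, hper h, ← e2]
    ring
  · intro h
    show Lz L₀ ((hin.fam π hlo).p (u h, ⟨h, ((1 : P.map ρ) : P.map ρ ⧸ (hin.line h).E)⟩)) ≤
      ((bsys (ball S n) (len π (bp x)) (len π (bp x)) lo).map (Lz L₀)).lo (u h) +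
        2 * (Lz L₀ (Dk x (k h)) / 2)
    rw [two_half (hΛD h)]
    have h1 := hp h
    have h2 := Int.floor_le
      (L₀ ((hin.fam π hlo).p (u h, ⟨h, ((1 : P.map ρ) : P.map ρ ⧸ (hin.line h).E)⟩)))
    rw [map_add, ← hlo' h, ← Lz_cast (hΛD h)] at h1
    have h3 := h2.trans h1
    exact_mod_cast h3
  · intro h
    show ((bsys (ball S n) (len π (bp x)) (len π (bp x)) lo).map (Lz L₀)).lo (u h) +
        2 * (Lz L₀ (Dk x (k h)) / 2 + Lz L₀ ((hin.line h).φ (π (u h).1)) / 2) ≤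
      Lz L₀ ((hin.fam π hlo).q (u h, ⟨h, ((1 : P.map ρ) : P.map ρ ⧸ (hin.line h).E)⟩))
    rw [mul_add, two_half (hΛD h), two_half (hΛ h _ (hu h))]
    have h1 := hq h
    rw [map_add, map_add, ← hlo' h, ← Lz_cast (hΛD h), ← Lz_cast (hΛ h _ (hu h))] at h1
    refine Int.le_floor.2 ?_
    push_cast
    exact h1
  · intro g h h' hgh
    obtain ⟨h1, h2⟩ := (lines_stab hin.line g 1 1 h h').1 hgh
    subst h1
    refine ⟨rfl, ?_⟩
    rwa [inv_one, one_mul, mul_one] at h2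

end LineIn

end Pool.Agent.FrC2
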