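import Pool.Agent.Lib.MP_305fdd_al.Fr.S.Defs
import Pool.Agent.Lib.MP_305fdd_al.Fr.R.SSmall
import Pool.Agent.Lib.MP_305fdd_al.Fr.Z.Int

/-!
# MP_305fdd_al, F_r, Case 2 (a real valuation which is not trivial on the edge groups):
statement of the LINE theorem in the frame of Fr/S/Defs.lean

`P ≤ Γ` is a (nonabelian) vertex group, `Z h` (`h : H`) are the hyperbolic maximal abelian subgroups
of `P` which meet the edge groups, `N h ≤ Z h` the elements with translation length zero for the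
perturbed valuation, `E i` the elliptic edge groups.
-/

set_option autoImplicit false

namespace Pool.Agent.FrC2

open Pool.Agent.FrS Pool.Agent.FrR Matrix

/-- `P` is a multiple HNN extension with base `A` and stable letters `g h * t h * (g h)⁻¹` which
commute with `g h * N h * (g h)⁻¹ ≤ A`, as far as representations in `SL(2, R)` are concerned; `Z h` is
generated by `N h` and `t h`; conjugates of the `E i` are in `A`. -/
structure LineOut {Γ : Type} [Group Γ] (P : Subgroup Γ) {H ι : Type} (Z N : H → Subgroup Γ)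
    (E : ι → Subgroup Γ) where
  A : Subgroup Γ
  g : H → Γ
  t : H → Γ
  k : ι → Γ
  le : A ≤ P
  fg : A.FG
  gP : ∀ h, g h ∈ P
  tZ : ∀ h, t h ∈ Z h
  kP : ∀ i, k i ∈ P
  dec : ∀ h, ∀ z ∈ Z h, ∃ n : ℤ, z * t h ^ n ∈ N h
  NA : ∀ h, ∀ z ∈ N h, g h * z * (g h)⁻¹ ∈ A
  EA : ∀ i, ∀ z ∈ E i, k i * z * (k i)⁻¹ ∈ A
  sup : ∀ P' : Subgroup Γ, A ≤ P' → (∀ h, g h * t h * (g h)⁻¹ ∈ P') → P ≤ P'
  ext : ∀ (R : Type) [CommRing R] [Algebra (ZMod 2) R] (r : Γ → SpecialLinearGroup (Fin 2) R)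
    (τ : H → SpecialLinearGroup (Fin 2) R), MulOn A r →
    (∀ h, ∀ z ∈ N h, r (g h * z * (g h)⁻¹) * τ h = τ h * r (g h * z * (g h)⁻¹)) →
    ∃ q : Γ → SpecialLinearGroup (Fin 2) R, MulOn P q ∧ (∀ x ∈ A, q x = r x) ∧
      ∀ h, q (g h * t h * (g h)⁻¹) = τ h

section

variable {Γ L : Type} [Group Γ] [Field L]

/-- the eigenvalue in the basis `k` -/
def eg (ρ : Γ →* SpecialLinearGroup (Fin 2) L) (k : SpecialLinearGroup (Fin 2) L) (z : Γ) : L :=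
  (k⁻¹ * ρ z * k).1 0 0

/-- Input of the LINE theorem (`T g = FrR.tr (ρ g)`, characteristic two). -/
structure LineIn (ρ : Γ →* SpecialLinearGroup (Fin 2) L) (x : RV L) (P : Subgroup Γ) {H ι : Type}
    (Z : H → Subgroup Γ) (k : H → SpecialLinearGroup (Fin 2) L) (E : ι → Subgroup Γ) : Prop where
  inj : Function.Injective ρ
  fgP : P.FG
  /-- semi-good position of the traces of `P` -/
  sg : ∀ g ∈ P, g ≠ 1 → tr (ρ g) ≠ 0 ∧ x.v (tr (ρ g)) ≤ 0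
  ZP : ∀ h, Z h ≤ P
  fgZ : ∀ h, (Z h).FG
  comm : ∀ h, ∀ a ∈ Z h, ∀ b ∈ Z h, a * b = b * a
  /-- `Z h` is a maximal abelian subgroup of `P` -/
  max : ∀ h, ∀ g ∈ P, (∀ z ∈ Z h, g * z = z * g) → g ∈ Z h
  /-- `k h` is an eigenbasis of `Z h` -/
  dg : ∀ h, ∀ z ∈ Z h, ((k h)⁻¹ * ρ z * k h).1 0 1 = 0 ∧ ((k h)⁻¹ * ρ z * k h).1 1 0 = 0
  /-- hyperbolic, not cyclic -/
  hyp : ∀ h, ∃ z ∈ Z h, x.v (eg ρ (k h) z) ≠ 0
  small : ∀ h, ∀ ε : ℝ, 0 < ε → ∃ z ∈ Z h, z ≠ 1 ∧ |x.v (eg ρ (k h) z)| < ε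
  /-- not conjugate in `P` -/
  diff : ∀ i j, i ≠ j → ∀ g ∈ P, ¬ ∀ y, g⁻¹ * y * g ∈ Z i ↔ y ∈ Z j
  EP : ∀ i, E i ≤ P
  fgE : ∀ i, (E i).FG
  commE : ∀ i, ∀ a ∈ E i, ∀ b ∈ E i, a * b = b * a
  ell : ∀ i, ∀ a ∈ E i, x.Ge 0 (tr (ρ a))

/-- THE LINE THEOREM.  (`hN`: the subgroups `N h` are the elements of `Z h` with value zero under the
perturbed valuation `x'`.) -/
def S_line : Prop :=
  ∀ (Γ L H ι : Type) [Group Γ] [Field L] [CharP L 2] [Finite H] [Finite ι]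
    (ρ : Γ →* SpecialLinearGroup (Fin 2) L) (x : RV L) (P : Subgroup Γ) (Z : H → Subgroup Γ)
    (k : H → SpecialLinearGroup (Fin 2) L) (E : ι → Subgroup Γ), LineIn ρ x P Z k E →
    ∃ (A₁ : Finset L) (F₁ E₁ : Finset ℝ), (∀ r ∈ F₁, 0 < r) ∧
      ∀ (L₀ : ℝ →+ ℚ), (∀ r ∈ F₁, 0 < L₀ r) → (∀ r ∈ E₁, r ∈ FrZ.Lam L₀) →
      ∀ (x' : RV L), (∀ a ∈ A₁, x'.v a = (L₀ (x.v a) : ℝ)) →
        (∀ h, ∀ z ∈ Z h, x'.v (eg ρ (k h) z) = (L₀ (x.v (eg ρ (k h) z)) : ℝ)) ∧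
        ∀ N : H → Subgroup Γ, (∀ h z, z ∈ N h ↔ z ∈ Z h ∧ x'.v (eg ρ (k h) z) = 0) →
          Nonempty (LineOut P Z N E)

end

end Pool.Agent.FrC2
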