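import Pool.Agent.Lib.MP_305fdd_al.Fr.C2.Abs
import Pool.Agent.Lib.MP_305fdd_al.Fr.R.Loops2
import Pool.Agent.Lib.MP_305fdd_al.Fr.CI.Main
import Pool.Agent.Lib.MP_305fdd_al.Fr.T.Edge

/-!
# MP_305fdd_al, F_r, Case 2: windows of lines in the simplicial tree of the perturbed system
-/

set_option autoImplicit false
set_option linter.unusedSectionVars false
set_option linter.unusedVariables false

namespace Pool.Agent.FrC2

open Pool.Agent.FrZ Pool.Agent.FrR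

section path

variable {S Γ T : Type} [Group Γ] [MetricSpace T] [MulAction Γ T]
variable {ρ : FreeGroup S →* Γ} {o : T} {P : Finset (FreeGroup S)}

/-- a visible word gives a path -/
theorem path_of_word : ∀ (γ : List (S × Bool)) (p : VK P ρ o),
    (∀ γ₁ γ₂, γ = γ₁ ++ γ₂ → KV P ρ o (ρ (FrT.lab γ₁) • p.1)) →
    ∃ q : VK P ρ o, (hpa P ρ o).Path γ p q ∧ q.1 = ρ (FrT.lab γ) • p.1 := by
  intro γ
  induction γ with
  | nil =>
    intro p _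
    exact ⟨p, rfl, by simp [FrT.lab]⟩
  | cons σ γ ih =>
    intro p h
    have h1 : KV P ρ o (ρ (FrT.sg σ) • p.1) := by
      have := h [σ] γ rfl
      simpa [FrT.lab] using this
    obtain ⟨q, hq1, hq2⟩ := ih ⟨_, h1⟩ (by
      intro γ₁ γ₂ he
      have := h (σ :: γ₁) γ₂ (by rw [he]; rfl)
      rw [FrT.lab, map_mul, mul_smul] at this
      exact this)
    refine ⟨q, ⟨⟨_, h1⟩, ?_, hq1⟩, ?_⟩
    · obtain ⟨s, b⟩ := σ
      cases b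
      · have h2 : (⟨_, h1⟩ : VK P ρ o) ∈ (hpa P ρ o).dom s := by
          show KV P ρ o (ρ (FreeGroup.of s) • ρ (FrT.sg (s, false)) • p.1)
          have : FrT.sg (s, false) = (FreeGroup.of s)⁻¹ := rfl
          rw [this, map_inv, smul_inv_smul]
          exact p.2
        refine (?_ : (⟨_, h1⟩ : VK P ρ o) ∈ (hpa P ρ o).dom s ∧ p = (hpa P ρ o).act s ⟨_, h1⟩)
        refine ⟨h2, Subtype.ext ?_⟩
        rw [hpa_act h2]
        have : FrT.sg (s, false) = (FreeGroup.of s)⁻¹ := rfl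
        show p.1 = ρ (FreeGroup.of s) • ρ (FrT.sg (s, false)) • p.1
        rw [this, map_inv, smul_inv_smul]
      · have h2 : p ∈ (hpa P ρ o).dom s := h1
        refine (?_ : p ∈ (hpa P ρ o).dom s ∧ (⟨_, h1⟩ : VK P ρ o) = (hpa P ρ o).act s p)
        refine ⟨h2, Subtype.ext ?_⟩
        rw [hpa_act h2]
        rfl
    · rw [hq2, FrT.lab, map_mul, mul_smul]

end path

/-- Window data: lines `l' h` in the tree `T'` of the perturbed valuation with integral positions. -/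
structure WD {S Γ T' H F : Type} [Group Γ] [MetricSpace T'] [MulAction Γ T'] [MulAction Γ F]
    (ρ : FreeGroup S →* Γ) (o : T') (P : Finset (FreeGroup S)) (ℓ₀ lo : FreeGroup S → ℝ)
    (X : Sys (Jx P ℓ₀) (Ix P ℓ₀) ℤ) (X₀ : Sys (Jx P ℓ₀) (Ix P ℓ₀) ℝ)
    (A : FrZ.Fam X₀ (ρ.comp (labJ P ℓ₀)) F) (D : Set (Ix P ℓ₀ × F)) (L₀ : ℝ →+ ℚ)
    (Z : H → Subgroup Γ) (φ : H → Γ → ℤ) (l' : H → ℝ → T') (f : H → F) (u : H → Ix P ℓ₀)
    (s0 : H → ℝ) (d N : H → ℤ) : Prop where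
  hT : IsRT T'
  hiso : ∀ (g : Γ) (p q : T'), dist (g • p) (g • q) = dist p q
  hC : Cp P ℓ₀ (len ρ o)
  hP : HP P (len ρ o)
  hX : toR X = bsys P ℓ₀ (len ρ o) lo
  hG : X.Good
  hE : Ev X
  hI : A.IntArcs D L₀ X
  iso : ∀ h s t, dist (l' h s) (l' h t) = |s - t|
  act : ∀ h, ∀ z ∈ Z h, ∀ s, z • l' h s = l' h (s + 2 * φ h z)
  add : ∀ h, ∀ a ∈ Z h, ∀ b ∈ Z h, φ h (a * b) = φ h a + φ h b
  ne : ∀ h, ∃ z ∈ Z h, φ h z ≠ 0
  /-- the window is on the segment `[o, u o]` -/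
  win : ∀ h (n : ℤ), 0 ≤ n → n ≤ N h → Bt o (l' h (s0 h + 2 * n)) (ρ (u h).1 • o) ∧
    dist o (l' h (s0 h + 2 * n)) = 2 * (d h + n)
  /-- the arcs of the family -/
  mem : ∀ h, (u h, f h) ∈ D
  lop : ∀ h, Lz L₀ (A.p (u h, f h)) ≤ X.lo (u h) + 2 * d h
  hiq : ∀ h, X.lo (u h) + 2 * (d h + N h) ≤ Lz L₀ (A.q (u h, f h))
  st : ∀ (g : Γ) h h', g • f h = f h' → h = h' ∧ g ∈ Z h

namespace WD

variable {S Γ T' H F : Type} [Group Γ] [MetricSpace T'] [MulAction Γ T'] [MulAction Γ F]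
  {ρ : FreeGroup S →* Γ} {o : T'} {P : Finset (FreeGroup S)} {ℓ₀ lo : FreeGroup S → ℝ}
  {X : Sys (Jx P ℓ₀) (Ix P ℓ₀) ℤ} {X₀ : Sys (Jx P ℓ₀) (Ix P ℓ₀) ℝ}
  {A : FrZ.Fam X₀ (ρ.comp (labJ P ℓ₀)) F} {D : Set (Ix P ℓ₀ × F)} {L₀ : ℝ →+ ℚ}
  {Z : H → Subgroup Γ} {φ : H → Γ → ℤ} {l' : H → ℝ → T'} {f : H → F} {u : H → Ix P ℓ₀}
  {s0 : H → ℝ} {d N : H → ℤ}
  (hW : WD ρ o P ℓ₀ lo X X₀ A D L₀ Z φ l' f u s0 d N)

include hW

theorem kv {h : H} {n : ℤ} (h1 : 0 ≤ n) (h2 : n ≤ N h) : KV P ρ o (l' h (s0 h + 2 * n)) := by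
  obtain ⟨h3, h4⟩ := hW.win h n h1 h2
  exact ⟨⟨(u h).1, (u h).2.1, h3⟩, d h + n, by rw [h4]; push_cast; ring⟩

theorem kv' {h : H} {n : ℤ} (h1 : 0 ≤ n) (h2 : n < N h) :
    KV P ρ o (l' h (s0 h + 2 * (n + 1 : ℤ))) :=
  hW.kv (h := h) (n := n + 1) (by omega) (by omega)

/-- the position of the edge -/
theorem rep {h : H} {n : ℤ} (h1 : 0 ≤ n) (h2 : n < N h) :
    Rep ρ o lo X (u h) (X.lo (u h) + 2 * (d h + n) + 1) true (l' h (s0 h + 2 * n))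
      (l' h (s0 h + 2 * (n + 1 : ℤ))) := by
  obtain ⟨h3, h4⟩ := hW.win h n h1 h2.le
  obtain ⟨h5, h6⟩ := hW.win h (n + 1) (by omega) (by omega)
  have e0 : (X.lo (u h) : ℝ) = lo (u h).1 := lo_eq hW.hX (u h)
  have e1 : (X.hi (u h) : ℝ) = lo (u h).1 + len ρ o (u h).1 := hi_eq hW.hX (u h)
  have h7 : 0 ≤ dist o (l' h (s0 h + 2 * n)) := dist_nonneg
  have h8 : dist o (l' h (s0 h + 2 * (n + 1 : ℤ))) ≤ len ρ o (u h).1 := h5.le
  rw [h4] at h7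
  rw [h6] at h8
  refine ⟨?_, ?_, ?_, ?_, ?_⟩
  · have : (0 : ℝ) ≤ ((d h + n : ℤ) : ℝ) := by push_cast; linarith
    have : 0 ≤ d h + n := by exact_mod_cast this
    omega
  · have : ((X.lo (u h) + 2 * (d h + n) + 1 : ℤ) : ℝ) < (X.hi (u h) : ℝ) := by
      rw [e1, ← e0]
      push_cast at h8 ⊢
      linarith
    exact_mod_cast this
  · obtain ⟨c, hc⟩ := hW.hE.lo (u h)
    exact ⟨c + (d h + n), by rw [hc]; ring⟩
  · have h9 := rea_eq hW.hT ρ o lo (u h) h3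
    rw [← h9, h4]
    congr 1
    rw [← e0]
    simp only [sgn, if_true]
    push_cast
    ring
  · have h9 := rea_eq hW.hT ρ o lo (u h) h5
    rw [← h9, h6]
    congr 1
    rw [← e0]
    simp only [sgn, if_true]
    push_cast
    ring

theorem adj {h : H} {n : ℤ} (h1 : 0 ≤ n) (h2 : n < N h) :
    dist (l' h (s0 h + 2 * n)) (l' h (s0 h + 2 * (n + 1 : ℤ))) = 2 := by
  rw [hW.iso]
  push_cast
  have : s0 h + 2 * (n : ℝ) - (s0 h + 2 * ((n : ℝ) + 1)) = -2 := by ring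
  rw [this, abs_neg, abs_of_pos (by norm_num)]

theorem adj' {h : H} {n : ℤ} (h1 : 0 ≤ n) (h2 : n < N h) :
    (hpa P ρ o).K.Adj ⟨_, hW.kv h1 h2.le⟩ ⟨_, hW.kv' h1 h2⟩ := hW.adj h1 h2

/-- words of bands from a window edge -/
theorem word_line {h h' : H} {n n' : ℤ} (h1 : 0 ≤ n) (h2 : n < N h) (h3 : 0 ≤ n')
    (h4 : n' < N h') {δ : List (Jx P ℓ₀ × Bool)}
    (hv : X.Valid (X.OK 0) δ (X.lo (u h) + 2 * (d h + n) + 1, true)) {b : Bool}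
    (hr : X.run δ (X.lo (u h) + 2 * (d h + n) + 1, true) =
      (X.lo (u h') + 2 * (d h' + n') + 1, b)) :
    h = h' ∧ ρ (labJ P ℓ₀ (lab δ)) ∈ Z h := by
  have hpos : ∀ {h : H} {n : ℤ}, 0 ≤ n → n < N h →
      Odd (X.lo (u h) + 2 * (d h + n) + 1) ∧
      Lz L₀ (A.p (u h, f h)) < X.lo (u h) + 2 * (d h + n) + 1 ∧
      X.lo (u h) + 2 * (d h + n) + 1 < Lz L₀ (A.q (u h, f h)) := by
    intro h n h1 h2
    have a1 := hW.lop h
    have a2 := hW.hiq h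
    refine ⟨?_, by omega, by omega⟩
    obtain ⟨c, hc⟩ := hW.hE.lo (u h)
    exact ⟨c + (d h + n), by rw [hc]; ring⟩
  obtain ⟨a1, a2, a3⟩ := hpos h1 h2
  obtain ⟨b1, b2, b3⟩ := hpos h3 h4
  obtain ⟨c', c1, c2, -, c3, c4⟩ := hW.hI.word A δ (u h, f h) _ true (hW.mem h) a1 a2 a3 hv
  rw [hr] at c3 c4
  have h5 := hW.hI.disj _ c1 _ (hW.mem h') _ c3 c4 b2 b3
  rw [h5] at c2
  exact hW.st _ h h' c2.symm

/-- words of letters from a window edge to a window edge -/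
theorem path_line {h h' : H} {n n' : ℤ} (h1 : 0 ≤ n) (h2 : n < N h) (h3 : 0 ≤ n')
    (h4 : n' < N h') {γ : List (S × Bool)}
    (p1 : (hpa P ρ o).Path γ ⟨_, hW.kv h1 h2.le⟩ ⟨_, hW.kv h3 h4.le⟩)
    (p2 : (hpa P ρ o).Path γ ⟨_, hW.kv' h1 h2⟩ ⟨_, hW.kv' h3 h4⟩) :
    h = h' ∧ ρ (FrT.lab γ) ∈ Z h ∧ φ h (ρ (FrT.lab γ)) = n' - n := by
  obtain ⟨δ, d1, d2, d3⟩ := exists_word hW.hT hW.hiso hW.hC hW.hP hW.hX hW.hG hW.hE γ
    (hW.rep h1 h2) (hW.rep h3 h4) (hW.adj' h1 h2) p1 p2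
  obtain ⟨e1, e2⟩ := hW.word_line h1 h2 h3 h4 d1 d2
  subst e1
  rw [d3] at e2
  refine ⟨rfl, e2, ?_⟩
  have h5 := path_val γ _ _ p1
  simp only at h5
  rw [hW.act h _ e2] at h5
  have h6 := hW.iso h (s0 h + 2 * n') (s0 h + 2 * n + 2 * φ h (ρ (FrT.lab γ)))
  rw [h5, dist_self] at h6
  have h7 := abs_eq_zero.1 h6.symm
  have h8 : ((φ h (ρ (FrT.lab γ)) : ℤ) : ℝ) = ((n' - n : ℤ) : ℝ) := by
    push_cast
    linarith
  exact_mod_cast h8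

/-- no flips -/
theorem path_flip {h h' : H} {n n' : ℤ} (h1 : 0 ≤ n) (h2 : n < N h) (h3 : 0 ≤ n')
    (h4 : n' < N h') {γ : List (S × Bool)}
    (p1 : (hpa P ρ o).Path γ ⟨_, hW.kv h1 h2.le⟩ ⟨_, hW.kv' h3 h4⟩)
    (p2 : (hpa P ρ o).Path γ ⟨_, hW.kv' h1 h2⟩ ⟨_, hW.kv h3 h4.le⟩) : False := by
  have hr := hW.rep h3 h4
  have hr' : Rep ρ o lo X (u h') (X.lo (u h') + 2 * (d h' + n') + 1) false
      (l' h' (s0 h' + 2 * (n' + 1 : ℤ))) (l' h' (s0 h' + 2 * n')) := by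
    obtain ⟨r1, r2, r3, r4, r5⟩ := hr
    refine ⟨r1, r2, r3, ?_, ?_⟩
    · rw [r5]
      simp [sgn]
    · rw [r4]
      simp [sgn, sub_eq_add_neg]
  obtain ⟨δ, d1, d2, d3⟩ := exists_word hW.hT hW.hiso hW.hC hW.hP hW.hX hW.hG hW.hE γ
    (hW.rep h1 h2) hr' (hW.adj' h1 h2) p1 p2
  obtain ⟨e1, e2⟩ := hW.word_line h1 h2 h3 h4 d1 d2
  subst e1
  rw [d3] at e2
  have key : ∀ m m' : ℤ, l' h (s0 h + 2 * m') = ρ (FrT.lab γ) • l' h (s0 h + 2 * m) →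
      (φ h (ρ (FrT.lab γ)) : ℝ) = m' - m := by
    intro m m' h5
    rw [hW.act h _ e2] at h5
    have h6 := hW.iso h (s0 h + 2 * m') (s0 h + 2 * m + 2 * φ h (ρ (FrT.lab γ)))
    rw [h5, dist_self] at h6
    have h7 := abs_eq_zero.1 h6.symm
    linarith
  have k1 := key n (n' + 1) (path_val γ _ _ p1)
  have k2 := key (n + 1) n' (path_val γ _ _ p2)
  push_cast at k1 k2
  linarith

/-- the vertices of the windows -/
noncomputable def _root_.Pool.Agent.FrC2.zz {S Γ T' : Type} [Group Γ] [MetricSpace T']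
    [MulAction Γ T'] {ρ : FreeGroup S →* Γ} {o : T'} {P : Finset (FreeGroup S)}
    (v0 : VK P ρ o) (z : T') : VK P ρ o :=
  open Classical in if h : KV P ρ o z then ⟨z, h⟩ else v0

omit hW in
theorem _root_.Pool.Agent.FrC2.zz_eq {S Γ T' : Type} [Group Γ] [MetricSpace T']
    [MulAction Γ T'] {ρ : FreeGroup S →* Γ} {o : T'} {P : Finset (FreeGroup S)}
    (v0 : VK P ρ o) {z : T'} (h : KV P ρ o z) : zz v0 z = ⟨z, h⟩ := dif_pos h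

/-- the windows in the tree satisfy the hypotheses of the abstract LINE theorem -/
theorem wins {G : Type} [Group G] {π : FreeGroup S →* G} (hπ : Function.Surjective π)
    {R : Set (FreeGroup S)} (hker : ∀ w, π w = 1 → w ∈ Subgroup.normalClosure R)
    (hR : ∀ r ∈ R, π r = 1 ∧ ∃ γ p, (hpa P ρ o).Path γ p p ∧ FrT.lab γ = r)
    {ρ' : G →* Γ} (hρ' : ∀ w, ρ' (π w) = ρ w) (v0 : VK P ρ o)
    (hgood : (hpa P ρ o).Good)
    {B : H → Set G} (hcomm : ∀ h, ∀ a ∈ B h, ∀ b ∈ B h, a * b = b * a)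
    (hgen : ∀ h, (Subgroup.closure (B h)).map ρ' = Z h)
    (hbig : ∀ h, ∀ b ∈ B h, 2 * |φ h (ρ' b)| ≤ N h)
    (hvis : ∀ h, ∀ b ∈ B h, ∃ γ : List (S × Bool), b = π (FrT.lab γ) ∧
      ∀ n, 0 ≤ n → n ≤ N h → ∀ γ₁ γ₂, γ = γ₁ ++ γ₂ →
        KV P ρ o (ρ (FrT.lab γ₁) • l' h (s0 h + 2 * n))) :
    Wins ((hpa P ρ o).TG π hgood) ρ' Z φ B
      (fun h n => (hpa P ρ o).pt π 1 (zz v0 (l' h (s0 h + 2 * n)))) N where
  comm := hcomm
  gen := hgen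
  add := hW.add
  ne := hW.ne
  big := hbig
  adj := by
    intro h n h1 h2
    refine ⟨1, _, _, ?_, rfl, rfl⟩
    rw [zz_eq v0 (hW.kv h1 h2.le), zz_eq v0 (hW.kv' h1 h2)]
    exact hW.adj' h1 h2
  mv := by
    intro h b hb n h1 h2 h3 h4
    obtain ⟨γ, rfl, hγ⟩ := hvis h b hb
    rw [zz_eq v0 (hW.kv h1 h2), zz_eq v0 (hW.kv h3 h4)]
    obtain ⟨q, q1, q2⟩ := path_of_word γ ⟨_, hW.kv h1 h2⟩ (hγ n h1 h2)
    have h5 := (hpa P ρ o).pt_path π γ 1 _ _ q1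
    rw [one_mul] at h5
    rw [FrT.PA.smul_pt, mul_one, h5]
    congr 1
    apply Subtype.ext
    rw [q2]
    have h6 : ρ (FrT.lab γ) ∈ Z h := by
      rw [← hρ', ← hgen h]
      exact Subgroup.mem_map_of_mem ρ' (Subgroup.subset_closure hb)
    rw [hW.act h _ h6]
    show l' h (s0 h + 2 * n + 2 * φ h (ρ (FrT.lab γ))) =
      l' h (s0 h + 2 * ((n + φ h (ρ' (π (FrT.lab γ))) : ℤ) : ℝ))
    rw [hρ']
    congr 1
    push_cast
    ring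
  eq := by
    intro h h' n n' g h1 h2 h3 h4 h5 h6
    rw [zz_eq v0 (hW.kv h1 h2.le), zz_eq v0 (hW.kv h3 h4.le), FrT.PA.smul_pt, mul_one] at h5
    rw [zz_eq v0 (hW.kv' h1 h2), zz_eq v0 (hW.kv' h3 h4), FrT.PA.smul_pt, mul_one] at h6
    obtain ⟨γ, g1, g2, g3⟩ := (hpa P ρ o).edge_unique π hgood hπ hker hR (hW.adj' h1 h2)
      (hW.adj' h3 h4) h5 h6
    rw [one_mul] at g3
    obtain ⟨e1, e2, e3⟩ := hW.path_line h1 h2 h3 h4 g1 g2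
    rw [g3, hρ']
    exact ⟨e1, e2, e3⟩
  neg := by
    intro h h' n n' g h1 h2 h3 h4 h5 h6
    rw [zz_eq v0 (hW.kv h1 h2.le), zz_eq v0 (hW.kv' h3 h4), FrT.PA.smul_pt, mul_one] at h5
    rw [zz_eq v0 (hW.kv' h1 h2), zz_eq v0 (hW.kv h3 h4.le), FrT.PA.smul_pt, mul_one] at h6
    obtain ⟨γ, g1, g2, g3⟩ := (hpa P ρ o).edge_unique π hgood hπ hker hR (hW.adj' h1 h2)
      (hW.adj' h3 h4).symm h5 h6
    exact hW.path_flip h1 h2 h3 h4 g1 g2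

end WD

end Pool.Agent.FrC2
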