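import Pool.Agent.Lib.MP_305fdd_al.Fr.C2.Dist
import Pool.Agent.Lib.MP_305fdd_al.Fr.C2.Geo
import Pool.Agent.Lib.MP_305fdd_al.Fr.C2.Win
import Pool.Agent.Lib.MP_305fdd_al.Fr.C2.Cover

/-!
# MP_305fdd_al, F_r, Case 2: preparations for the LINE theorem
-/

set_option autoImplicit false

namespace Pool.Agent.FrC2

open Pool.Agent.FrS Pool.Agent.FrR Pool.Agent.FrZ Matrix

section group

variable {Γ Γ' S : Type} [Group Γ] [Group Γ']

theorem fg_map {f : Γ →* Γ'} {Z : Subgroup Γ} (h : Z.FG) : (Z.map f).FG := by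
  classical
  obtain ⟨T, hT⟩ := h
  refine ⟨T.image f, ?_⟩
  rw [Finset.coe_image, ← MonoidHom.map_closure, hT]

theorem fg_subgroupOf {P Z : Subgroup Γ} (hZP : Z ≤ P) (h : Z.FG) : (Z.subgroupOf P).FG := by
  have h1 : Group.FG Z := (Group.fg_iff_subgroup_fg Z).2 h
  have h2 := fg_map (f := Subgroup.inclusion hZP) (Group.fg_def.1 h1)
  have h3 : (⊤ : Subgroup Z).map (Subgroup.inclusion hZP) = Z.subgroupOf P := by
    ext ⟨x, hx⟩
    constructor
    · rintro ⟨⟨y, hy⟩, -, h4⟩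
      have h5 : y = x := congrArg Subtype.val h4
      subst h5
      exact hy
    · intro h4
      exact ⟨⟨x, h4⟩, trivial, rfl⟩
  rwa [h3] at h2

theorem exists_words {π : FreeGroup S →* Γ} (hπ : Function.Surjective π) {E : Subgroup Γ}
    (hE : E.FG) : ∃ B : Finset (FreeGroup S),
      Subgroup.closure (π '' (B : Set (FreeGroup S))) = E := by
  classical
  obtain ⟨T, hT⟩ := hE
  choose s hs using hπ
  refine ⟨T.image s, ?_⟩
  rw [Finset.coe_image, Set.image_image]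
  have h1 : (fun x => π (s x)) '' (T : Set Γ) = T := by
    simp [hs]
  rw [h1, hT]

end group

namespace Line

variable {Γ T : Type} [Group Γ] [MetricSpace T] [MulAction Γ T] (A : Line Γ T)

theorem l_inj {s t : ℝ} (h : A.l s = A.l t) : s = t := by
  have h1 := A.iso s t
  rw [h, dist_self] at h1
  exact sub_eq_zero.1 (abs_eq_zero.1 h1.symm)

theorem φ_mul {a b : Γ} (ha : a ∈ A.E) (hb : b ∈ A.E) : A.φ (a * b) = A.φ a + A.φ b := by
  have h1 := A.act _ (A.E.mul_mem ha hb) 0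
  rw [mul_smul, A.act b hb, A.act a ha] at h1
  have h2 := A.l_inj h1
  linarith

theorem φ_one : A.φ 1 = 0 := by
  have h1 := A.φ_mul A.E.one_mem A.E.one_mem
  rw [mul_one] at h1
  linarith

theorem φ_inv {a : Γ} (ha : a ∈ A.E) : A.φ a⁻¹ = - A.φ a := by
  have h1 := A.φ_mul ha (A.E.inv_mem ha)
  rw [mul_inv_cancel, A.φ_one] at h1
  linarith

theorem φ_pow {a : Γ} (ha : a ∈ A.E) (n : ℕ) : A.φ (a ^ n) = n * A.φ a := by
  induction n with
  | zero => rw [pow_zero, A.φ_one]; simp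
  | succ n ih =>
    rw [pow_succ, A.φ_mul (A.E.pow_mem ha n) ha, ih]
    push_cast
    ring

/-- all translations are in a subgroup, if those of generators are -/
theorem φ_mem (Λ : AddSubgroup ℝ) {B : Set Γ} (hB : Subgroup.closure B = A.E)
    (h : ∀ b ∈ B, A.φ b ∈ Λ) : ∀ a ∈ A.E, A.φ a ∈ Λ := by
  intro a ha
  rw [← hB] at ha
  induction ha using Subgroup.closure_induction with
  | mem a ha => exact h a ha
  | one => rw [A.φ_one]; exact Λ.zero_mem
  | mul a b ha hb h1 h2 =>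
    rw [hB] at ha hb
    rw [A.φ_mul ha hb]
    exact Λ.add_mem h1 h2
  | inv a ha h1 =>
    rw [hB] at ha
    rw [A.φ_inv ha]
    exact Λ.neg_mem h1

/-- a long translation, compared with finitely many others -/
theorem exists_long {S : Type} {π : FreeGroup S →* Γ} (hπ : Function.Surjective π)
    (B : Finset (FreeGroup S)) (h : ∃ z ∈ A.E, 0 < A.φ z) :
    ∃ u : FreeGroup S, π u ∈ A.E ∧ 0 < A.φ (π u) ∧
      ∀ b ∈ B, 0 < A.φ (π u) - 2 * A.φ (π b) ∧ 0 < A.φ (π u) + 2 * A.φ (π b) := by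
  classical
  obtain ⟨z, hz, hz0⟩ := h
  obtain ⟨w, rfl⟩ := hπ z
  obtain ⟨m, hm⟩ := exists_nat_gt ((∑ b ∈ B, 2 * |A.φ (π b)|) / A.φ (π w))
  have h1 : ∑ b ∈ B, 2 * |A.φ (π b)| < m * A.φ (π w) := by
    rwa [div_lt_iff₀ hz0] at hm
  have h0 : 0 ≤ ∑ b ∈ B, 2 * |A.φ (π b)| := Finset.sum_nonneg fun b _ => by positivity
  refine ⟨w ^ m, ?_, ?_, ?_⟩
  · rw [map_pow]
    exact A.E.pow_mem hz m
  · rw [map_pow, A.φ_pow hz]
    linarith
  · intro b hb
    rw [map_pow, A.φ_pow hz]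
    have h2 := Finset.single_le_sum (f := fun b => 2 * |A.φ (π b)|)
      (fun b _ => by positivity) hb
    have h3 := le_abs_self (A.φ (π b))
    have h4 := neg_abs_le (A.φ (π b))
    constructor <;> linarith

end Line

section lz

variable {L : ℝ →+ ℚ}

/-- half of an even value -/
theorem two_half {c : ℝ} (h : c ∈ Lam L) : 2 * (Lz L c / 2) = Lz L c := by
  obtain ⟨k, hk⟩ := Lz_even h
  omega

theorem Lz_real {c : ℝ} (h : c ∈ Lam L) : ((Lz L c : ℤ) : ℝ) = ((L c : ℚ) : ℝ) := by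
  rw [← Lz_cast h]
  push_cast
  rfl

theorem half_real {c : ℝ} (h : c ∈ Lam L) : 2 * ((Lz L c / 2 : ℤ) : ℝ) = ((L c : ℚ) : ℝ) := by
  rw [← Lz_real h]
  have h1 : ((2 * (Lz L c / 2) : ℤ) : ℝ) = ((Lz L c : ℤ) : ℝ) := by rw [two_half h]
  push_cast at h1
  exact h1

theorem Lz_pos {c : ℝ} (h : c ∈ Lam L) (h0 : 0 < L c) : 0 < Lz L c := by
  have h1 : (0 : ℚ) < Lz L c := by rw [Lz_cast h]; exact h0
  exact_mod_cast h1

end lz

end Pool.Agent.FrC2
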