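import Pool.Agent.Lib.MP_305fdd_al.Fr.C2.Prep

/-!
# MP_305fdd_al, F_r, Case 2: the windows in the real tree `Tr x` and in the perturbed tree `Tr x'`
-/

set_option autoImplicit false

namespace Pool.Agent.FrC2

open Pool.Agent.FrS Pool.Agent.FrR Pool.Agent.FrZ Matrix

variable {Γ L H ι : Type} [Group Γ] [Field L] [CharP L 2]
  {ρ : Γ →* SpecialLinearGroup (Fin 2) L} {x : RV L} {P : Subgroup Γ} {Z : H → Subgroup Γ}
  {k : H → SpecialLinearGroup (Fin 2) L} {E : ι → Subgroup Γ}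
  {S : Type} [Finite S]

theorem isoSub (y : RV L) (Q : Subgroup (SpecialLinearGroup (Fin 2) L)) (g : Q) (p q : Tr y) :
    dist (g • p) (g • q) = dist p q := dist_smul_eq g.1 p q

namespace LineIn

section T

variable (hin : LineIn ρ x P Z k E) (π : FreeGroup S →* P.map ρ)

/-- the line in `Tr x` -/
theorem seg (h : H) {u : FreeGroup S} (hu : π u ∈ (hin.line h).E)
    (hU : 0 < (hin.line h).φ (π u)) :
    dist (bp x) (π u • bp x) = 2 * Dk x (k h) + (hin.line h).φ (π u) ∧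
      ∀ s, Sk x (k h) ≤ s → s ≤ Sk x (k h) + (hin.line h).φ (π u) →
      Bt (bp x) ((hin.line h).l s) (π u • bp x) ∧
        dist (bp x) ((hin.line h).l s) = Dk x (k h) + (s - Sk x (k h)) :=
  line_seg (isRT x) (isoSub x (P.map ρ)) (fun s => dist_bp_cls x (k h) s) (hin.line h).iso hU
    (fun s => (hin.line h).act _ hu s)

theorem len_pos (h : H) {u : FreeGroup S} (hu : π u ∈ (hin.line h).E)
    (hU : 0 < (hin.line h).φ (π u)) : 0 < len π (bp x) u := by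
  show 0 < dist (bp x) (π u • bp x)
  rw [(hin.seg π h hu hU).1]
  have := Dk_nonneg x (k h)
  linarith

/-- the family of the lines -/
noncomputable def fam {n : ℕ} {lo : FreeGroup S → ℝ}
    (hlo : Disj (ball S n) (len π (bp x)) (len π (bp x)) lo) :
    FrZ.Fam (bsys (ball S n) (len π (bp x)) (len π (bp x)) lo)
      (π.comp (labJ (ball S n) (len π (bp x)))) (Σ i, P.map ρ ⧸ (hin.line i).E) :=
  famLines (isRT x) hin.small' (bsys_good (isRT x) (isoSub x (P.map ρ)) π (bp x) lo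
    (Cp.refl _ _) hlo) (bsys_rln (isRT x) (isoSub x (P.map ρ)) π (bp x) lo (Cp.refl _ _))
    hin.line hin.line_diff

/-- the arc of a window -/
theorem fam_le {n : ℕ} {lo : FreeGroup S → ℝ}
    (hlo : Disj (ball S n) (len π (bp x)) (len π (bp x)) lo) (h : H)
    (u : Ix (ball S n) (len π (bp x))) (hu : π u.1 ∈ (hin.line h).E)
    (hU : 0 < (hin.line h).φ (π u.1)) :
    (hin.fam π hlo).p (u, ⟨h, ((1 : P.map ρ) : P.map ρ ⧸ (hin.line h).E)⟩) ≤
        lo u.1 + Dk x (k h) ∧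
      lo u.1 + (Dk x (k h) + (hin.line h).φ (π u.1)) ≤
        (hin.fam π hlo).q (u, ⟨h, ((1 : P.map ρ) : P.map ρ ⧸ (hin.line h).E)⟩) := by
  obtain ⟨h1, h2⟩ := hin.seg π h hu hU
  obtain ⟨a1, a2⟩ := h2 (Sk x (k h)) le_rfl (by linarith)
  obtain ⟨b1, b2⟩ := h2 (Sk x (k h) + (hin.line h).φ (π u.1)) (by linarith) le_rfl
  rw [sub_self, add_zero] at a2
  rw [add_sub_cancel_left] at b2
  have a3 := rea_eq (isRT x) π (bp x) lo u a1
  have b3 := rea_eq (isRT x) π (bp x) lo u b1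
  rw [a2] at a3
  rw [b2] at b3
  have hD := Dk_nonneg x (k h)
  refine famLines_le (isRT x) hin.small' _ _ hin.line hin.line_diff ?_ ?_ ?_ ?_ ?_
  · show lo u.1 ≤ lo u.1 + Dk x (k h)
    linarith
  · linarith
  · show lo u.1 + (Dk x (k h) + (hin.line h).φ (π u.1)) ≤
      lo u.1 + dist (bp x) (π u.1 • bp x)
    rw [h1]
    linarith
  · exact ⟨Sk x (k h), by rw [one_smul]; exact a3.symm⟩
  · exact ⟨Sk x (k h) + (hin.line h).φ (π u.1), by rw [one_smul]; exact b3.symm⟩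

end T

section T'

variable (hin : LineIn ρ x P Z k E) {L₀ : ℝ →+ ℚ} {x' : RV L}
  (hx' : ∀ h, ∀ z ∈ Z h, x'.v (eg ρ (k h) z) = (L₀ (x.v (eg ρ (k h) z)) : ℝ))

include hx' in
/-- the line in `Tr x'` -/
theorem act' (h : H) {g : P.map ρ} (hg : g ∈ (hin.line h).E) (s : ℝ) :
    g • cls (⟨k h, s⟩ : Pre x') = cls (⟨k h, s + ((L₀ ((hin.line h).φ g) : ℚ) : ℝ)⟩ : Pre x') := by
  obtain ⟨_, a', ha', rfl⟩ := g
  obtain ⟨a, ha, haa⟩ := hg
  have haa' : ρ a = ρ a' := haa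
  obtain ⟨h1, h2⟩ := hin.dg h a ha
  have h3 := smul_diag x' (k h) (ρ a) h1 h2 s
  have h4 : (hin.line h).φ ⟨ρ a', a', ha', rfl⟩ = - x.v (eg ρ (k h) a) := by
    show - x.v (((k h)⁻¹ * ρ a' * k h).1 0 0) = _
    rw [← haa']
    rfl
  rw [h4, map_neg]
  show ρ a' • cls (⟨k h, s⟩ : Pre x') = _
  rw [← haa', h3]
  have h5 : x'.v (((k h)⁻¹ * ρ a * k h).1 0 0) = (L₀ (x.v (eg ρ (k h) a)) : ℝ) := hx' h a ha
  rw [h5]
  push_cast
  rw [sub_eq_add_neg]

end T'

end LineIn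

end Pool.Agent.FrC2
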